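import Pool.Agent.Work.MP_bf99ce_cxe.Interface
import Pool.Agent.Work.MP_bf99ce_cx.Defs

/-!
# THEOREM CX (MP_bf99ce_ag), PART E, second form: a universal polynomial `f` (the form of `MP_bf99ce_cx/Defs.lean`)

Files `B_X.lean` in this folder, `import Pool.Agent.Work.MP_bf99ce_cxe.Interface2`, otherwise the rules of `Interface.lean` (namespace
`Pool.CXE`, `theorem p_X`, hypotheses = column `uses`, auxiliary lemmas with the prefix `X_`). `OnX`, `TanX`, `av`, `bv`, `dav`, `dbv`,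
`P10`, `Bihom` are the definitions of `Pool.CX`.
-/

set_option autoImplicit false

noncomputable section

namespace Pool.CXE

open Pool.CX

/-- PART E in the universal form (as `Pool.CX.Stmt_E`, with the hypothesis `315 ε³ + 46656 ≠ 0` on `ε`). -/
def Stmt_EU : Prop :=
  ∀ (k : Type) [Field k] [CharZero k] (ε : k), 315 * ε ^ 3 + 46656 ≠ 0 → ∀ m : ℕ, ∃ f : P10 k, Bihom 7 m f ∧
    (∀ (S : Type) [CommRing S] [IsDomain S] [Algebra k S] (x y : Fin 5 → S), x 3 ≠ 0 → x 4 ≠ 0 →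
      OnX (algebraMap k S ε) x → TanX (algebraMap k S ε) x y →
      ∑ i, x i * MvPolynomial.aeval (Sum.elim x y) (MvPolynomial.pderiv (Sum.inr i) f) = 0) ∧
    (∀ (S : Type) [Field S] [Algebra k S] (x : Fin 5 → S), x 0 = 1 → AlgebraicIndependent k ![x 1, x 2] →
      OnX (algebraMap k S ε) x → ∃ y : Fin 5 → S, TanX (algebraMap k S ε) x y ∧ MvPolynomial.aeval (Sum.elim x y) f ≠ 0)

/-- **SU1** (100, uses nothing). As block SP1: `mon x y (μ + ν) = mon x y μ * mon x y ν`, `mon x y (Pi.single i n, Pi.single j l) = x i ^ n * y j ^ l`, `3 a - b` and `3 b - a` for `OnX`, the two equations of `TanX`. -/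
def Stmt_SU1 : Prop := ∀ (S : Type) [CommRing S] (ε : S) (x y : Fin 5 → S), OnX ε x → TanX ε x y → ∀ α β : Fin 5 → ℕ,
  8 * mon x y (α + Pi.single 1 3, β) = 6 * mon x y (α + Pi.single 0 3, β) + 3 * mon x y (α + Pi.single 3 3, β) -
    mon x y (α + Pi.single 4 3, β) - 3 * ε * mon x y (α + (Pi.single 0 1 + Pi.single 1 1 + Pi.single 2 1), β) ∧
  8 * mon x y (α + Pi.single 2 3, β) = 6 * mon x y (α + Pi.single 0 3, β) - mon x y (α + Pi.single 3 3, β) +
    3 * mon x y (α + Pi.single 4 3, β) + ε * mon x y (α + (Pi.single 0 1 + Pi.single 1 1 + Pi.single 2 1), β) ∧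
  3 * mon x y (α + Pi.single 3 2, β + Pi.single 3 1) =
    -9 * mon x y (α + Pi.single 0 2, β + Pi.single 0 1) + ε * mon x y (α + (Pi.single 1 1 + Pi.single 2 1), β + Pi.single 0 1) +
    9 * mon x y (α + Pi.single 1 2, β + Pi.single 1 1) + ε * mon x y (α + (Pi.single 0 1 + Pi.single 2 1), β + Pi.single 1 1) +
    3 * mon x y (α + Pi.single 2 2, β + Pi.single 2 1) + ε * mon x y (α + (Pi.single 0 1 + Pi.single 1 1), β + Pi.single 2 1) ∧
  3 * mon x y (α + Pi.single 4 2, β + Pi.single 4 1) =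
    -9 * mon x y (α + Pi.single 0 2, β + Pi.single 0 1) + 3 * mon x y (α + Pi.single 1 2, β + Pi.single 1 1) +
    9 * mon x y (α + Pi.single 2 2, β + Pi.single 2 1)

/-- `∑ r ν x^ν y^ν` over the normal monomials of bidegree `(p, m)` equals `x^μ y^μ` at all points, tangent vectors, rings. -/
def Red {k : Type} [Field k] (ε : k) (p m : ℕ) (μ : (Fin 5 → ℕ) × (Fin 5 → ℕ)) (r : (Fin 5 → ℕ) × (Fin 5 → ℕ) → k) : Prop :=
  ∀ (S : Type) [CommRing S] [Algebra k S] (x y : Fin 5 → S), OnX (algebraMap k S ε) x → TanX (algebraMap k S ε) x y →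
    mon x y μ = ∑ ν ∈ II p m, algebraMap k S (r ν) * mon x y ν

/-- **SPU** (150, uses SU1). As block SPN: strong induction on `3 (β3 + β4) + α1 + α2`. If `μ` is normal then `r = Pi.single μ 1` (or `if ν = μ then 1 else 0`). If `α1 ≥ 3`, or `α2 ≥ 3`, or `α3 ≥ 2` and `β3 ≥ 1`, or `α4 ≥ 2` and `β4 ≥ 1`: `μ = (α' + Pi.single 1 3, β)` and so on, SU1, and the same linear
combination of the functions `r` of the 4, 4, 6, 3 terms (`Red` is linear in this sense); divide by `8` or `3` in `k` (`algebraMap k S 8` is a unit). -/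
def Stmt_SPU : Prop := ∀ (k : Type) [Field k] [CharZero k] (ε : k) (p m : ℕ) (μ : (Fin 5 → ℕ) × (Fin 5 → ℕ)),
  ∑ i, μ.1 i = p → ∑ i, μ.2 i = m → ∃ r, Red ε p m μ r

/-- The value of `∑ c_μ ∑_i x_i ∂(x^μ y^μ)/∂y_i`. -/
def dval {k : Type} [Field k] (S : Type) [CommRing S] [Algebra k S] (I : Finset ((Fin 5 → ℕ) × (Fin 5 → ℕ)))
    (c : (Fin 5 → ℕ) × (Fin 5 → ℕ) → k) (x y : Fin 5 → S) : S :=
  ∑ μ ∈ I, algebraMap k S (c μ) * ∑ i, (μ.2 i : S) * (x i * mon x y (μ.1, μ.2 - Pi.single i 1))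

/-- **UEX** (120, uses SPU CNT). `x i * mon x y (α, β - e_i) = mon x y (α + e_i, β - e_i)`; if `β i = 0` the term is zero, otherwise the bidegree is `(8, m)`: choose `r_(μ, i)` from SPU. The linear map `c ↦ (ν ↦ ∑_μ c μ ∑_i β_i r_(μ, i) ν)` from `(II 7 (m + 1) → k)` to `(II 8 m → k)` has a nonzero kernel (CNT,
`LinearMap.ker_ne_bot_of_finrank_lt`). -/
def Stmt_UEX : Prop := ∀ (k : Type) [Field k] [CharZero k] (ε : k) (m : ℕ), ∃ c : (Fin 5 → ℕ) × (Fin 5 → ℕ) → k,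
  (∃ μ ∈ II 7 (m + 1), c μ ≠ 0) ∧ ∀ (S : Type) [CommRing S] [Algebra k S] (x y : Fin 5 → S),
    OnX (algebraMap k S ε) x → TanX (algebraMap k S ε) x y → dval S (II 7 (m + 1)) c x y = 0

/-- **UNZ** (120, uses IND CNV). `Dat k ε x` holds (CNV; `fa`, `fb` are `av`, `bv`). By IND `f = ∑ c μ • evm ε x μ ≠ 0` in `S[y0, y1, y2]`; `S` is infinite (characteristic `0`), so there is `v : Fin 3 → S` with `MvPolynomial.eval v f ≠ 0` (`MvPolynomial.funext`). `y i = MvPolynomial.eval v (ys ε x i)`; it is tangent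
(`x 3 ≠ 0`, `x 4 ≠ 0`: `x 3 ^ 3 = ev2 Pa ≠ 0`). -/
def Stmt_UNZ : Prop := ∀ (k : Type) [Field k] [CharZero k] (ε : k), 315 * ε ^ 3 + 46656 ≠ 0 → ∀ (p m : ℕ) (c : (Fin 5 → ℕ) × (Fin 5 → ℕ) → k),
  (∃ μ ∈ II p m, c μ ≠ 0) → ∀ (S : Type) [Field S] [Algebra k S] (x : Fin 5 → S), x 0 = 1 → AlgebraicIndependent k ![x 1, x 2] →
  OnX (algebraMap k S ε) x → ∃ y : Fin 5 → S, TanX (algebraMap k S ε) x y ∧ ∑ μ ∈ II p m, algebraMap k S (c μ) * mon x y μ ≠ 0

/-- The polynomial with the coefficients `c`. -/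
def pol10 {k : Type} [Field k] (I : Finset ((Fin 5 → ℕ) × (Fin 5 → ℕ))) (c : (Fin 5 → ℕ) × (Fin 5 → ℕ) → k) : P10 k :=
  ∑ μ ∈ I, MvPolynomial.C (c μ) * mon (fun i => MvPolynomial.X (Sum.inl i)) (fun i => MvPolynomial.X (Sum.inr i)) μ

/-- **UPL** (120, uses nothing). (1) `mon` of the variables is a monomial with the exponent `Sum.elim μ.1 μ.2`. (2) `aeval` is a ring homomorphism. (3) `pderiv (Sum.inr i)` of the monomial (`Derivation.leibniz`, `Derivation.leibniz_pow`, `Fin.prod_univ_five`; `MvPolynomial.pderiv_monomial`; or `aeval` and (1)). -/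
def Stmt_UPL : Prop := ∀ (k : Type) [Field k] (I : Finset ((Fin 5 → ℕ) × (Fin 5 → ℕ))) (c : (Fin 5 → ℕ) × (Fin 5 → ℕ) → k),
  (∀ p m : ℕ, (∀ μ ∈ I, ∑ i, μ.1 i = p ∧ ∑ i, μ.2 i = m) → Bihom p m (pol10 I c)) ∧
  ∀ (S : Type) [CommRing S] [Algebra k S] (x y : Fin 5 → S),
    MvPolynomial.aeval (Sum.elim x y) (pol10 I c) = ∑ μ ∈ I, algebraMap k S (c μ) * mon x y μ ∧
    ∑ i, x i * MvPolynomial.aeval (Sum.elim x y) (MvPolynomial.pderiv (Sum.inr i) (pol10 I c)) = dval S I c x y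

/-- **UFN** (60, uses UEX UNZ UPL). `m = 0`: `f = X (Sum.inl 0) ^ 7` (`pderiv` in the second variables is zero; `y = (0, 0, 0, 0, 0)`). `m + 1`: `f = pol10 (II 7 (m + 1)) c`. -/
def Stmt_UFN : Prop := Stmt_EU

end Pool.CXE
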