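import Pool.Agent.Work.MP_bf99ce_cxe.Interface2

/-!
# Block SPU: the universal reduction to the normal monomials
-/

set_option autoImplicit false

open Polynomial

noncomputable section

namespace Pool.CXE

open Pool.CX

theorem SPU_sub (α : Fin 5 → ℕ) (j : Fin 5) (n : ℕ) (h : n ≤ α j) :
    ∃ α' : Fin 5 → ℕ, α = α' + Pi.single j n := by
  refine ⟨fun i => α i - (Pi.single j n : Fin 5 → ℕ) i, ?_⟩
  funext i
  rw [Pi.add_apply]
  by_cases hi : i = j
  · subst hi
    rw [Pi.single_eq_same]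
    omega
  · rw [Pi.single_eq_of_ne hi]
    omega

/-- A family of elements of all algebras (evaluated at all points and tangent vectors) that is a combination of the normal
monomials. -/
def SPU_G {k : Type} [Field k] (ε : k) (p m : ℕ)
    (F : ∀ (S : Type) [CommRing S] [Algebra k S], (Fin 5 → S) → (Fin 5 → S) → S) : Prop :=
  ∃ r : (Fin 5 → ℕ) × (Fin 5 → ℕ) → k, ∀ (S : Type) [CommRing S] [Algebra k S] (x y : Fin 5 → S),
    OnX (algebraMap k S ε) x → TanX (algebraMap k S ε) x y →
    F S x y = ∑ ν ∈ II p m, algebraMap k S (r ν) * mon x y ν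

theorem SPU_add {k : Type} [Field k] {ε : k} {p m : ℕ}
    {F G : ∀ (S : Type) [CommRing S] [Algebra k S], (Fin 5 → S) → (Fin 5 → S) → S}
    (hF : SPU_G ε p m F) (hG : SPU_G ε p m G) : SPU_G ε p m (fun S _ _ x y => F S x y + G S x y) := by
  obtain ⟨r, hr⟩ := hF
  obtain ⟨s, hs⟩ := hG
  refine ⟨fun ν => r ν + s ν, ?_⟩
  intro S _ _ x y hx hy
  simp only [hr S x y hx hy, hs S x y hx hy, map_add, add_mul, Finset.sum_add_distrib]

theorem SPU_smul {k : Type} [Field k] {ε : k} {p m : ℕ} (c : k)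
    {F : ∀ (S : Type) [CommRing S] [Algebra k S], (Fin 5 → S) → (Fin 5 → S) → S}
    (hF : SPU_G ε p m F) : SPU_G ε p m (fun S _ _ x y => algebraMap k S c * F S x y) := by
  obtain ⟨r, hr⟩ := hF
  refine ⟨fun ν => c * r ν, ?_⟩
  intro S _ _ x y hx hy
  simp only [hr S x y hx hy, map_mul, Finset.mul_sum, mul_assoc]

theorem SPU_cong {k : Type} [Field k] {ε : k} {p m : ℕ}
    {F G : ∀ (S : Type) [CommRing S] [Algebra k S], (Fin 5 → S) → (Fin 5 → S) → S}
    (hF : SPU_G ε p m F) (h : ∀ (S : Type) [CommRing S] [Algebra k S] (x y : Fin 5 → S),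
      OnX (algebraMap k S ε) x → TanX (algebraMap k S ε) x y → G S x y = F S x y) : SPU_G ε p m G := by
  obtain ⟨r, hr⟩ := hF
  refine ⟨r, ?_⟩
  intro S _ _ x y hx hy
  rw [h S x y hx hy, hr S x y hx hy]

/-- The monomial `x^μ y^μ`. -/
abbrev SPU_M (k : Type) [Field k] (μ : (Fin 5 → ℕ) × (Fin 5 → ℕ)) :
    ∀ (S : Type) [CommRing S] [Algebra k S], (Fin 5 → S) → (Fin 5 → S) → S :=
  fun _ _ _ x y => mon x y μ

theorem SPU_inv {k : Type} [Field k] {c : k} (hc : c ≠ 0) (S : Type) [CommRing S] [Algebra k S] :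
    algebraMap k S c⁻¹ * algebraMap k S c = 1 := by
  rw [← map_mul, inv_mul_cancel₀ hc, map_one]

theorem p_SPU (hSU1 : Stmt_SU1) : Stmt_SPU := by
  intro k _ _ ε p m
  have key : ∀ N : ℕ, ∀ α β : Fin 5 → ℕ, 3 * (β 3 + β 4) + α 1 + α 2 < N →
      α 0 + α 1 + α 2 + α 3 + α 4 = p → β 0 + β 1 + β 2 + β 3 + β 4 = m → SPU_G ε p m (SPU_M k (α, β)) := by
    intro N
    induction N with
    | zero =>
      intro α β h
      omega
    | succ N ih =>
      intro α β hN hα hβ
      have h8 : (8 : k) ≠ 0 := by norm_num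
      have h3' : (3 : k) ≠ 0 := by norm_num
      by_cases h1 : 3 ≤ α 1
      · obtain ⟨α', rfl⟩ := SPU_sub α 1 3 h1
        simp [Pi.single_apply] at hα hN
        have e1 : SPU_G ε p m (SPU_M k (α' + Pi.single 0 3, β)) := by
          refine ih _ _ ?_ ?_ hβ <;> simp [Pi.single_apply] <;> omega
        have e2 : SPU_G ε p m (SPU_M k (α' + Pi.single 3 3, β)) := by
          refine ih _ _ ?_ ?_ hβ <;> simp [Pi.single_apply] <;> omega
        have e3 : SPU_G ε p m (SPU_M k (α' + Pi.single 4 3, β)) := by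
          refine ih _ _ ?_ ?_ hβ <;> simp [Pi.single_apply] <;> omega
        have e4 : SPU_G ε p m (SPU_M k (α' + (Pi.single 0 1 + Pi.single 1 1 + Pi.single 2 1), β)) := by
          refine ih _ _ ?_ ?_ hβ <;> simp [Pi.single_apply] <;> omega
        refine SPU_cong (SPU_smul (8 : k)⁻¹ (SPU_add (SPU_add (SPU_add (SPU_smul 6 e1) (SPU_smul 3 e2))
          (SPU_smul (-1) e3)) (SPU_smul (-(3 * ε)) e4))) ?_
        intro S _ _ x y hx hy
        have h := (hSU1 S (algebraMap k S ε) x y hx hy α' β).1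
        have hi := SPU_inv h8 S
        simp only [map_neg, map_mul, map_one, map_ofNat] at hi ⊢
        linear_combination (algebraMap k S 8⁻¹) * h - (mon x y (α' + Pi.single 1 3, β)) * hi
      by_cases h2 : 3 ≤ α 2
      · obtain ⟨α', rfl⟩ := SPU_sub α 2 3 h2
        simp [Pi.single_apply] at hα hN
        have e1 : SPU_G ε p m (SPU_M k (α' + Pi.single 0 3, β)) := by
          refine ih _ _ ?_ ?_ hβ <;> simp [Pi.single_apply] <;> omega
        have e2 : SPU_G ε p m (SPU_M k (α' + Pi.single 3 3, β)) := by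
          refine ih _ _ ?_ ?_ hβ <;> simp [Pi.single_apply] <;> omega
        have e3 : SPU_G ε p m (SPU_M k (α' + Pi.single 4 3, β)) := by
          refine ih _ _ ?_ ?_ hβ <;> simp [Pi.single_apply] <;> omega
        have e4 : SPU_G ε p m (SPU_M k (α' + (Pi.single 0 1 + Pi.single 1 1 + Pi.single 2 1), β)) := by
          refine ih _ _ ?_ ?_ hβ <;> simp [Pi.single_apply] <;> omega
        refine SPU_cong (SPU_smul (8 : k)⁻¹ (SPU_add (SPU_add (SPU_add (SPU_smul 6 e1) (SPU_smul (-1) e2))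
          (SPU_smul 3 e3)) (SPU_smul ε e4))) ?_
        intro S _ _ x y hx hy
        have h := (hSU1 S (algebraMap k S ε) x y hx hy α' β).2.1
        have hi := SPU_inv h8 S
        simp only [map_neg, map_mul, map_one, map_ofNat] at hi ⊢
        linear_combination (algebraMap k S 8⁻¹) * h - (mon x y (α' + Pi.single 2 3, β)) * hi
      by_cases h3 : 2 ≤ α 3 ∧ 1 ≤ β 3
      · obtain ⟨h3a, h3b⟩ := h3
        obtain ⟨α', rfl⟩ := SPU_sub α 3 2 h3a
        obtain ⟨β', rfl⟩ := SPU_sub β 3 1 h3b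
        simp [Pi.single_apply] at hα hβ hN
        have e1 : SPU_G ε p m (SPU_M k (α' + Pi.single 0 2, β' + Pi.single 0 1)) := by
          refine ih _ _ ?_ ?_ ?_ <;> simp [Pi.single_apply] <;> omega
        have e2 : SPU_G ε p m (SPU_M k (α' + (Pi.single 1 1 + Pi.single 2 1), β' + Pi.single 0 1)) := by
          refine ih _ _ ?_ ?_ ?_ <;> simp [Pi.single_apply] <;> omega
        have e3 : SPU_G ε p m (SPU_M k (α' + Pi.single 1 2, β' + Pi.single 1 1)) := by
          refine ih _ _ ?_ ?_ ?_ <;> simp [Pi.single_apply] <;> omega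
        have e4 : SPU_G ε p m (SPU_M k (α' + (Pi.single 0 1 + Pi.single 2 1), β' + Pi.single 1 1)) := by
          refine ih _ _ ?_ ?_ ?_ <;> simp [Pi.single_apply] <;> omega
        have e5 : SPU_G ε p m (SPU_M k (α' + Pi.single 2 2, β' + Pi.single 2 1)) := by
          refine ih _ _ ?_ ?_ ?_ <;> simp [Pi.single_apply] <;> omega
        have e6 : SPU_G ε p m (SPU_M k (α' + (Pi.single 0 1 + Pi.single 1 1), β' + Pi.single 2 1)) := by
          refine ih _ _ ?_ ?_ ?_ <;> simp [Pi.single_apply] <;> omega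
        refine SPU_cong (SPU_smul (3 : k)⁻¹ (SPU_add (SPU_add (SPU_add (SPU_add (SPU_add (SPU_smul (-9) e1)
          (SPU_smul ε e2)) (SPU_smul 9 e3)) (SPU_smul ε e4)) (SPU_smul 3 e5)) (SPU_smul ε e6))) ?_
        intro S _ _ x y hx hy
        have h := (hSU1 S (algebraMap k S ε) x y hx hy α' β').2.2.1
        have hi := SPU_inv h3' S
        simp only [map_neg, map_mul, map_one, map_ofNat] at hi ⊢
        linear_combination (algebraMap k S 3⁻¹) * h -
          (mon x y (α' + Pi.single 3 2, β' + Pi.single 3 1)) * hi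
      by_cases h4 : 2 ≤ α 4 ∧ 1 ≤ β 4
      · obtain ⟨h4a, h4b⟩ := h4
        obtain ⟨α', rfl⟩ := SPU_sub α 4 2 h4a
        obtain ⟨β', rfl⟩ := SPU_sub β 4 1 h4b
        simp [Pi.single_apply] at hα hβ hN
        have e1 : SPU_G ε p m (SPU_M k (α' + Pi.single 0 2, β' + Pi.single 0 1)) := by
          refine ih _ _ ?_ ?_ ?_ <;> simp [Pi.single_apply] <;> omega
        have e2 : SPU_G ε p m (SPU_M k (α' + Pi.single 1 2, β' + Pi.single 1 1)) := by
          refine ih _ _ ?_ ?_ ?_ <;> simp [Pi.single_apply] <;> omega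
        have e3 : SPU_G ε p m (SPU_M k (α' + Pi.single 2 2, β' + Pi.single 2 1)) := by
          refine ih _ _ ?_ ?_ ?_ <;> simp [Pi.single_apply] <;> omega
        refine SPU_cong (SPU_smul (3 : k)⁻¹ (SPU_add (SPU_add (SPU_smul (-9) e1)
          (SPU_smul 3 e2)) (SPU_smul 9 e3))) ?_
        intro S _ _ x y hx hy
        have h := (hSU1 S (algebraMap k S ε) x y hx hy α' β').2.2.2
        have hi := SPU_inv h3' S
        simp only [map_neg, map_mul, map_one, map_ofNat] at hi ⊢
        linear_combination (algebraMap k S 3⁻¹) * h -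
          (mon x y (α' + Pi.single 4 2, β' + Pi.single 4 1)) * hi
      have hmem : (α, β) ∈ II p m := by
        unfold II
        rw [Finset.mem_filter, Finset.mem_product, Finset.Nat.mem_antidiagonalTuple,
          Finset.Nat.mem_antidiagonalTuple, Fin.sum_univ_five, Fin.sum_univ_five]
        refine ⟨⟨hα, hβ⟩, ?_, ?_, ?_, ?_⟩ <;> dsimp only <;> omega
      classical
      refine ⟨fun ν => if ν = (α, β) then 1 else 0, ?_⟩
      intro S _ _ x y hx hy
      rw [Finset.sum_eq_single (α, β)]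
      · show mon x y (α, β) = algebraMap k S (if (α, β) = (α, β) then 1 else 0) * mon x y (α, β)
        rw [if_pos rfl, map_one, one_mul]
      · intro ν _ hν
        show algebraMap k S (if ν = (α, β) then 1 else 0) * mon x y ν = 0
        rw [if_neg hν, map_zero, zero_mul]
      · intro h
        exact absurd hmem h
  rintro ⟨α, β⟩ h1 h2
  rw [Fin.sum_univ_five] at h1 h2
  exact key _ α β (Nat.lt_succ_self _) h1 h2

end Pool.CXE
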