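import Pool.Agent.Work.MP_bf99ce_cxe.Interface2

/-!
# THEOREM CX, part E, second form: block SU1
-/

set_option autoImplicit false

open Pool.CX

namespace Pool.CXE

theorem SU1_mul {A : Type} [CommRing A] (x y : Fin 5 → A) (α γ β δ : Fin 5 → ℕ) :
    mon x y (α + γ, β + δ) = mon x y (α, β) * mon x y (γ, δ) := by
  simp only [mon, Pi.add_apply, pow_add, Finset.prod_mul_distrib]
  ring

theorem SU1_mul0 {A : Type} [CommRing A] (x y : Fin 5 → A) (α γ β : Fin 5 → ℕ) :
    mon x y (α + γ, β) = mon x y (α, β) * mon x y (γ, 0) := by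
  have := SU1_mul x y α γ β 0
  rw [add_zero] at this
  exact this

theorem SU1_x {A : Type} [CommRing A] (x y : Fin 5 → A) (i : Fin 5) (n : ℕ) :
    mon x y (Pi.single i n, 0) = x i ^ n := by
  simp only [mon, Pi.zero_apply, pow_zero, Finset.prod_const_one, mul_one]
  rw [Finset.prod_eq_single i]
  · rw [Pi.single_eq_same]
  · intro j _ hj
    rw [Pi.single_eq_of_ne hj, pow_zero]
  · intro h
    exact absurd (Finset.mem_univ i) h

theorem SU1_xy {A : Type} [CommRing A] (x y : Fin 5 → A) (γ : Fin 5 → ℕ) (j : Fin 5) :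
    mon x y (γ, Pi.single j 1) = mon x y (γ, 0) * y j := by
  have h1 := SU1_mul x y γ 0 0 (Pi.single j 1)
  rw [add_zero, zero_add] at h1
  rw [h1]
  congr 1
  simp only [mon, Pi.zero_apply, pow_zero, Finset.prod_const_one, one_mul]
  rw [Finset.prod_eq_single j]
  · rw [Pi.single_eq_same, pow_one]
  · intro i _ hi
    rw [Pi.single_eq_of_ne hi, pow_zero]
  · intro h
    exact absurd (Finset.mem_univ j) h

theorem p_SU1 : Stmt_SU1 := by
  intro S _ ε x y hX hT α β
  obtain ⟨H3, H4⟩ := hX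
  obtain ⟨Y3, Y4⟩ := hT
  simp only [av, bv] at H3 H4
  simp only [dav, dbv] at Y3 Y4
  have S1 : ∀ (i : Fin 5) (n : ℕ), mon x y (α + Pi.single i n, β) = mon x y (α, β) * x i ^ n := by
    intro i n
    rw [SU1_mul0, SU1_x]
  have S2 : ∀ (i j : Fin 5) (n : ℕ), mon x y (α + Pi.single i n, β + Pi.single j 1) =
      mon x y (α, β) * (x i ^ n * y j) := by
    intro i j n
    rw [SU1_mul, SU1_xy, SU1_x]
  have S3 : ∀ (i i' j : Fin 5), mon x y (α + (Pi.single i 1 + Pi.single i' 1), β + Pi.single j 1) =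
      mon x y (α, β) * (x i * x i' * y j) := by
    intro i i' j
    rw [SU1_mul, SU1_xy, SU1_mul0, SU1_x, SU1_x, pow_one, pow_one]
  have S4 : mon x y (α + (Pi.single 0 1 + Pi.single 1 1 + Pi.single 2 1), β) =
      mon x y (α, β) * (x 0 * x 1 * x 2) := by
    rw [SU1_mul0, SU1_mul0, SU1_mul0, SU1_x, SU1_x, SU1_x, pow_one, pow_one, pow_one]
  rw [S4, S1, S1, S1, S1, S1, S2, S2, S2, S2, S2, S3, S3, S3]
  refine ⟨?_, ?_, ?_, ?_⟩
  · linear_combination (-3 * mon x y (α, β)) * H3 + mon x y (α, β) * H4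
  · linear_combination mon x y (α, β) * H3 - 3 * mon x y (α, β) * H4
  · linear_combination mon x y (α, β) * Y3
  · linear_combination mon x y (α, β) * Y4

end Pool.CXE
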