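import Pool.Agent.Work.MP_bf99ce_cxe.Interface2

set_option autoImplicit false

namespace Pool.CXE

open Pool.CX

theorem UEX_x_mul {S : Type} [CommRing S] (x y : Fin 5 → S) (α β : Fin 5 → ℕ) (i : Fin 5) :
    x i * mon x y (α, β) = mon x y (α + Pi.single i 1, β) := by
  unfold mon
  have h : ∏ j, x j ^ (α + Pi.single i 1 : Fin 5 → ℕ) j = (∏ j, x j ^ α j) * x i := by
    have h1 : ∀ j, x j ^ (α + Pi.single i 1 : Fin 5 → ℕ) j =
        x j ^ α j * (if j = i then x i else 1) := by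
      intro j
      rw [Pi.add_apply, pow_add]
      by_cases hj : j = i
      · subst hj
        simp
      · rw [if_neg hj, Pi.single_eq_of_ne hj, pow_zero]
    rw [Finset.prod_congr rfl fun j _ => h1 j, Finset.prod_mul_distrib,
      Finset.prod_ite_eq' Finset.univ i (fun _ => x i), if_pos (Finset.mem_univ _)]
  rw [h]
  ring

theorem UEX_core {k : Type} [Field k] [CharZero k] (ε : k) (m : ℕ)
    (I J : Finset ((Fin 5 → ℕ) × (Fin 5 → ℕ)))
    (hI : ∀ μ ∈ I, ∑ j, μ.1 j = 7 ∧ ∑ j, μ.2 j = m + 1) (hcard : J.card < I.card)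
    (hred : ∀ μ : (Fin 5 → ℕ) × (Fin 5 → ℕ), ∑ i, μ.1 i = 8 → ∑ i, μ.2 i = m →
      ∃ r : (Fin 5 → ℕ) × (Fin 5 → ℕ) → k, ∀ (S : Type) [CommRing S] [Algebra k S]
        (x y : Fin 5 → S), OnX (algebraMap k S ε) x → TanX (algebraMap k S ε) x y →
        mon x y μ = ∑ ν ∈ J, algebraMap k S (r ν) * mon x y ν) :
    ∃ c : (Fin 5 → ℕ) × (Fin 5 → ℕ) → k, (∃ μ ∈ I, c μ ≠ 0) ∧
      ∀ (S : Type) [CommRing S] [Algebra k S] (x y : Fin 5 → S),
        OnX (algebraMap k S ε) x → TanX (algebraMap k S ε) x y → dval S I c x y = 0 := by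

  classical
  have hex : ∀ (μ : (Fin 5 → ℕ) × (Fin 5 → ℕ)) (i : Fin 5),
      ∃ r : (Fin 5 → ℕ) × (Fin 5 → ℕ) → k, μ ∈ I → μ.2 i ≠ 0 →
        ∀ (S : Type) [CommRing S] [Algebra k S] (x y : Fin 5 → S),
          OnX (algebraMap k S ε) x → TanX (algebraMap k S ε) x y →
          mon x y (μ.1 + Pi.single i 1, μ.2 - Pi.single i 1) =
            ∑ ν ∈ J, algebraMap k S (r ν) * mon x y ν := by
    intro μ i
    by_cases h : μ ∈ I ∧ μ.2 i ≠ 0
    · have h1 := hI μ h.1
      have h3 : ∑ j, (μ.1 + Pi.single i 1 : Fin 5 → ℕ) j = 8 := by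
        simp only [Pi.add_apply]
        rw [Finset.sum_add_distrib, h1.1, Finset.sum_pi_single' i 1 Finset.univ,
          if_pos (Finset.mem_univ _)]
      have h4 : ∑ j, (μ.2 - Pi.single i 1 : Fin 5 → ℕ) j = m := by
        have h5 : μ.2 = (μ.2 - Pi.single i 1 : Fin 5 → ℕ) + Pi.single i 1 := by
          funext j
          rw [Pi.add_apply, Pi.sub_apply]
          by_cases hj : j = i
          · subst hj
            rw [Pi.single_eq_same]
            have := h.2
            omega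
          · rw [Pi.single_eq_of_ne hj]
            rfl
        have h6 := h1.2
        rw [h5] at h6
        simp only [Pi.add_apply] at h6
        rw [Finset.sum_add_distrib, Finset.sum_pi_single' i 1 Finset.univ,
          if_pos (Finset.mem_univ _)] at h6
        omega
      obtain ⟨r, hr⟩ := hred (μ.1 + Pi.single i 1, μ.2 - Pi.single i 1) h3 h4
      exact ⟨r, fun _ _ => hr⟩
    · refine ⟨0, fun h1 h2 => absurd ⟨h1, h2⟩ h⟩
  choose R hR using hex
  let M : Matrix (J) (I) k := fun ν μ => ∑ i, (μ.1.2 i : k) * R μ.1 i ν.1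
  have hker : LinearMap.ker M.mulVecLin ≠ ⊥ := by
    apply LinearMap.ker_ne_bot_of_finrank_lt
    rw [Module.finrank_fintype_fun_eq_card, Module.finrank_fintype_fun_eq_card,
      Fintype.card_coe, Fintype.card_coe]
    exact hcard
  obtain ⟨c0, hc0, hne⟩ := (Submodule.ne_bot_iff _).1 hker
  let c : (Fin 5 → ℕ) × (Fin 5 → ℕ) → k := fun μ =>
    if h : μ ∈ I then c0 ⟨μ, h⟩ else 0
  have hcc : ∀ μ : I, c μ.1 = c0 μ := by
    intro μ
    simp only [c]
    rw [dif_pos μ.2]
  have hzero : ∀ ν ∈ J, ∑ μ ∈ I, c μ * ∑ i, (μ.2 i : k) * R μ i ν = 0 := by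
    intro ν hν
    have h1 := congrFun (LinearMap.mem_ker.1 hc0) ⟨ν, hν⟩
    rw [Matrix.mulVecLin_apply, Matrix.mulVec, dotProduct] at h1
    rw [← Finset.sum_coe_sort (I) (fun μ => c μ * ∑ i, (μ.2 i : k) * R μ i ν)]
    refine Eq.trans (Finset.sum_congr rfl fun μ _ => ?_) h1
    rw [hcc, mul_comm]
  refine ⟨c, ?_, ?_⟩
  · by_contra hcon
    push Not at hcon
    apply hne
    funext μ
    rw [← hcc, hcon μ.1 μ.2]
    rfl
  · intro S _ _ x y hX hT
    have h1 : dval S (I) c x y =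
        ∑ μ ∈ I, ∑ ν ∈ J,
          algebraMap k S (c μ * ∑ i, (μ.2 i : k) * R μ i ν) * mon x y ν := by
      unfold dval
      refine Finset.sum_congr rfl fun μ hμ => ?_
      have h2 : ∀ i : Fin 5, (μ.2 i : S) * (x i * mon x y (μ.1, μ.2 - Pi.single i 1)) =
          ∑ ν ∈ J, algebraMap k S ((μ.2 i : k) * R μ i ν) * mon x y ν := by
        intro i
        by_cases hi : μ.2 i = 0
        · rw [hi]
          simp
        · rw [UEX_x_mul, hR μ i hμ hi S x y hX hT, Finset.mul_sum]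
          refine Finset.sum_congr rfl fun ν _ => ?_
          rw [map_mul, map_natCast]
          ring
      rw [Finset.sum_congr rfl fun i _ => h2 i, Finset.sum_comm, Finset.mul_sum]
      refine Finset.sum_congr rfl fun ν _ => ?_
      rw [map_mul, map_sum, ← Finset.sum_mul]
      ring
    rw [h1, Finset.sum_comm]
    refine Finset.sum_eq_zero fun ν hν => ?_
    rw [← Finset.sum_mul, ← map_sum, hzero ν hν, map_zero, zero_mul]

theorem p_UEX (hSPU : Stmt_SPU) (hCNT : Stmt_CNT) : Stmt_UEX := by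
  intro k _ _ ε m
  refine UEX_core ε m _ _ ?_ (hCNT m) (fun μ h1 h2 => hSPU k ε 8 m μ h1 h2)
  intro μ
  unfold II
  rw [Finset.mem_filter, Finset.mem_product, Finset.Nat.mem_antidiagonalTuple,
    Finset.Nat.mem_antidiagonalTuple]
  exact fun h => h.1

end Pool.CXE
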