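import Pool.Agent.Work.MP_bf99ce_cxe.Interface2

set_option autoImplicit false

noncomputable section

namespace Pool.CXE

open Pool.CX

theorem UFN_zero (k : Type) [Field k] [CharZero k] (ε : k) : ∃ f : P10 k, Bihom 7 0 f ∧
    (∀ (S : Type) [CommRing S] [IsDomain S] [Algebra k S] (x y : Fin 5 → S), x 3 ≠ 0 → x 4 ≠ 0 →
      OnX (algebraMap k S ε) x → TanX (algebraMap k S ε) x y →
      ∑ i, x i * MvPolynomial.aeval (Sum.elim x y) (MvPolynomial.pderiv (Sum.inr i) f) = 0) ∧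
    (∀ (S : Type) [Field S] [Algebra k S] (x : Fin 5 → S), x 0 = 1 → AlgebraicIndependent k ![x 1, x 2] →
      OnX (algebraMap k S ε) x → ∃ y : Fin 5 → S, TanX (algebraMap k S ε) x y ∧ MvPolynomial.aeval (Sum.elim x y) f ≠ 0) := by
  refine ⟨MvPolynomial.X (Sum.inl 0) ^ 7, ?_, ?_, ?_⟩
  · intro s hs
    rw [MvPolynomial.X_pow_eq_monomial] at hs
    have h1 := MvPolynomial.support_monomial_subset hs
    rw [Finset.mem_singleton] at h1
    subst h1
    constructor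
    · rw [Finset.sum_eq_single (0 : Fin 5)]
      · simp
      · intro j _ hj
        rw [Finsupp.single_apply, if_neg]
        intro h
        exact hj (Sum.inl_injective h).symm
      · simp
    · refine Finset.sum_eq_zero fun j _ => ?_
      rw [Finsupp.single_apply, if_neg]
      intro h
      cases h
  · intro S _ _ _ x y _ _ _ _
    refine Finset.sum_eq_zero fun i _ => ?_
    rw [Derivation.leibniz_pow, MvPolynomial.pderiv_X_of_ne (by intro h; cases h)]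
    simp
  · intro S _ _ x hx0 _ _
    refine ⟨fun _ => 0, ?_, ?_⟩
    · constructor
      · simp [dav]
      · simp [dbv]
    · rw [map_pow, MvPolynomial.aeval_X]
      show x 0 ^ 7 ≠ 0
      rw [hx0]
      simp

theorem UFN_II (p m : ℕ) : ∀ μ ∈ II p m, ∑ i, μ.1 i = p ∧ ∑ i, μ.2 i = m := by
  intro μ hμ
  rw [II, Finset.mem_filter, Finset.mem_product, Finset.Nat.mem_antidiagonalTuple,
    Finset.Nat.mem_antidiagonalTuple] at hμ
  exact hμ.1

theorem UFN_succ (h1 : Stmt_UEX) (h2 : Stmt_UNZ) (h3 : Stmt_UPL) (k : Type) [Field k] [CharZero k] (ε : k)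
    (hε : 315 * ε ^ 3 + 46656 ≠ 0) (n : ℕ) : ∃ f : P10 k, Bihom 7 (n + 1) f ∧
    (∀ (S : Type) [CommRing S] [IsDomain S] [Algebra k S] (x y : Fin 5 → S), x 3 ≠ 0 → x 4 ≠ 0 →
      OnX (algebraMap k S ε) x → TanX (algebraMap k S ε) x y →
      ∑ i, x i * MvPolynomial.aeval (Sum.elim x y) (MvPolynomial.pderiv (Sum.inr i) f) = 0) ∧
    (∀ (S : Type) [Field S] [Algebra k S] (x : Fin 5 → S), x 0 = 1 → AlgebraicIndependent k ![x 1, x 2] →
      OnX (algebraMap k S ε) x → ∃ y : Fin 5 → S, TanX (algebraMap k S ε) x y ∧ MvPolynomial.aeval (Sum.elim x y) f ≠ 0) := by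
  obtain ⟨c, hc0, hc⟩ := h1 k ε n
  obtain ⟨g1, g2⟩ := h3 k (II 7 (n + 1)) c
  refine ⟨pol10 (II 7 (n + 1)) c, g1 7 (n + 1) (UFN_II 7 (n + 1)), ?_, ?_⟩
  · intro S _ _ _ x y _ _ hX hT
    rw [(g2 S x y).2]
    exact hc S x y hX hT
  · intro S _ _ x hx0 hi hX
    obtain ⟨y, hy, hne⟩ := h2 k ε hε 7 (n + 1) c hc0 S x hx0 hi hX
    refine ⟨y, hy, ?_⟩
    rw [(g2 S x y).1]
    exact hne

theorem p_UFN (h1 : Stmt_UEX) (h2 : Stmt_UNZ) (h3 : Stmt_UPL) : Stmt_UFN := by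
  intro k _ _ ε hε m
  rcases Nat.eq_zero_or_pos m with hm | hm
  · rw [hm]
    exact UFN_zero k ε
  · obtain ⟨n, hn⟩ := Nat.exists_eq_succ_of_ne_zero hm.ne'
    rw [hn]
    exact UFN_succ h1 h2 h3 k ε hε n

end Pool.CXE
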