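import Pool.Agent.Work.MP_bf99ce_cxe.Interface2

set_option autoImplicit false

open Polynomial

namespace Pool.CXE

open Pool.CX

theorem UNZ_a {k L : Type} [Field k] [Field L] [Algebra k L] (e : k) (z1 z2 : L) :
    ev2 k z1 z2 (Pa e) = fa (algebraMap k L e) 1 z1 z2 := by
  have h1 : ev2 k z1 z2 (C (C e)) = algebraMap k L e := by simp [ev2]
  have h2 : ev2 k z1 z2 (C X) = z1 := by simp [ev2]
  have h3 : ev2 k z1 z2 X = z2 := by simp [ev2]
  simp only [Pa, fa, map_add, map_mul, map_pow, map_neg, map_ofNat, map_one, h1, h2, h3]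

theorem UNZ_b {k L : Type} [Field k] [Field L] [Algebra k L] (z1 z2 : L) :
    ev2 k z1 z2 (Pb k) = fb 1 z1 z2 := by
  have h2 : ev2 k z1 z2 (C X) = z1 := by simp [ev2]
  have h3 : ev2 k z1 z2 X = z2 := by simp [ev2]
  simp only [Pb, fb, map_add, map_mul, map_pow, map_neg, map_ofNat, map_one, h2, h3]

theorem UNZ_Pa {k : Type} [Field k] (e : k) : Pa e ≠ 0 := by
  intro h
  have h1 := congrArg (fun p : k[X][X] => p.coeff 3) h
  have h2 : (Pa e).coeff 3 = 1 := by
    have h3 : Pa e = C (-3 + 3 * X ^ 3) + C (C e * X) * X + X ^ 3 := by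
      simp only [Pa, fa, map_add, map_mul, map_neg, map_pow, map_ofNat]
      ring
    rw [h3, coeff_add, coeff_add, coeff_C, coeff_C_mul, coeff_X, coeff_X_pow]
    simp
  simp only [h2, coeff_zero] at h1
  exact one_ne_zero h1

theorem UNZ_Pb {k : Type} [Field k] [CharZero k] : Pb k ≠ 0 := by
  intro h
  have h1 := congrArg (fun p : k[X][X] => p.coeff 3) h
  have h2 : (Pb k).coeff 3 = 3 := by
    have h3 : Pb k = C (-3 + X ^ 3) + C 3 * X ^ 3 := by
      simp only [Pb, fb, map_add, map_neg, map_pow, map_ofNat]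
      ring
    rw [h3, coeff_add, coeff_C, coeff_C_mul, coeff_X_pow]
    simp
  simp only [h2, coeff_zero] at h1
  have h3 : (C (3 : k) : k[X]) = 3 := map_ofNat C 3
  rw [← h3, C_eq_zero] at h1
  exact three_ne_zero h1

theorem p_UNZ (hIND : Stmt_IND) (hCNV : Stmt_CNV) : Stmt_UNZ := by
  intro k _ _ ε hε p m c hc S _ _ x hx0 hind hX
  have hD : Dat k ε x := by
    refine ⟨hx0, hCNV k S (x 1) (x 2) hind, ?_, ?_, hε⟩
    · rw [hX.1]
      unfold av fa
      ring
    · rw [hX.2]
      unfold bv fb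
      ring
  have hcz : CharZero S := charZero_of_injective_algebraMap (algebraMap k S).injective
  have hinf : Infinite S := Infinite.of_injective (Nat.cast : ℕ → S) Nat.cast_injective
  have hx3 : x 3 ≠ 0 := by
    intro h
    have h1 := hD.h3
    rw [h, hx0, ← UNZ_a] at h1
    have h2 : ev2 k (x 1) (x 2) (Pa ε) = 0 := by
      rw [← h1]
      exact zero_pow three_ne_zero
    exact UNZ_Pa ε (hD.ind _ h2)
  have hx4 : x 4 ≠ 0 := by
    intro h
    have h1 := hD.h4
    rw [h, hx0, ← UNZ_b (k := k)] at h1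
    have h2 : ev2 k (x 1) (x 2) (Pb k) = 0 := by
      rw [← h1]
      exact zero_pow three_ne_zero
    exact UNZ_Pb (hD.ind _ h2)
  have hf : ∑ μ ∈ II p m, c μ • evm ε x μ ≠ 0 := by
    intro h
    obtain ⟨μ, hμ, hne⟩ := hc
    exact hne (hIND k S ε x hD p m c h μ hμ)
  obtain ⟨v, hv⟩ : ∃ v : Fin 3 → S, MvPolynomial.eval v (∑ μ ∈ II p m, c μ • evm ε x μ) ≠ 0 := by
    by_contra hcon
    push Not at hcon
    apply hf
    apply MvPolynomial.funext
    intro w
    rw [hcon w, map_zero]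
  refine ⟨fun i => MvPolynomial.eval v (ys ε x i), ⟨?_, ?_⟩, ?_⟩
  · have h0 : MvPolynomial.eval v (ys ε x 0) = v 0 := by simp [ys]
    have h1 : MvPolynomial.eval v (ys ε x 1) = v 1 := by simp [ys]
    have h2 : MvPolynomial.eval v (ys ε x 2) = v 2 := by simp [ys]
    have h3 : MvPolynomial.eval v (ys ε x 3) = (3 * x 3 ^ 2)⁻¹ *
        xa (algebraMap k S ε) (x 0) (x 1) (x 2) (v 0) (v 1) (v 2) := by
      simp [ys, xa]
    have h4 : (3 * x 3 ^ 2) ≠ 0 := mul_ne_zero three_ne_zero (pow_ne_zero _ hx3)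
    simp only [h0, h1, h2, h3, dav]
    rw [mul_inv_cancel_left₀ h4]
    unfold xa
    ring
  · have h0 : MvPolynomial.eval v (ys ε x 0) = v 0 := by simp [ys]
    have h1 : MvPolynomial.eval v (ys ε x 1) = v 1 := by simp [ys]
    have h2 : MvPolynomial.eval v (ys ε x 2) = v 2 := by simp [ys]
    have h3 : MvPolynomial.eval v (ys ε x 4) = (3 * x 4 ^ 2)⁻¹ *
        xb (x 0) (x 1) (x 2) (v 0) (v 1) (v 2) := by
      simp [ys, xb]
    have h4 : (3 * x 4 ^ 2) ≠ 0 := mul_ne_zero three_ne_zero (pow_ne_zero _ hx4)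
    simp only [h0, h1, h2, h3, dbv]
    rw [mul_inv_cancel_left₀ h4]
    unfold xb
    ring
  · have h1 : MvPolynomial.eval v (∑ μ ∈ II p m, c μ • evm ε x μ) =
        ∑ μ ∈ II p m, algebraMap k S (c μ) * mon x (fun i => MvPolynomial.eval v (ys ε x i)) μ := by
      rw [map_sum]
      refine Finset.sum_congr rfl fun μ _ => ?_
      rw [Algebra.smul_def, map_mul, MvPolynomial.algebraMap_apply, MvPolynomial.eval_C]
      congr 1
      unfold evm mon
      simp only [map_mul, map_prod, map_pow, MvPolynomial.eval_C]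
    rw [← h1]
    exact hv

end Pool.CXE
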