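import Pool.Agent.Work.MP_bf99ce_cxe.Interface2

set_option autoImplicit false

namespace Pool.CXE

open Pool.CX

/-- The exponent. -/
noncomputable def UPL_e (μ : (Fin 5 → ℕ) × (Fin 5 → ℕ)) : (Fin 5 ⊕ Fin 5) →₀ ℕ :=
  Finsupp.equivFunOnFinite.symm (Sum.elim μ.1 μ.2)

theorem UPL_e_inl (μ : (Fin 5 → ℕ) × (Fin 5 → ℕ)) (i : Fin 5) : UPL_e μ (Sum.inl i) = μ.1 i := rfl

theorem UPL_e_inr (μ : (Fin 5 → ℕ) × (Fin 5 → ℕ)) (i : Fin 5) : UPL_e μ (Sum.inr i) = μ.2 i := rfl

theorem UPL_mon {k : Type} [Field k] (μ : (Fin 5 → ℕ) × (Fin 5 → ℕ)) :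
    mon (fun i => (MvPolynomial.X (Sum.inl i) : P10 k)) (fun i => MvPolynomial.X (Sum.inr i)) μ =
      MvPolynomial.monomial (UPL_e μ) 1 := by
  rw [MvPolynomial.monomial_eq, map_one, one_mul, Finsupp.prod_fintype _ _ (fun i => pow_zero _),
    Fintype.prod_sum_type]
  rfl

theorem UPL_aeval_mon {k S : Type} [Field k] [CommRing S] [Algebra k S] (x y : Fin 5 → S)
    (μ : (Fin 5 → ℕ) × (Fin 5 → ℕ)) :
    MvPolynomial.aeval (Sum.elim x y)
      (mon (fun i => (MvPolynomial.X (Sum.inl i) : P10 k)) (fun i => MvPolynomial.X (Sum.inr i)) μ) =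
      mon x y μ := by
  unfold mon
  simp only [map_mul, map_prod, map_pow, MvPolynomial.aeval_X, Sum.elim_inl, Sum.elim_inr]

theorem UPL_sub (μ : (Fin 5 → ℕ) × (Fin 5 → ℕ)) (i : Fin 5) :
    UPL_e μ - Finsupp.single (Sum.inr i) 1 = UPL_e (μ.1, μ.2 - Pi.single i 1) := by
  ext j
  rcases j with j | j
  · rw [Finsupp.tsub_apply, UPL_e_inl, UPL_e_inl, Finsupp.single_apply, if_neg (by simp)]
    rfl
  · rw [Finsupp.tsub_apply, UPL_e_inr, UPL_e_inr, Finsupp.single_apply]
    by_cases h : i = j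
    · subst h
      simp
    · rw [if_neg (by simpa using h)]
      simp [Pi.single_apply, Ne.symm h]

theorem UPL_pd {k : Type} [Field k] (a : k) (μ : (Fin 5 → ℕ) × (Fin 5 → ℕ)) (i : Fin 5) :
    MvPolynomial.pderiv (Sum.inr i) (MvPolynomial.C a *
      mon (fun i => (MvPolynomial.X (Sum.inl i) : P10 k)) (fun i => MvPolynomial.X (Sum.inr i)) μ) =
      MvPolynomial.C (a * (μ.2 i : k)) *
        mon (fun i => (MvPolynomial.X (Sum.inl i) : P10 k)) (fun i => MvPolynomial.X (Sum.inr i))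
          (μ.1, μ.2 - Pi.single i 1) := by
  rw [UPL_mon, UPL_mon, MvPolynomial.C_mul_monomial, MvPolynomial.pderiv_monomial, UPL_sub,
    UPL_e_inr, MvPolynomial.C_mul_monomial, mul_one, mul_one]

theorem p_UPL : Stmt_UPL := by
  intro k _ I c
  refine ⟨?_, ?_⟩
  · intro p m h s hs
    rw [MvPolynomial.mem_support_iff, pol10, MvPolynomial.coeff_sum] at hs
    obtain ⟨μ, hμ, hne⟩ := Finset.exists_ne_zero_of_sum_ne_zero hs
    rw [UPL_mon, MvPolynomial.coeff_C_mul, MvPolynomial.coeff_monomial] at hne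
    have hse : UPL_e μ = s := by
      by_contra hcon
      rw [if_neg hcon, mul_zero] at hne
      exact hne rfl
    subst hse
    exact h μ hμ
  · intro S _ _ x y
    refine ⟨?_, ?_⟩
    · unfold pol10
      rw [map_sum]
      refine Finset.sum_congr rfl fun μ _ => ?_
      rw [map_mul, UPL_aeval_mon, MvPolynomial.aeval_C]
    · unfold pol10 dval
      have h1 : ∀ i : Fin 5, x i * MvPolynomial.aeval (Sum.elim x y)
          (MvPolynomial.pderiv (Sum.inr i) (∑ μ ∈ I, MvPolynomial.C (c μ) *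
            mon (fun i => (MvPolynomial.X (Sum.inl i) : P10 k))
              (fun i => MvPolynomial.X (Sum.inr i)) μ)) =
          ∑ μ ∈ I, algebraMap k S (c μ) * ((μ.2 i : S) *
            (x i * mon x y (μ.1, μ.2 - Pi.single i 1))) := by
        intro i
        rw [map_sum, map_sum, Finset.mul_sum]
        refine Finset.sum_congr rfl fun μ _ => ?_
        rw [UPL_pd, map_mul, UPL_aeval_mon, MvPolynomial.aeval_C, map_mul, map_natCast]
        ring
      rw [Finset.sum_congr rfl fun i _ => h1 i, Finset.sum_comm]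
      refine Finset.sum_congr rfl fun μ _ => ?_
      rw [Finset.mul_sum]

end Pool.CXE
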