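import Pool.Agent.Work.MP_bf99ce_cxe.All
import Pool.Agent.Work.MP_bf99ce_cxe.B_SU1
import Pool.Agent.Work.MP_bf99ce_cxe.B_SPU
import Pool.Agent.Work.MP_bf99ce_cxe.B_UEX
import Pool.Agent.Work.MP_bf99ce_cxe.B_UNZ
import Pool.Agent.Work.MP_bf99ce_cxe.B_UPL
import Pool.Agent.Work.MP_bf99ce_cxe.B_UFN
import Pool.Agent.Work.MP_bf99ce_cx.DefsT

/-!
# THEOREM CX (MP_bf99ce_ag), PART E, universal form: assembly
-/

set_option autoImplicit false

namespace Pool.CXE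

theorem q_SPU : Stmt_SPU := p_SPU p_SU1

theorem q_UEX : Stmt_UEX := p_UEX q_SPU q_CNT

theorem q_UNZ : Stmt_UNZ := p_UNZ q_IND p_CNV

/-- **PART E**, universal form. -/
theorem q_EU : Stmt_EU := p_UFN q_UEX q_UNZ p_UPL

theorem eps_ne {k : Type} [Field k] [CharZero k] (ε : k) (h : Transcendental ℚ ε) : 315 * ε ^ 3 + 46656 ≠ 0 := by
  intro h0
  refine h ⟨Polynomial.C 315 * Polynomial.X ^ 3 + Polynomial.C 46656, ?_, ?_⟩
  · intro h1
    have h2 := congrArg (fun p => Polynomial.eval 0 p) h1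
    norm_num at h2
  · rw [map_add, map_mul, map_pow, Polynomial.aeval_X, Polynomial.aeval_C, Polynomial.aeval_C, map_ofNat, map_ofNat]
    exact h0

/-- **PART E** for a transcendental `ε`, with the names of `MP_bf99ce_cx/DefsT.lean`. -/
theorem part_E (k : Type) [Field k] [CharZero k] (ε : k) (h : Transcendental ℚ ε) (m : ℕ) :
    ∃ f : Pool.CX.P10 k, Pool.CX.Bihom 7 m f ∧ Pool.CX.Kil ε f ∧ Pool.CX.Nzr ε f :=
  q_EU k ε (eps_ne ε h) m

end Pool.CXE
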