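import Pool.Agent.Work.MP_bf99ce_cxe.Interface

/-! Block CN1 (helper90). -/

set_option autoImplicit false

open Polynomial

namespace Pool.CXE

theorem CN1_len (d m : ℕ) : (Finset.Nat.antidiagonalTuple d m).card =
    (List.Nat.antidiagonalTuple d m).length := rfl

theorem CN1_succ (d m : ℕ) : (List.Nat.antidiagonalTuple (d + 1) m).length =
    ((List.Nat.antidiagonal m).map fun ni => (List.Nat.antidiagonalTuple d ni.2).length).sum := by
  rw [List.Nat.antidiagonalTuple, List.length_flatMap]
  simp only [List.length_map]

theorem p_CN1 : Stmt_CN1 := by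
  intro d m
  rw [CN1_len, CN1_len, CN1_len, CN1_succ d (m + 1), CN1_succ d m, List.Nat.antidiagonal_succ,
    List.map_cons, List.sum_cons, List.map_map, add_comm]
  rfl

end Pool.CXE
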