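import Pool.Agent.Work.MP_bf99ce_cxe.Interface

/-! Block CN2 (helper74): deleting zero coordinates. -/

set_option autoImplicit false

open Polynomial

namespace Pool.CXE

theorem p_CN2 : Stmt_CN2 := by
  intro m
  refine ⟨?_, ?_, ?_⟩
  · refine Finset.card_nbij' (fun β => ![β 0, β 1, β 2, β 4]) (fun γ => ![γ 0, γ 1, γ 2, 0, γ 3])
      ?_ ?_ ?_ ?_
    · intro β hβ
      simp only [Finset.coe_filter, Finset.Nat.mem_antidiagonalTuple, Set.mem_ofPred_eq,
        Fin.sum_univ_five] at hβ
      simp only [Finset.mem_coe, Finset.Nat.mem_antidiagonalTuple, Fin.sum_univ_four]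
      simp only [Matrix.cons_val]
      omega
    · intro γ hγ
      simp only [Finset.mem_coe, Finset.Nat.mem_antidiagonalTuple, Fin.sum_univ_four] at hγ
      simp only [Finset.coe_filter, Finset.Nat.mem_antidiagonalTuple, Set.mem_ofPred_eq,
        Fin.sum_univ_five]
      refine ⟨?_, rfl⟩
      change γ 0 + γ 1 + γ 2 + 0 + γ 3 = m
      omega
    · intro β hβ
      simp only [Finset.coe_filter, Set.mem_ofPred_eq] at hβ
      funext i
      fin_cases i <;> simp [hβ.2]
    · intro γ _
      funext i
      fin_cases i <;> simp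
  · refine Finset.card_nbij' (fun β => ![β 0, β 1, β 2, β 3]) (fun γ => ![γ 0, γ 1, γ 2, γ 3, 0])
      ?_ ?_ ?_ ?_
    · intro β hβ
      simp only [Finset.coe_filter, Finset.Nat.mem_antidiagonalTuple, Set.mem_ofPred_eq,
        Fin.sum_univ_five] at hβ
      simp only [Finset.mem_coe, Finset.Nat.mem_antidiagonalTuple, Fin.sum_univ_four]
      simp only [Matrix.cons_val]
      omega
    · intro γ hγ
      simp only [Finset.mem_coe, Finset.Nat.mem_antidiagonalTuple, Fin.sum_univ_four] at hγ
      simp only [Finset.coe_filter, Finset.Nat.mem_antidiagonalTuple, Set.mem_ofPred_eq,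
        Fin.sum_univ_five]
      refine ⟨?_, rfl⟩
      change γ 0 + γ 1 + γ 2 + γ 3 + 0 = m
      omega
    · intro β hβ
      simp only [Finset.coe_filter, Set.mem_ofPred_eq] at hβ
      funext i
      fin_cases i <;> simp [hβ.2]
    · intro γ _
      funext i
      fin_cases i <;> simp
  · refine Finset.card_nbij' (fun β => ![β 0, β 1, β 2]) (fun γ => ![γ 0, γ 1, γ 2, 0, 0])
      ?_ ?_ ?_ ?_
    · intro β hβ
      simp only [Finset.coe_filter, Finset.Nat.mem_antidiagonalTuple, Set.mem_ofPred_eq,
        Fin.sum_univ_five] at hβ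
      simp only [Finset.mem_coe, Finset.Nat.mem_antidiagonalTuple, Fin.sum_univ_three]
      simp only [Matrix.cons_val]
      omega
    · intro γ hγ
      simp only [Finset.mem_coe, Finset.Nat.mem_antidiagonalTuple, Fin.sum_univ_three] at hγ
      simp only [Finset.coe_filter, Finset.Nat.mem_antidiagonalTuple, Set.mem_ofPred_eq,
        Fin.sum_univ_five]
      refine ⟨?_, rfl, rfl⟩
      change γ 0 + γ 1 + γ 2 + 0 + 0 = m
      omega
    · intro β hβ
      simp only [Finset.coe_filter, Set.mem_ofPred_eq] at hβ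
      funext i
      fin_cases i <;> simp [hβ.2.1, hβ.2.2]
    · intro γ _
      funext i
      fin_cases i <;> simp

end Pool.CXE
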