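import Pool.Agent.Work.MP_bf99ce_cxe.Interface

set_option autoImplicit false

open Polynomial

namespace Pool.CXE

theorem p_CN3 : Stmt_CN3 := by
  unfold Stmt_CN3 NA
  decide +kernel

end Pool.CXE
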