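import Pool.Agent.Work.MP_bf99ce_cxe.Interface

/-! Block CN4 (helper74): the number of the normal monomials. -/

set_option autoImplicit false

open Polynomial

namespace Pool.CXE

theorem CN4_row (n5 n4 n4' n3 : ℕ) (B : Finset (Fin 5 → ℕ)) (P : Prop) [Decidable P] (a b : ℕ)
    (h5 : B.card = n5) (h4 : (B.filter fun β => β 3 = 0).card = n4')
    (h4' : (B.filter fun β => β 4 = 0).card = n4)
    (h3 : (B.filter fun β => β 3 = 0 ∧ β 4 = 0).card = n3) :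
    (B.filter fun β => P ∧ (a ≤ 1 ∨ β 3 = 0) ∧ (b ≤ 1 ∨ β 4 = 0)).card =
      (if P ∧ decide (a ≤ 1) = true ∧ decide (b ≤ 1) = true then 1 else 0) * n5 +
      (if P ∧ decide (a ≤ 1) = true ∧ decide (b ≤ 1) = false then 1 else 0) * n4 +
      (if P ∧ decide (a ≤ 1) = false ∧ decide (b ≤ 1) = true then 1 else 0) * n4' +
      (if P ∧ decide (a ≤ 1) = false ∧ decide (b ≤ 1) = false then 1 else 0) * n3 := by
  by_cases hP : P
  · by_cases ha : a ≤ 1
    · by_cases hb : b ≤ 1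
      · simp [hP, ha, hb, h5]
      · simp [hP, ha, hb, h4']
    · by_cases hb : b ≤ 1
      · simp [hP, ha, hb, h4]
      · simp [hP, ha, hb, h3]
  · simp [hP]

theorem p_CN4 (h2 : Stmt_CN2) : Stmt_CN4 := by
  intro p m
  obtain ⟨e1, e2, e3⟩ := h2 m
  have h : (II p m).card = ∑ α ∈ Finset.Nat.antidiagonalTuple 5 p,
      ((Finset.Nat.antidiagonalTuple 5 m).filter fun β =>
        (α 1 ≤ 2 ∧ α 2 ≤ 2) ∧ (α 3 ≤ 1 ∨ β 3 = 0) ∧ (α 4 ≤ 1 ∨ β 4 = 0)).card := by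
    unfold II
    rw [Finset.card_filter, Finset.sum_product]
    apply Finset.sum_congr rfl
    intro α _
    rw [Finset.card_filter]
    apply Finset.sum_congr rfl
    intro β _
    simp only [and_assoc]
  rw [h]
  have h' : ∀ α ∈ Finset.Nat.antidiagonalTuple 5 p,
      ((Finset.Nat.antidiagonalTuple 5 m).filter fun β =>
        (α 1 ≤ 2 ∧ α 2 ≤ 2) ∧ (α 3 ≤ 1 ∨ β 3 = 0) ∧ (α 4 ≤ 1 ∨ β 4 = 0)).card = _ :=
    fun α _ => CN4_row _ _ _ _ (Finset.Nat.antidiagonalTuple 5 m) (α 1 ≤ 2 ∧ α 2 ≤ 2) (α 3) (α 4)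
      rfl e1 e2 e3
  rw [Finset.sum_congr rfl h']
  simp only [Finset.sum_add_distrib, ← Finset.sum_mul, ← Finset.card_filter, and_assoc]
  unfold NA
  ring

end Pool.CXE
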