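import Pool.Agent.Work.MP_bf99ce_cxe.Interface

/-! Block CNT (helper89). -/

set_option autoImplicit false

open Polynomial

namespace Pool.CXE

theorem p_CNT (h1 : Stmt_CN1) (h3 : Stmt_CN3) (h4 : Stmt_CN4) : Stmt_CNT := by
  intro m
  obtain ⟨a1, a2, a3, a4, b1, b2, b3, b4⟩ := h3
  have e7 := h4 7 (m + 1)
  have e8 := h4 8 m
  rw [a1, a2, a3, a4] at e7
  rw [b1, b2, b3, b4] at e8
  have n5 : (Finset.Nat.antidiagonalTuple 5 (m + 1)).card =
      (Finset.Nat.antidiagonalTuple 5 m).card + (Finset.Nat.antidiagonalTuple 4 (m + 1)).card :=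
    h1 4 m
  have n4 : (Finset.Nat.antidiagonalTuple 4 (m + 1)).card =
      (Finset.Nat.antidiagonalTuple 4 m).card + (Finset.Nat.antidiagonalTuple 3 (m + 1)).card :=
    h1 3 m
  have n3 : (Finset.Nat.antidiagonalTuple 3 (m + 1)).card =
      (Finset.Nat.antidiagonalTuple 3 m).card + (Finset.Nat.antidiagonalTuple 2 (m + 1)).card :=
    h1 2 m
  have pos : 0 < (Finset.Nat.antidiagonalTuple 3 (m + 1)).card := by
    refine Finset.card_pos.mpr ⟨![m + 1, 0, 0], ?_⟩
    rw [Finset.Nat.mem_antidiagonalTuple]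
    simp [Fin.sum_univ_three]
  rw [e7, e8]
  omega

end Pool.CXE
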