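import Pool.Agent.Work.MP_bf99ce_cxe.Interface

set_option autoImplicit false

open Polynomial

namespace Pool.CXE

/-- the map `k[z1][z2] → k[t0, t1]` -/
noncomputable def CNV_psi (k : Type) [Field k] : k[X][X] →+* MvPolynomial (Fin 2) k :=
  eval₂RingHom (aeval (MvPolynomial.X 0 : MvPolynomial (Fin 2) k) : k[X] →ₐ[k] MvPolynomial (Fin 2) k).toRingHom
    (MvPolynomial.X 1)

theorem CNV_left (k : Type) [Field k] (p : k[X][X]) :
    MvPolynomial.aeval (R := k) (![C X, X] : Fin 2 → k[X][X]) (CNV_psi k p) = p := by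
  have h : ((MvPolynomial.aeval (R := k) (![C X, X] : Fin 2 → k[X][X])).toRingHom.comp (CNV_psi k)) = RingHom.id _ := by
    apply Polynomial.ringHom_ext'
    · apply Polynomial.ringHom_ext'
      · ext a
        simp [CNV_psi]
      · simp [CNV_psi]
    · simp [CNV_psi]
  have h2 := congrArg (fun f => f p) h
  simpa using h2

theorem CNV_val (k L : Type) [Field k] [Field L] [Algebra k L] (z1 z2 : L) (p : k[X][X]) :
    MvPolynomial.aeval (R := k) ![z1, z2] (CNV_psi k p) = ev2 k z1 z2 p := by
  have h : ((MvPolynomial.aeval (R := k) ![z1, z2]).toRingHom.comp (CNV_psi k)) = ev2 k z1 z2 := by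
    apply Polynomial.ringHom_ext'
    · apply Polynomial.ringHom_ext'
      · ext a
        simp [CNV_psi, ev2]
      · simp [CNV_psi, ev2]
    · simp [CNV_psi, ev2]
  have h2 := congrArg (fun f => f p) h
  simpa using h2

theorem p_CNV : Stmt_CNV := by
  intro k L _ _ _ z1 z2 hi p hp
  have h1 : MvPolynomial.aeval (R := k) ![z1, z2] (CNV_psi k p) = 0 := by rw [CNV_val, hp]
  have h2 : CNV_psi k p = 0 := by
    apply hi
    rw [h1, map_zero]
  rw [← CNV_left k p, h2, map_zero]

end Pool.CXE
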