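import Pool.Agent.Work.MP_bf99ce_cxe.Interface

/-! # Block DEG (helper79) -/

set_option autoImplicit false

open Polynomial

noncomputable section

namespace Pool.CXE

/-- `β = z2³ + z1³/3 - 1` -/
def DEG_be (k : Type) [Field k] : k[X][X] := X ^ 3 + C (C (1 / 3) * X ^ 3 - 1)

/-- `h0 + h1 z2 + h2 z2²` -/
def DEG_q {k : Type} [Field k] (h0 h1 h2 : k[X]) : k[X][X] := C h0 + C h1 * X + C h2 * X ^ 2

theorem DEG_monic (k : Type) [Field k] : (DEG_be k).Monic := monic_X_pow_add_C _ (by norm_num)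

theorem DEG_nat (k : Type) [Field k] : (DEG_be k).natDegree = 3 := natDegree_X_pow_add_C

theorem DEG_nq {k : Type} [Field k] (h0 h1 h2 : k[X]) : (DEG_q h0 h1 h2).natDegree ≤ 2 := by
  unfold DEG_q
  compute_degree

/-- A multiple of `β` of degree at most `2` is zero. -/
theorem DEG_dvd {k : Type} [Field k] (h0 h1 h2 : k[X]) (h : DEG_be k ∣ DEG_q h0 h1 h2) :
    h0 = 0 ∧ h1 = 0 ∧ h2 = 0 := by
  have e : DEG_q h0 h1 h2 = 0 := by
    refine eq_zero_of_dvd_of_natDegree_lt h ?_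
    rw [DEG_nat]
    exact lt_of_le_of_lt (DEG_nq h0 h1 h2) (by norm_num)
  have e0 := congrArg (fun p => coeff p 0) e
  have e1 := congrArg (fun p => coeff p 1) e
  have e2 := congrArg (fun p => coeff p 2) e
  simp [DEG_q, coeff_C, coeff_X] at e0 e1 e2
  exact ⟨e0, e1, e2⟩

/-- Division by `β`. -/
theorem DEG_div {k : Type} [Field k] (f : k[X][X]) :
    ∃ (q : k[X][X]) (h0 h1 h2 : k[X]), f = DEG_be k * q + DEG_q h0 h1 h2 := by
  have h1 : DEG_be k ≠ 1 := by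
    intro h
    have h2 := DEG_nat k
    rw [h, natDegree_one] at h2
    omega
  have hlt := natDegree_modByMonic_lt f (DEG_monic k) h1
  rw [DEG_nat] at hlt
  refine ⟨f /ₘ DEG_be k, (f %ₘ DEG_be k).coeff 0, (f %ₘ DEG_be k).coeff 1,
    (f %ₘ DEG_be k).coeff 2, ?_⟩
  have e := as_sum_range' (f %ₘ DEG_be k) 3 hlt
  have e2 : DEG_q ((f %ₘ DEG_be k).coeff 0) ((f %ₘ DEG_be k).coeff 1) ((f %ₘ DEG_be k).coeff 2) =
      f %ₘ DEG_be k := by
    rw [Finset.sum_range_succ, Finset.sum_range_succ, Finset.sum_range_one] at e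
    simp only [← C_mul_X_pow_eq_monomial] at e
    rw [pow_zero, mul_one, pow_one] at e
    exact e.symm
  rw [e2, add_comm]
  exact (modByMonic_add_div f (DEG_be k)).symm

theorem DEG_b {k : Type} [Field k] [CharZero k] : Pb k = C (C 3) * DEG_be k := by
  unfold Pb fb DEG_be
  have h : (C (C 3) : k[X][X]) * C (C (1 / 3)) = 1 := by
    rw [← C_mul, ← C_mul]
    norm_num
  have h3 : (C (C 3) : k[X][X]) = 3 := by rw [map_ofNat C 3, map_ofNat C 3]
  calc -3 * (1 : k[X][X]) ^ 3 + C X ^ 3 + 3 * X ^ 3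
      = 3 * X ^ 3 + 1 * C X ^ 3 - 3 := by ring
    _ = C (C 3) * X ^ 3 + (C (C 3) * C (C (1 / 3))) * C X ^ 3 - C (C 3) := by rw [h, h3]
    _ = C (C 3) * (X ^ 3 + C (C (1 / 3) * X ^ 3 - 1)) := by
        rw [C_sub, C_mul, C_pow, C_1]
        ring

theorem DEG_b' {k : Type} [Field k] [CharZero k] : DEG_be k = C (C (1 / 3)) * Pb k := by
  rw [DEG_b, ← mul_assoc, ← C_mul, ← C_mul]
  norm_num

/-- The product of `Pa` with a polynomial of degree at most `2`. -/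
theorem DEG_mul {k : Type} [Field k] [CharZero k] (e : k) (h0 h1 h2 : k[X]) :
    Pa e * DEG_q h0 h1 h2 = DEG_be k * (DEG_q h0 h1 h2 + C (C e * X * h2)) +
      DEG_q ((C (8 / 3) * X ^ 3 - 2) * h0 + C e * X * (1 - C (1 / 3) * X ^ 3) * h2)
        ((C (8 / 3) * X ^ 3 - 2) * h1 + C e * X * h0)
        ((C (8 / 3) * X ^ 3 - 2) * h2 + C e * X * h1) := by
  have h83 : (C (C (8 / 3)) : k[X][X]) = 3 - C (C (1 / 3)) := by
    have h3 : (3 : k[X][X]) = C (C 3) := by rw [map_ofNat C 3, map_ofNat C 3]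
    rw [h3, ← C_sub, ← C_sub]
    norm_num
  have h2' : (C 2 : k[X][X]) = 2 := map_ofNat C 2
  unfold Pa fa DEG_be DEG_q
  simp only [C_add, C_sub, C_mul, C_pow, C_1, h83, h2']
  ring

theorem DEG_low {k : Type} [Field k] (c : Fin 3 → Fin 3 → k) :
    low c = DEG_q (C (c 0 0) + C (c 1 0) * X + C (c 2 0) * X ^ 2)
      (C (c 0 1) + C (c 1 1) * X + C (c 2 1) * X ^ 2)
      (C (c 0 2) + C (c 1 2) * X + C (c 2 2) * X ^ 2) := by
  unfold low DEG_q
  simp only [Fin.sum_univ_three, C_add, C_mul, C_pow]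
  simp
  ring

theorem DEG_deg {k : Type} [Field k] (a b c : k) :
    (C a + C b * X + C c * X ^ 2 : k[X]).natDegree ≤ 2 := by
  compute_degree

theorem DEG_coef {k : Type} [Field k] (a b c : k)
    (h : (C a + C b * X + C c * X ^ 2 : k[X]) = 0) : a = 0 ∧ b = 0 ∧ c = 0 := by
  have e0 := congrArg (fun p => coeff p 0) h
  have e1 := congrArg (fun p => coeff p 1) h
  have e2 := congrArg (fun p => coeff p 2) h
  simp [coeff_C, coeff_X] at e0 e1 e2
  exact ⟨e0, e1, e2⟩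

theorem DEG_inj {k : Type} [Field k] {a0 a1 a2 b0 b1 b2 : k[X]}
    (h : DEG_be k ∣ DEG_q a0 a1 a2 - DEG_q b0 b1 b2) : a0 = b0 ∧ a1 = b1 ∧ a2 = b2 := by
  have e : DEG_q a0 a1 a2 - DEG_q b0 b1 b2 = DEG_q (a0 - b0) (a1 - b1) (a2 - b2) := by
    unfold DEG_q
    simp only [C_sub]
    ring
  rw [e] at h
  obtain ⟨h0, h1, h2⟩ := DEG_dvd _ _ _ h
  exact ⟨sub_eq_zero.1 h0, sub_eq_zero.1 h1, sub_eq_zero.1 h2⟩

theorem p_DEG (hDG1 : Stmt_DG1) : Stmt_DEG := by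
  intro k _ _ e
  constructor
  · intro f hf
    obtain ⟨q, h0, h1, h2, rfl⟩ := DEG_div f
    have hb : DEG_be k ∣ Pb k := ⟨C (C 3), by rw [DEG_b, mul_comm]⟩
    have h4 : DEG_be k ∣ Pa e * (DEG_be k * q + DEG_q h0 h1 h2) := hb.trans hf
    have h5 : DEG_be k ∣ DEG_q ((C (8 / 3) * X ^ 3 - 2) * h0 + C e * X * (1 - C (1 / 3) * X ^ 3) * h2)
        ((C (8 / 3) * X ^ 3 - 2) * h1 + C e * X * h0)
        ((C (8 / 3) * X ^ 3 - 2) * h2 + C e * X * h1) := by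
      rw [mul_add, DEG_mul, ← add_assoc] at h4
      refine (dvd_add_right ?_).1 h4
      refine dvd_add ?_ (dvd_mul_right _ _)
      exact ⟨Pa e * q, by ring⟩
    obtain ⟨c0, c1, c2⟩ := DEG_dvd _ _ _ h5
    obtain ⟨r0, r1, r2⟩ := hDG1 k e h0 h1 h2 (by rw [c0]; simp) (by rw [c1]; simp)
      (by rw [c2]; simp)
    subst r0 r1 r2
    have hz : DEG_q (0 : k[X]) 0 0 = 0 := by
      unfold DEG_q
      simp
    rw [hz, add_zero]
    refine dvd_mul_of_dvd_left ?_ q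
    exact ⟨C (C (1 / 3)), by rw [DEG_b', mul_comm]⟩
  · intro c hc
    obtain ⟨U, V, hUV⟩ := Ideal.mem_span_pair.1 hc
    obtain ⟨q, h0, h1, h2, rfl⟩ := DEG_div U
    have h5 : DEG_be k ∣ low c - DEG_q
        ((C (8 / 3) * X ^ 3 - 2) * h0 + C e * X * (1 - C (1 / 3) * X ^ 3) * h2)
        ((C (8 / 3) * X ^ 3 - 2) * h1 + C e * X * h0)
        ((C (8 / 3) * X ^ 3 - 2) * h2 + C e * X * h1) := by
      have h6 : (DEG_be k * q + DEG_q h0 h1 h2) * Pa e =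
          DEG_be k * (Pa e * q) + Pa e * DEG_q h0 h1 h2 := by ring
      rw [← hUV, h6, DEG_mul, DEG_b]
      refine ⟨Pa e * q + (DEG_q h0 h1 h2 + C (C e * X * h2)) + V * C (C 3), ?_⟩
      ring
    rw [DEG_low] at h5
    obtain ⟨c0, c1, c2⟩ := DEG_inj h5
    obtain ⟨r0, r1, r2⟩ := hDG1 k e h0 h1 h2 (by rw [← c0]; exact DEG_deg _ _ _)
      (by rw [← c1]; exact DEG_deg _ _ _) (by rw [← c2]; exact DEG_deg _ _ _)
    subst r0 r1 r2
    simp only [mul_zero, add_zero] at c0 c1 c2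
    obtain ⟨a0, a1, a2⟩ := DEG_coef _ _ _ c0
    obtain ⟨b0, b1, b2⟩ := DEG_coef _ _ _ c1
    obtain ⟨d0, d1, d2⟩ := DEG_coef _ _ _ c2
    intro i j
    fin_cases i <;> fin_cases j <;> assumption

end Pool.CXE
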