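import Pool.Agent.Work.MP_bf99ce_cxe.Interface

set_option autoImplicit false

open Polynomial

noncomputable section

namespace Pool.CXE

theorem DER_x3 {k L : Type} [Field k] [CharZero k] [Field L] [Algebra k L] (e : k) (x : Fin 5 → L) (hD : Dat k e x) : x 3 ≠ 0 := by
  intro h
  have h1 : ev2 k (x 1) (x 2) (Pa e) = x 3 ^ 3 := by
    rw [hD.h3, hD.x0]
    simp only [Pa, fa, map_add, map_mul, map_pow, map_neg, map_one, map_ofNat]
    simp [ev2]
  rw [h, zero_pow (by norm_num)] at h1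
  have h2 := hD.ind _ h1
  have h3 := congrArg (fun p : k[X][X] => eval 0 (eval 0 p)) h2
  simp [Pa, fa] at h3

theorem DER_x4 {k L : Type} [Field k] [CharZero k] [Field L] [Algebra k L] (e : k) (x : Fin 5 → L) (hD : Dat k e x) : x 4 ≠ 0 := by
  intro h
  have h1 : ev2 k (x 1) (x 2) (Pb k) = x 4 ^ 3 := by
    rw [hD.h4, hD.x0]
    simp only [Pb, fb, map_add, map_mul, map_pow, map_neg, map_one, map_ofNat]
    simp [ev2]
  rw [h, zero_pow (by norm_num)] at h1
  have h2 := hD.ind _ h1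
  have h3 := congrArg (fun p : k[X][X] => eval 0 (eval 0 p)) h2
  simp [Pb, fb] at h3

theorem DER_ys {k L : Type} [Field k] [CharZero k] [Field L] [Algebra k L] (e : k) (x : Fin 5 → L) (hD : Dat k e x) (i : Fin 5) :
    dd x (ys e x i) = MvPolynomial.C (x i) := by
  haveI : CharZero L := charZero_of_injective_algebraMap (algebraMap k L).injective
  have h3 := DER_x3 e x hD
  have h4 := DER_x4 e x hD
  have d0 : dd x (MvPolynomial.X 0) = MvPolynomial.C (x 0) := by simp [dd, MvPolynomial.mkDerivation_X]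
  have d1 : dd x (MvPolynomial.X 1) = MvPolynomial.C (x 1) := by simp [dd, MvPolynomial.mkDerivation_X]
  have d2 : dd x (MvPolynomial.X 2) = MvPolynomial.C (x 2) := by simp [dd, MvPolynomial.mkDerivation_X]
  have dC : ∀ a : L, dd x (MvPolynomial.C a) = 0 := fun a => MvPolynomial.derivation_C _ a
  have dm : ∀ (a : L) (g : MvPolynomial (Fin 3) L), dd x (MvPolynomial.C a * g) = MvPolynomial.C a * dd x g := by
    intro a g
    rw [Derivation.leibniz, dC, smul_zero, add_zero, smul_eq_mul]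
  have key3 : (3 * x 3 ^ 2)⁻¹ * xa (algebraMap k L e) (x 0) (x 1) (x 2) (x 0) (x 1) (x 2) = x 3 := by
    have : xa (algebraMap k L e) (x 0) (x 1) (x 2) (x 0) (x 1) (x 2) = 3 * x 3 ^ 3 := by
      rw [hD.h3]; unfold xa fa; ring
    rw [this]
    field_simp
  have key4 : (3 * x 4 ^ 2)⁻¹ * xb (x 0) (x 1) (x 2) (x 0) (x 1) (x 2) = x 4 := by
    have : xb (x 0) (x 1) (x 2) (x 0) (x 1) (x 2) = 3 * x 4 ^ 3 := by
      rw [hD.h4]; unfold xb fb; ring
    rw [this]
    field_simp
  fin_cases i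
  · exact d0
  · exact d1
  · exact d2
  · show dd x (MvPolynomial.C (3 * x 3 ^ 2)⁻¹ * xa (MvPolynomial.C (algebraMap k L e)) (MvPolynomial.C (x 0)) (MvPolynomial.C (x 1))
      (MvPolynomial.C (x 2)) (MvPolynomial.X 0) (MvPolynomial.X 1) (MvPolynomial.X 2)) = MvPolynomial.C (x 3)
    have hx : xa (MvPolynomial.C (algebraMap k L e)) (MvPolynomial.C (x 0)) (MvPolynomial.C (x 1))
      (MvPolynomial.C (x 2)) (MvPolynomial.X 0) (MvPolynomial.X 1) (MvPolynomial.X 2) =
      MvPolynomial.C (-9 * x 0 ^ 2 + algebraMap k L e * x 1 * x 2) * (MvPolynomial.X 0 : MvPolynomial (Fin 3) L) +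
      MvPolynomial.C (9 * x 1 ^ 2 + algebraMap k L e * x 0 * x 2) * MvPolynomial.X 1 +
      MvPolynomial.C (3 * x 2 ^ 2 + algebraMap k L e * x 0 * x 1) * MvPolynomial.X 2 := by
      unfold xa
      simp only [map_add, map_mul, map_pow, map_neg, map_ofNat]
    rw [dm, hx, map_add, map_add, dm, dm, dm, d0, d1, d2, ← map_mul, ← map_mul, ← map_mul, ← map_add, ← map_add, ← map_mul]
    exact congrArg MvPolynomial.C key3
  · show dd x (MvPolynomial.C (3 * x 4 ^ 2)⁻¹ * xb (MvPolynomial.C (x 0)) (MvPolynomial.C (x 1))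
      (MvPolynomial.C (x 2)) (MvPolynomial.X 0) (MvPolynomial.X 1) (MvPolynomial.X 2)) = MvPolynomial.C (x 4)
    have hx : xb (MvPolynomial.C (x 0)) (MvPolynomial.C (x 1))
      (MvPolynomial.C (x 2)) (MvPolynomial.X 0) (MvPolynomial.X 1) (MvPolynomial.X 2) =
      MvPolynomial.C (-9 * x 0 ^ 2) * (MvPolynomial.X 0 : MvPolynomial (Fin 3) L) +
      MvPolynomial.C (3 * x 1 ^ 2) * MvPolynomial.X 1 +
      MvPolynomial.C (9 * x 2 ^ 2) * MvPolynomial.X 2 := by
      unfold xb
      simp only [map_mul, map_pow, map_neg, map_ofNat]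
    rw [dm, hx, map_add, map_add, dm, dm, dm, d0, d1, d2, ← map_mul, ← map_mul, ← map_mul, ← map_add, ← map_add, ← map_mul]
    exact congrArg MvPolynomial.C key4

theorem DER_prod {k L : Type} [Field k] [CharZero k] [Field L] [Algebra k L] (e : k) (x : Fin 5 → L) (hD : Dat k e x)
    (μ : (Fin 5 → ℕ) × (Fin 5 → ℕ)) :
    dd x (evm e x μ) = ∑ i, (μ.2 i : k) • evm e x (Function.update μ.1 i (μ.1 i + 1), Function.update μ.2 i (μ.2 i - 1)) := by
  have dC : ∀ a : L, dd x (MvPolynomial.C a) = 0 := fun a => MvPolynomial.derivation_C _ a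
  have dm : ∀ (a : L) (g : MvPolynomial (Fin 3) L), dd x (MvPolynomial.C a * g) = MvPolynomial.C a * dd x g := by
    intro a g
    rw [Derivation.leibniz, dC, smul_zero, add_zero, smul_eq_mul]
  have hX : ∀ ν : Fin 5 → ℕ, ∏ i, (MvPolynomial.C (x i) : MvPolynomial (Fin 3) L) ^ ν i = MvPolynomial.C (∏ i, x i ^ ν i) := by
    intro ν
    rw [map_prod]
    exact Finset.prod_congr rfl fun i _ => (map_pow _ _ _).symm
  have hdy := DER_ys e x hD
  have hL : dd x (∏ i, ys e x i ^ μ.2 i) = ∑ i, (μ.2 i : MvPolynomial (Fin 3) L) * (MvPolynomial.C (x i) *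
      ∏ j, ys e x j ^ (Function.update μ.2 i (μ.2 i - 1)) j) := by
    rw [Fin.prod_univ_five, Fin.sum_univ_five]
    simp only [Fin.prod_univ_five, Derivation.leibniz, Derivation.leibniz_pow, hdy, smul_eq_mul, nsmul_eq_mul,
      Function.update_self]
    have u1 : ∀ (i j : Fin 5) (v : ℕ), j ≠ i → Function.update μ.2 i v j = μ.2 j := fun i j v h => Function.update_of_ne h _ _
    rw [u1 0 1 _ (by decide), u1 0 2 _ (by decide), u1 0 3 _ (by decide), u1 0 4 _ (by decide),
      u1 1 0 _ (by decide), u1 1 2 _ (by decide), u1 1 3 _ (by decide), u1 1 4 _ (by decide),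
      u1 2 0 _ (by decide), u1 2 1 _ (by decide), u1 2 3 _ (by decide), u1 2 4 _ (by decide),
      u1 3 0 _ (by decide), u1 3 1 _ (by decide), u1 3 2 _ (by decide), u1 3 4 _ (by decide),
      u1 4 0 _ (by decide), u1 4 1 _ (by decide), u1 4 2 _ (by decide), u1 4 3 _ (by decide)]
    ring
  unfold evm mon
  simp only [hX]
  rw [dm, hL, Finset.mul_sum]
  refine Finset.sum_congr rfl fun i _ => ?_
  have h1 : ∏ j, x j ^ (Function.update μ.1 i (μ.1 i + 1)) j = x i * ∏ j, x j ^ μ.1 j := by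
    rw [← Finset.mul_prod_erase Finset.univ _ (Finset.mem_univ i), ← Finset.mul_prod_erase Finset.univ (fun j => x j ^ μ.1 j) (Finset.mem_univ i),
      Function.update_self, pow_succ]
    have : ∏ j ∈ Finset.univ.erase i, x j ^ (Function.update μ.1 i (μ.1 i + 1)) j = ∏ j ∈ Finset.univ.erase i, x j ^ μ.1 j :=
      Finset.prod_congr rfl fun j hj => by rw [Function.update_of_ne (Finset.ne_of_mem_erase hj)]
    rw [this]
    ring
  rw [h1, map_mul, Nat.cast_smul_eq_nsmul, nsmul_eq_mul]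
  ring

theorem p_DER : Stmt_DER := by
  intro k L _ _ _ _ e x hD p m μ h1 h2
  rw [DER_prod e x hD]
  refine Submodule.sum_mem _ fun i _ => ?_
  by_cases h : μ.2 i = 0
  · rw [h, Nat.cast_zero, zero_smul]
    exact Submodule.zero_mem _
  · refine Submodule.smul_mem _ _ (Submodule.subset_span ⟨_, ⟨?_, ?_⟩, rfl⟩)
    · show ∑ j, Function.update μ.1 i (μ.1 i + 1) j = p + 1
      rw [← h1, ← Finset.add_sum_erase Finset.univ _ (Finset.mem_univ i),
        ← Finset.add_sum_erase Finset.univ (fun j => μ.1 j) (Finset.mem_univ i), Function.update_self]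
      have : ∑ j ∈ Finset.univ.erase i, (Function.update μ.1 i (μ.1 i + 1)) j = ∑ j ∈ Finset.univ.erase i, μ.1 j :=
        Finset.sum_congr rfl fun j hj => by rw [Function.update_of_ne (Finset.ne_of_mem_erase hj)]
      rw [this]
      ring
    · show ∑ j, Function.update μ.2 i (μ.2 i - 1) j = m
      rw [← Finset.add_sum_erase Finset.univ (fun j => μ.2 j) (Finset.mem_univ i)] at h2
      rw [← Finset.add_sum_erase Finset.univ _ (Finset.mem_univ i), Function.update_self]
      have : ∑ j ∈ Finset.univ.erase i, (Function.update μ.2 i (μ.2 i - 1)) j = ∑ j ∈ Finset.univ.erase i, μ.2 j :=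
        Finset.sum_congr rfl fun j hj => by rw [Function.update_of_ne (Finset.ne_of_mem_erase hj)]
      rw [this]
      omega

end Pool.CXE
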