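import Pool.Agent.Work.MP_bf99ce_cxe.Interface

set_option autoImplicit false

open Polynomial

noncomputable section

namespace Pool.CXE

theorem FIN_x3 {k L : Type} [Field k] [CharZero k] [Field L] [Algebra k L] (e : k) (x : Fin 5 → L) (hD : Dat k e x) : x 3 ≠ 0 := by
  intro h
  have h1 : ev2 k (x 1) (x 2) (Pa e) = x 3 ^ 3 := by
    rw [hD.h3, hD.x0]
    simp only [Pa, fa, map_add, map_mul, map_pow, map_neg, map_one, map_ofNat]
    simp [ev2]
  rw [h, zero_pow (by norm_num)] at h1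
  have h2 := hD.ind _ h1
  have h3 := congrArg (fun p : k[X][X] => eval 0 (eval 0 p)) h2
  simp [Pa, fa] at h3

theorem FIN_x4 {k L : Type} [Field k] [CharZero k] [Field L] [Algebra k L] (e : k) (x : Fin 5 → L) (hD : Dat k e x) : x 4 ≠ 0 := by
  intro h
  have h1 : ev2 k (x 1) (x 2) (Pb k) = x 4 ^ 3 := by
    rw [hD.h4, hD.x0]
    simp only [Pb, fb, map_add, map_mul, map_pow, map_neg, map_one, map_ofNat]
    simp [ev2]
  rw [h, zero_pow (by norm_num)] at h1
  have h2 := hD.ind _ h1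
  have h3 := congrArg (fun p : k[X][X] => eval 0 (eval 0 p)) h2
  simp [Pb, fb] at h3

theorem FIN_ys {k L : Type} [Field k] [CharZero k] [Field L] [Algebra k L] (e : k) (x : Fin 5 → L) (hD : Dat k e x)
    (A : Type) [CommRing A] [Algebra L A] (y : Fin 5 → A)
    (hy : Tan (algebraMap L A (algebraMap k L e)) (fun i => algebraMap L A (x i)) y) (i : Fin 5) :
    MvPolynomial.aeval (![y 0, y 1, y 2] : Fin 3 → A) (ys e x i) = y i := by
  haveI : CharZero L := charZero_of_injective_algebraMap (algebraMap k L).injective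
  have h3 := FIN_x3 e x hD
  have h4 := FIN_x4 e x hD
  fin_cases i
  · show MvPolynomial.aeval (![y 0, y 1, y 2] : Fin 3 → A) (MvPolynomial.X 0) = y 0
    rw [MvPolynomial.aeval_X]; rfl
  · show MvPolynomial.aeval (![y 0, y 1, y 2] : Fin 3 → A) (MvPolynomial.X 1) = y 1
    rw [MvPolynomial.aeval_X]; rfl
  · show MvPolynomial.aeval (![y 0, y 1, y 2] : Fin 3 → A) (MvPolynomial.X 2) = y 2
    rw [MvPolynomial.aeval_X]; rfl
  · show MvPolynomial.aeval (![y 0, y 1, y 2] : Fin 3 → A) (MvPolynomial.C (3 * x 3 ^ 2)⁻¹ *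
      xa (MvPolynomial.C (algebraMap k L e)) (MvPolynomial.C (x 0)) (MvPolynomial.C (x 1))
      (MvPolynomial.C (x 2)) (MvPolynomial.X 0) (MvPolynomial.X 1) (MvPolynomial.X 2)) = y 3
    have hx : MvPolynomial.aeval (![y 0, y 1, y 2] : Fin 3 → A) (
      xa (MvPolynomial.C (algebraMap k L e)) (MvPolynomial.C (x 0)) (MvPolynomial.C (x 1))
      (MvPolynomial.C (x 2)) (MvPolynomial.X 0) (MvPolynomial.X 1) (MvPolynomial.X 2)) =
      xa (algebraMap L A (algebraMap k L e)) (algebraMap L A (x 0)) (algebraMap L A (x 1)) (algebraMap L A (x 2)) (y 0) (y 1) (y 2) := by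
      unfold xa
      simp only [map_add, map_mul, map_pow, map_neg, map_ofNat, MvPolynomial.aeval_C, MvPolynomial.aeval_X]
      rfl
    rw [map_mul, MvPolynomial.aeval_C, hx, ← hy.t3]
    have h5 : (3 : A) * algebraMap L A (x 3) ^ 2 * y 3 = algebraMap L A (3 * x 3 ^ 2) * y 3 := by
      rw [map_mul, map_pow, map_ofNat]
    rw [h5, ← mul_assoc, ← map_mul, inv_mul_cancel₀ (mul_ne_zero three_ne_zero (pow_ne_zero 2 h3)), map_one, one_mul]
  · show MvPolynomial.aeval (![y 0, y 1, y 2] : Fin 3 → A) (MvPolynomial.C (3 * x 4 ^ 2)⁻¹ *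
      xb (MvPolynomial.C (x 0)) (MvPolynomial.C (x 1))
      (MvPolynomial.C (x 2)) (MvPolynomial.X 0) (MvPolynomial.X 1) (MvPolynomial.X 2)) = y 4
    have hx : MvPolynomial.aeval (![y 0, y 1, y 2] : Fin 3 → A) (
      xb (MvPolynomial.C (x 0)) (MvPolynomial.C (x 1))
      (MvPolynomial.C (x 2)) (MvPolynomial.X 0) (MvPolynomial.X 1) (MvPolynomial.X 2)) =
      xb (algebraMap L A (x 0)) (algebraMap L A (x 1)) (algebraMap L A (x 2)) (y 0) (y 1) (y 2) := by
      unfold xb
      simp only [map_add, map_mul, map_pow, map_neg, map_ofNat, MvPolynomial.aeval_C, MvPolynomial.aeval_X]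
      rfl
    rw [map_mul, MvPolynomial.aeval_C, hx, ← hy.t4]
    have h5 : (3 : A) * algebraMap L A (x 4) ^ 2 * y 4 = algebraMap L A (3 * x 4 ^ 2) * y 4 := by
      rw [map_mul, map_pow, map_ofNat]
    rw [h5, ← mul_assoc, ← map_mul, inv_mul_cancel₀ (mul_ne_zero three_ne_zero (pow_ne_zero 2 h4)), map_one, one_mul]

theorem FIN_val {k L : Type} [Field k] [CharZero k] [Field L] [Algebra k L] (e : k) (x : Fin 5 → L) (hD : Dat k e x)
    (I : Finset ((Fin 5 → ℕ) × (Fin 5 → ℕ))) (c : (Fin 5 → ℕ) × (Fin 5 → ℕ) → k)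
    (A : Type) [CommRing A] [Algebra L A] (y : Fin 5 → A)
    (hy : Tan (algebraMap L A (algebraMap k L e)) (fun i => algebraMap L A (x i)) y) :
    val A I c x y = MvPolynomial.aeval (![y 0, y 1, y 2] : Fin 3 → A) (∑ μ ∈ I, c μ • evm e x μ) := by
  unfold val
  rw [map_sum]
  refine Finset.sum_congr rfl fun μ _ => ?_
  have h1 : c μ • evm e x μ = MvPolynomial.C (algebraMap k L (c μ)) * evm e x μ := by
    rw [← algebraMap_smul L (c μ) (evm e x μ), MvPolynomial.smul_eq_C_mul]
  rw [h1, map_mul, MvPolynomial.aeval_C]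
  congr 1
  unfold evm mon
  rw [map_mul, map_prod, map_prod]
  congr 1
  · refine Finset.prod_congr rfl fun i _ => ?_
    rw [map_pow, MvPolynomial.aeval_C]
  · refine Finset.prod_congr rfl fun i _ => ?_
    rw [map_pow, FIN_ys e x hD A y hy]

theorem FIN_tan {k L : Type} [Field k] [CharZero k] [Field L] [Algebra k L] (e : k) (x : Fin 5 → L) (hD : Dat k e x)
    (A : Type) [CommRing A] [Algebra L A] (y : Fin 5 → A) (l : A)
    (hy : Tan (algebraMap L A (algebraMap k L e)) (fun i => algebraMap L A (x i)) y) :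
    Tan (algebraMap L A (algebraMap k L e)) (fun i => algebraMap L A (x i)) (fun i => y i + l * algebraMap L A (x i)) := by
  have h3 : algebraMap L A (x 3) ^ 3 = fa (algebraMap L A (algebraMap k L e)) (algebraMap L A (x 0)) (algebraMap L A (x 1))
      (algebraMap L A (x 2)) := by
    rw [← map_pow, hD.h3]
    unfold fa
    simp only [map_add, map_mul, map_pow, map_neg, map_ofNat]
  have h4 : algebraMap L A (x 4) ^ 3 = fb (algebraMap L A (x 0)) (algebraMap L A (x 1)) (algebraMap L A (x 2)) := by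
    rw [← map_pow, hD.h4]
    unfold fb
    simp only [map_add, map_mul, map_pow, map_neg, map_ofNat]
  have t3 := hy.t3
  have t4 := hy.t4
  unfold xa at t3
  unfold xb at t4
  unfold fa at h3
  unfold fb at h4
  constructor
  · show 3 * algebraMap L A (x 3) ^ 2 * (y 3 + l * algebraMap L A (x 3)) = _
    unfold xa
    linear_combination t3 + 3 * l * h3
  · show 3 * algebraMap L A (x 4) ^ 2 * (y 4 + l * algebraMap L A (x 4)) = _
    unfold xb
    linear_combination t4 + 3 * l * h4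

theorem FIN_mem (p m : ℕ) : ∀ μ ∈ II p m, ∑ i, μ.1 i = p ∧ ∑ i, μ.2 i = m := by
  intro μ hμ
  unfold II at hμ
  rw [Finset.mem_filter, Finset.mem_product, Finset.Nat.mem_antidiagonalTuple, Finset.Nat.mem_antidiagonalTuple] at hμ
  exact hμ.1

theorem p_FIN (hEXI : Stmt_EXI) (hTAY : Stmt_TAY) : Stmt_FIN := by
  intro k L _ _ _ _ e x hD m hm
  haveI : CharZero L := charZero_of_injective_algebraMap (algebraMap k L).injective
  obtain ⟨m', rfl⟩ : ∃ m', m = m' + 1 := ⟨m - 1, by omega⟩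
  obtain ⟨c, hc0, hc1⟩ := hEXI k L e x hD m'
  obtain ⟨hT1, hT2⟩ := hTAY L x hD.x0 _ hc1
  refine ⟨II 7 (m' + 1), c, ?_, ?_, ?_⟩
  · exact FIN_mem 7 (m' + 1)
  · intro A _ _ y l hy
    rw [FIN_val e x hD _ c A _ (FIN_tan e x hD A y l hy), FIN_val e x hD _ c A y hy]
    exact hT1 A ![y 0, y 1, y 2] l
  · intro A _ _ y hy hy0 hind
    rw [FIN_val e x hD _ c A y hy, hy0]
    exact hT2 hc0 A (y 1) (y 2) hind

end Pool.CXE
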