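import Pool.Agent.Work.MP_bf99ce_cxe.Interface
set_option autoImplicit false
noncomputable section
open Polynomial

namespace Pool.CXE

theorem IN1_low_add {k : Type} [Field k] (c c' : Fin 3 → Fin 3 → k) : low c + low c' = low (fun i j => c i j + c' i j) := by
  unfold low
  rw [← Finset.sum_add_distrib]
  refine Finset.sum_congr rfl fun i _ => ?_
  rw [← Finset.sum_add_distrib]
  refine Finset.sum_congr rfl fun j _ => ?_
  rw [C_add, add_mul, C_add, add_mul]

theorem IN1_low_zero {k : Type} [Field k] : low (fun _ _ => (0 : k)) = 0 := by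
  unfold low
  simp

theorem IN1_low_neg {k : Type} [Field k] (c : Fin 3 → Fin 3 → k) : -low c = low (fun i j => -c i j) := by
  have h := IN1_low_add c (fun i j => -c i j)
  simp only [add_neg_cancel] at h
  rw [IN1_low_zero] at h
  exact neg_eq_of_add_eq_zero_right h

/-- The elements all of whose coefficients are of the form `low c`. -/
def IN1_N (k : Type) [Field k] : AddSubgroup (QQ k) where
  carrier := {f | ∀ d, ∃ c, MvPolynomial.coeff d f = low c}
  add_mem' := by
    intro f g hf hg d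
    obtain ⟨c, hc⟩ := hf d
    obtain ⟨c', hc'⟩ := hg d
    exact ⟨_, by rw [MvPolynomial.coeff_add, hc, hc', IN1_low_add]⟩
  zero_mem' := fun d => ⟨fun _ _ => 0, by rw [MvPolynomial.coeff_zero, IN1_low_zero]⟩
  neg_mem' := by
    intro f hf d
    obtain ⟨c, hc⟩ := hf d
    exact ⟨_, by rw [MvPolynomial.coeff_neg, hc, IN1_low_neg]⟩

theorem p_IN1 (hLED : Stmt_LED) (hNZD : Stmt_NZD) : Stmt_IN1 := by
  intro k _ _ e he ι T n3 n4 b3 b4 i j h hb hlow hsum u v
  obtain ⟨h1, h2, h3, h4, h5⟩ := hNZD k e he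
  have h5' : ∀ f ∈ IN1_N k, f ∈ Ideal.span {MvPolynomial.C (Pa e), MvPolynomial.C (Pb k)} → f = 0 := fun f hf => h5 f hf
  refine hLED (QQ k) (MvPolynomial.C (Pa e)) (MvPolynomial.C (Pb k)) (qa e) (qb k) (IN1_N k) h1 h2 h3 h4 h5'
    (T.sup n3 + u + 1) (T.sup n4 + v + 1) i j (fun u v => ∑ μ ∈ T with n3 μ = u ∧ n4 μ = v, h μ) ?_ ?_ u (by omega) v (by omega)
  · intro u v
    exact sum_mem fun μ hμ => hlow μ (Finset.mem_filter.1 hμ).1
  · rw [← Finset.sum_product']
    rw [← hsum]
    have hmap : ∀ μ ∈ T, (n3 μ, n4 μ) ∈ Finset.range (T.sup n3 + u + 1) ×ˢ Finset.range (T.sup n4 + v + 1) := by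
      intro μ hμ
      have a1 : n3 μ ≤ T.sup n3 := Finset.le_sup hμ
      have a2 : n4 μ ≤ T.sup n4 := Finset.le_sup hμ
      rw [Finset.mem_product, Finset.mem_range, Finset.mem_range]
      constructor <;> simp only <;> omega
    rw [← Finset.sum_fiberwise_of_maps_to hmap]
    refine Finset.sum_congr rfl fun p _ => ?_
    rw [Finset.mul_sum]
    have hf : (T.filter fun μ => n3 μ = p.1 ∧ n4 μ = p.2) = T.filter fun μ => (n3 μ, n4 μ) = p := by
      refine Finset.filter_congr fun μ _ => ?_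
      rw [Prod.ext_iff]
    rw [hf]
    refine Finset.sum_congr rfl fun μ hμ => ?_
    obtain ⟨hT, hp⟩ := Finset.mem_filter.1 hμ
    obtain ⟨e3, e4⟩ := hb μ hT
    rw [e3, e4, ← hp, MvPolynomial.C_mul, MvPolynomial.C_pow, MvPolynomial.C_pow]
    ring

end Pool.CXE
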