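import Pool.Agent.Work.MP_bf99ce_cxe.Interface

set_option autoImplicit false

open Polynomial

noncomputable section

namespace Pool.CXE

lemma IND_low0 {k : Type} [Field k] : low (fun _ _ => (0 : k)) = 0 := by
  unfold low
  simp

lemma IND_low {k : Type} [Field k] (c : k) (a b : ℕ) (ha : a ≤ 2) (hb : b ≤ 2) :
    ∃ c' : Fin 3 → Fin 3 → k, C (C c * X ^ a) * X ^ b = low c' := by
  refine ⟨fun i j => if (i : ℕ) = a ∧ (j : ℕ) = b then c else 0, ?_⟩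
  unfold low
  rw [Finset.sum_eq_single (⟨a, by omega⟩ : Fin 3), Finset.sum_eq_single (⟨b, by omega⟩ : Fin 3)]
  · simp
  · intro j _ hj
    have h1 : (j : ℕ) ≠ b := fun h => hj (Fin.ext h)
    simp [h1]
  · intro h
    exact absurd (Finset.mem_univ _) h
  · intro i _ hi
    have h1 : (i : ℕ) ≠ a := fun h => hi (Fin.ext h)
    simp [h1]
  · intro h
    exact absurd (Finset.mem_univ _) h

lemma IND_coef {k : Type} [Field k] (c : k) (μ : (Fin 5 → ℕ) × (Fin 5 → ℕ)) (h1 : μ.1 1 ≤ 2)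
    (h2 : μ.1 2 ≤ 2) (d : Fin 3 →₀ ℕ) : ∃ c', MvPolynomial.coeff d (hq c μ) = low c' := by
  unfold hq
  have e1 : ((MvPolynomial.X 0 ^ μ.2 0 * MvPolynomial.X 1 ^ μ.2 1 * MvPolynomial.X 2 ^ μ.2 2) : QQ k) =
      MvPolynomial.monomial (Finsupp.single 0 (μ.2 0) + Finsupp.single 1 (μ.2 1) +
        Finsupp.single 2 (μ.2 2)) 1 := by
    rw [MvPolynomial.X_pow_eq_monomial, MvPolynomial.X_pow_eq_monomial,
      MvPolynomial.X_pow_eq_monomial, MvPolynomial.monomial_mul, MvPolynomial.monomial_mul]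
    simp
  rw [e1, MvPolynomial.coeff_C_mul, MvPolynomial.coeff_monomial]
  split_ifs with h
  · rw [mul_one]
    exact IND_low _ _ _ h1 h2
  · exact ⟨fun _ _ => 0, by rw [mul_zero, IND_low0]⟩

lemma IND_mem {p m : ℕ} {μ : (Fin 5 → ℕ) × (Fin 5 → ℕ)} (h : μ ∈ II p m) :
    μ.1 1 ≤ 2 ∧ μ.1 2 ≤ 2 ∧ (μ.1 3 ≤ 1 ∨ μ.2 3 = 0) ∧ (μ.1 4 ≤ 1 ∨ μ.2 4 = 0) ∧ μ.2 3 ≤ m ∧ μ.2 4 ≤ m := by
  unfold II at h
  rw [Finset.mem_filter, Finset.mem_product, Finset.Nat.mem_antidiagonalTuple,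
    Finset.Nat.mem_antidiagonalTuple, Fin.sum_univ_five, Fin.sum_univ_five] at h
  obtain ⟨⟨h1, h2⟩, h3, h4, h5, h6⟩ := h
  exact ⟨h3, h4, h5, h6, by omega, by omega⟩

theorem p_IND (hSPL : Stmt_SPL) (hREL : Stmt_REL) (hIN1 : Stmt_IN1) (hIN2 : Stmt_IN2) : Stmt_IND := by
  intro k L _ _ _ _ e x hx p m c hsum μ₀ hμ₀
  have hR := hREL k L e x hx p m c hsum
  have hS := hSPL k L e x hx ((Fin 5 → ℕ) × (Fin 5 → ℕ)) (II p m)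
    (fun μ => μ.1 3 + 3 * m - 2 * μ.2 3) (fun μ => μ.1 4 + 3 * m - 2 * μ.2 4)
    (fun μ => hq (c μ) μ * qa e ^ μ.2 3 * qb k ^ μ.2 4) hR
    ((μ₀.1 3 + 3 * m - 2 * μ₀.2 3) % 3) ((μ₀.1 4 + 3 * m - 2 * μ₀.2 4) % 3)
  have hI := hIN1 k e hx.he ((Fin 5 → ℕ) × (Fin 5 → ℕ))
    ((II p m).filter fun μ => (μ.1 3 + 3 * m - 2 * μ.2 3) % 3 = (μ₀.1 3 + 3 * m - 2 * μ₀.2 3) % 3 ∧
      (μ.1 4 + 3 * m - 2 * μ.2 4) % 3 = (μ₀.1 4 + 3 * m - 2 * μ₀.2 4) % 3)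
    (fun μ => (μ.1 3 + 3 * m - 2 * μ.2 3) / 3) (fun μ => (μ.1 4 + 3 * m - 2 * μ.2 4) / 3)
    (fun μ => μ.2 3) (fun μ => μ.2 4)
    (fun u => (3 * m - (3 * u + (μ₀.1 3 + 3 * m - 2 * μ₀.2 3) % 3) + 1) / 2)
    (fun u => (3 * m - (3 * u + (μ₀.1 4 + 3 * m - 2 * μ₀.2 4) % 3) + 1) / 2)
    (fun μ => hq (c μ) μ)
    (by
      intro μ hμ
      rw [Finset.mem_filter] at hμ
      obtain ⟨h1, h2, h3⟩ := hμ
      obtain ⟨-, -, h4, h5, h6, h7⟩ := IND_mem h1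
      refine ⟨?_, ?_⟩
      · show μ.2 3 = _
        rw [← h2]
        omega
      · show μ.2 4 = _
        rw [← h3]
        omega)
    (by
      intro μ hμ d
      rw [Finset.mem_filter] at hμ
      obtain ⟨h4, h5, -⟩ := IND_mem hμ.1
      exact IND_coef _ _ h4 h5 d)
    hS ((μ₀.1 3 + 3 * m - 2 * μ₀.2 3) / 3) ((μ₀.1 4 + 3 * m - 2 * μ₀.2 4) / 3)
  refine hIN2 k p m (μ₀.1 3 + 3 * m - 2 * μ₀.2 3) (μ₀.1 4 + 3 * m - 2 * μ₀.2 4) c ?_ μ₀ hμ₀ rfl rfl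
  rw [Finset.filter_filter] at hI
  rw [← hI]
  refine Finset.sum_congr ?_ fun _ _ => rfl
  refine Finset.filter_congr fun μ _ => ?_
  constructor
  · rintro ⟨h1, h2⟩
    rw [h1, h2]
    exact ⟨⟨rfl, rfl⟩, rfl, rfl⟩
  · rintro ⟨⟨h1, h2⟩, h3, h4⟩
    omega

end Pool.CXE
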