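import Pool.Agent.Work.MP_bf99ce_cxe.Interface

/-!
# Block KB1: `1, w, w²` are linearly independent over `K` if `w³ = a` is not a cube in `K`
-/

set_option autoImplicit false

open Polynomial

namespace Pool.CXE

theorem p_KB1 : Stmt_KB1 := by
  intro L _ _ K a w ha hw hcube c0 h0 c1 h1 c2 h2 heq
  have hirr : Irreducible (X ^ 3 - C (⟨a, ha⟩ : K) : K[X]) := by
    apply X_pow_sub_C_irreducible_of_prime Nat.prime_three
    intro b hb
    refine hcube b b.2 ?_
    have := congrArg (fun z : K => (z : L)) hb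
    simpa using this
  have hmon : (X ^ 3 - C (⟨a, ha⟩ : K) : K[X]).Monic := monic_X_pow_sub_C _ (by norm_num)
  have hroot : aeval w (X ^ 3 - C (⟨a, ha⟩ : K) : K[X]) = 0 := by
    rw [map_sub, map_pow, aeval_X, aeval_C, hw]
    exact sub_self _
  have hmin := minpoly.eq_of_irreducible_of_monic hirr hroot hmon
  have hP0 : aeval w (C (⟨c0, h0⟩ : K) + C (⟨c1, h1⟩ : K) * X + C (⟨c2, h2⟩ : K) * X ^ 2 : K[X]) =
      0 := by
    rw [map_add, map_add, map_mul, map_mul, map_pow, aeval_X, aeval_C, aeval_C, aeval_C]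
    exact heq
  have hdvd : (X ^ 3 - C (⟨a, ha⟩ : K) : K[X]) ∣
      (C (⟨c0, h0⟩ : K) + C (⟨c1, h1⟩ : K) * X + C (⟨c2, h2⟩ : K) * X ^ 2 : K[X]) := by
    rw [hmin]
    exact minpoly.dvd _ _ hP0
  have hdeg : (C (⟨c0, h0⟩ : K) + C (⟨c1, h1⟩ : K) * X + C (⟨c2, h2⟩ : K) * X ^ 2 : K[X]).natDegree <
      (X ^ 3 - C (⟨a, ha⟩ : K) : K[X]).natDegree := by
    rw [natDegree_X_pow_sub_C]
    refine lt_of_le_of_lt (b := 2) ?_ (by norm_num)
    compute_degree
  have hz := Polynomial.eq_zero_of_dvd_of_natDegree_lt hdvd hdeg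
  have e0 := congrArg (fun Q : K[X] => ((Q.coeff 0 : K) : L)) hz
  have e1 := congrArg (fun Q : K[X] => ((Q.coeff 1 : K) : L)) hz
  have e2 := congrArg (fun Q : K[X] => ((Q.coeff 2 : K) : L)) hz
  refine ⟨?_, ?_, ?_⟩
  · simpa using e0
  · simpa [coeff_X_pow, coeff_C, coeff_X] using e1
  · simpa [coeff_X_pow, coeff_C, coeff_X] using e2

end Pool.CXE
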