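import Pool.Agent.Work.MP_bf99ce_cxe.Interface

/-!
# Block KB2: elements of `K` which are cubes in `K(w)`, `w³ = a`
-/

set_option autoImplicit false

open Polynomial

namespace Pool.CXE

theorem p_KB2 (hKB1 : Stmt_KB1) : Stmt_KB2 := by
  intro L _ _ K a w ha hw hcube c0 h0 c1 h1 c2 h2 b hb heq
  have h3 : (3 : L) ∈ K := by exact_mod_cast natCast_mem K 3
  have h6 : (6 : L) ∈ K := by exact_mod_cast natCast_mem K 6
  have hA : (c0 ^ 3 + a * c1 ^ 3 + a ^ 2 * c2 ^ 3 + 6 * a * c0 * c1 * c2 - b) ∈ K := by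
    refine sub_mem (add_mem (add_mem (add_mem (pow_mem h0 _) (mul_mem ha (pow_mem h1 _)))
      (mul_mem (pow_mem ha _) (pow_mem h2 _))) ?_) hb
    exact mul_mem (mul_mem (mul_mem (mul_mem h6 ha) h0) h1) h2
  have hI : (3 * (c0 ^ 2 * c1 + a * c1 ^ 2 * c2 + a * c0 * c2 ^ 2)) ∈ K := by
    refine mul_mem h3 (add_mem (add_mem (mul_mem (pow_mem h0 _) h1)
      (mul_mem (mul_mem ha (pow_mem h1 _)) h2)) ?_)
    exact mul_mem (mul_mem ha h0) (pow_mem h2 _)
  have hII : (3 * (c0 ^ 2 * c2 + c0 * c1 ^ 2 + a * c1 * c2 ^ 2)) ∈ K := by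
    refine mul_mem h3 (add_mem (add_mem (mul_mem (pow_mem h0 _) h2)
      (mul_mem h0 (pow_mem h1 _))) ?_)
    exact mul_mem (mul_mem ha h1) (pow_mem h2 _)
  have hkey : (c0 ^ 3 + a * c1 ^ 3 + a ^ 2 * c2 ^ 3 + 6 * a * c0 * c1 * c2 - b) +
      (3 * (c0 ^ 2 * c1 + a * c1 ^ 2 * c2 + a * c0 * c2 ^ 2)) * w +
      (3 * (c0 ^ 2 * c2 + c0 * c1 ^ 2 + a * c1 * c2 ^ 2)) * w ^ 2 = 0 := by
    rw [← heq, ← hw]
    ring
  obtain ⟨e0, e1, e2⟩ := hKB1 L K a w ha hw hcube _ hA _ hI _ hII hkey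
  have h3' : (3 : L) ≠ 0 := by norm_num
  have f1 := (mul_eq_zero.1 e1).resolve_left h3'
  have f2 := (mul_eq_zero.1 e2).resolve_left h3'
  by_cases hc2 : c2 = 0
  · subst hc2
    have g : c0 ^ 2 * c1 = 0 := by linear_combination f1
    rcases mul_eq_zero.1 g with g | g
    · have g0 : c0 = 0 := by simpa using g
      subst g0
      right
      left
      linear_combination -e0
    · subst g
      left
      linear_combination -e0
  · have g : c2 * (a * c1 ^ 3 - c0 ^ 3) = 0 := by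
      linear_combination c1 * f1 - c0 * f2
    have g1 := (mul_eq_zero.1 g).resolve_left hc2
    have hc1 : c1 = 0 := by
      by_contra hc1
      refine hcube (c0 / c1) (div_mem h0 h1) ?_
      rw [div_pow, div_eq_iff (pow_ne_zero _ hc1)]
      linear_combination -g1
    subst hc1
    have hc0 : c0 = 0 := by
      have : c0 ^ 3 = 0 := by linear_combination -g1
      simpa using this
    subst hc0
    right
    right
    linear_combination -e0

end Pool.CXE
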