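import Pool.Agent.Work.MP_bf99ce_cxe.Interface

/-!
# Block KC0: the subfield `K(w)`
-/

set_option autoImplicit false

open Polynomial

namespace Pool.CXE

theorem KC0_inv (hKB1 : Stmt_KB1) (L : Type) [Field L] [CharZero L] (K : Subfield L) (a w : L)
    (ha : a ∈ K) (hw : w ^ 3 = a) (hna : ∀ c ∈ K, c ^ 3 ≠ a) (c0 : L) (h0 : c0 ∈ K) (c1 : L)
    (h1 : c1 ∈ K) (c2 : L) (h2 : c2 ∈ K) : ∃ d0 ∈ K, ∃ d1 ∈ K, ∃ d2 ∈ K,
      (c0 + c1 * w + c2 * w ^ 2)⁻¹ = d0 + d1 * w + d2 * w ^ 2 := by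
  by_cases hz : c0 + c1 * w + c2 * w ^ 2 = 0
  · exact ⟨0, K.zero_mem, 0, K.zero_mem, 0, K.zero_mem, by rw [hz]; simp⟩
  · obtain ⟨n, hn⟩ : ∃ n, n = c0 ^ 3 + a * c1 ^ 3 + a ^ 2 * c2 ^ 3 - 3 * a * c0 * c1 * c2 :=
      ⟨_, rfl⟩
    obtain ⟨s0, hs0⟩ : ∃ s, s = c0 ^ 2 - a * c1 * c2 := ⟨_, rfl⟩
    obtain ⟨s1, hs1⟩ : ∃ s, s = a * c2 ^ 2 - c0 * c1 := ⟨_, rfl⟩
    obtain ⟨s2, hs2⟩ : ∃ s, s = c1 ^ 2 - c0 * c2 := ⟨_, rfl⟩
    have m0 : s0 ∈ K := by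
      rw [hs0]
      exact K.sub_mem (pow_mem h0 2) (K.mul_mem (K.mul_mem ha h1) h2)
    have m1 : s1 ∈ K := by
      rw [hs1]
      exact K.sub_mem (K.mul_mem ha (pow_mem h2 2)) (K.mul_mem h0 h1)
    have m2 : s2 ∈ K := by
      rw [hs2]
      exact K.sub_mem (pow_mem h1 2) (K.mul_mem h0 h2)
    have h3 : (3 : L) ∈ K := ofNat_mem K 3
    have mn : n ∈ K := by
      rw [hn]
      exact K.sub_mem (K.add_mem (K.add_mem (pow_mem h0 3) (K.mul_mem ha (pow_mem h1 3)))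
        (K.mul_mem (pow_mem ha 2) (pow_mem h2 3)))
        (K.mul_mem (K.mul_mem (K.mul_mem (K.mul_mem h3 ha) h0) h1) h2)
    have hprod : (c0 + c1 * w + c2 * w ^ 2) * (s0 + s1 * w + s2 * w ^ 2) = n := by
      rw [hn, hs0, hs1, hs2]
      linear_combination ((c1 * (c1 ^ 2 - c0 * c2) + c2 * (a * c2 ^ 2 - c0 * c1)) +
        c2 * (c1 ^ 2 - c0 * c2) * w) * hw
    have hn0 : n ≠ 0 := by
      intro hn0
      rw [hn0] at hprod
      have hs : s0 + s1 * w + s2 * w ^ 2 = 0 := by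
        rcases mul_eq_zero.1 hprod with h | h
        · exact absurd h hz
        · exact h
      obtain ⟨e0, e1, e2⟩ := hKB1 L K a w ha hw hna s0 m0 s1 m1 s2 m2 hs
      rw [hs0] at e0
      rw [hs1] at e1
      rw [hs2] at e2
      have hc2 : c2 = 0 := by
        by_contra hc2
        have hcube : c1 ^ 3 = a * c2 ^ 3 := by
          linear_combination c1 * e2 - c2 * e1
        apply hna (c1 / c2) (K.div_mem h1 h2)
        rw [div_pow, hcube, mul_div_assoc, div_self (pow_ne_zero 3 hc2), mul_one]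
      subst hc2
      have hc1 : c1 = 0 := by
        have : c1 ^ 2 = 0 := by linear_combination e2
        exact pow_eq_zero_iff (two_ne_zero) |>.1 this
      have hc0 : c0 = 0 := by
        have : c0 ^ 2 = 0 := by linear_combination e0
        exact pow_eq_zero_iff (two_ne_zero) |>.1 this
      apply hz
      rw [hc0, hc1]
      ring
    refine ⟨s0 / n, K.div_mem m0 mn, s1 / n, K.div_mem m1 mn, s2 / n, K.div_mem m2 mn, ?_⟩
    apply inv_eq_of_mul_eq_one_right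
    have e : (c0 + c1 * w + c2 * w ^ 2) * (s0 / n + s1 / n * w + s2 / n * w ^ 2) =
        ((c0 + c1 * w + c2 * w ^ 2) * (s0 + s1 * w + s2 * w ^ 2)) / n := by
      ring
    rw [e, hprod, div_self hn0]

theorem p_KC0 (hKB1 : Stmt_KB1) : Stmt_KC0 := by
  intro L _ _ K a w ha hw hna
  refine ⟨{ carrier := {z | ∃ c0 ∈ K, ∃ c1 ∈ K, ∃ c2 ∈ K, z = c0 + c1 * w + c2 * w ^ 2}
            mul_mem' := ?_
            one_mem' := ?_
            add_mem' := ?_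
            zero_mem' := ?_
            neg_mem' := ?_
            inv_mem' := ?_ }, fun z => Iff.rfl⟩
  · rintro _ _ ⟨c0, h0, c1, h1, c2, h2, rfl⟩ ⟨d0, k0, d1, k1, d2, k2, rfl⟩
    refine ⟨c0 * d0 + a * (c1 * d2 + c2 * d1), ?_, c0 * d1 + c1 * d0 + a * (c2 * d2), ?_,
      c0 * d2 + c1 * d1 + c2 * d0, ?_, ?_⟩
    · exact K.add_mem (K.mul_mem h0 k0)
        (K.mul_mem ha (K.add_mem (K.mul_mem h1 k2) (K.mul_mem h2 k1)))
    · exact K.add_mem (K.add_mem (K.mul_mem h0 k1) (K.mul_mem h1 k0))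
        (K.mul_mem ha (K.mul_mem h2 k2))
    · exact K.add_mem (K.add_mem (K.mul_mem h0 k2) (K.mul_mem h1 k1)) (K.mul_mem h2 k0)
    · linear_combination ((c1 * d2 + c2 * d1) + c2 * d2 * w) * hw
  · exact ⟨1, K.one_mem, 0, K.zero_mem, 0, K.zero_mem, by ring⟩
  · rintro _ _ ⟨c0, h0, c1, h1, c2, h2, rfl⟩ ⟨d0, k0, d1, k1, d2, k2, rfl⟩
    exact ⟨c0 + d0, K.add_mem h0 k0, c1 + d1, K.add_mem h1 k1, c2 + d2, K.add_mem h2 k2, by ring⟩
  · exact ⟨0, K.zero_mem, 0, K.zero_mem, 0, K.zero_mem, by ring⟩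
  · rintro _ ⟨c0, h0, c1, h1, c2, h2, rfl⟩
    exact ⟨-c0, K.neg_mem h0, -c1, K.neg_mem h1, -c2, K.neg_mem h2, by ring⟩
  · rintro _ ⟨c0, h0, c1, h1, c2, h2, rfl⟩
    exact KC0_inv hKB1 L K a w ha hw hna c0 h0 c1 h1 c2 h2

end Pool.CXE
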