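import Pool.Agent.Work.MP_bf99ce_cxe.Interface

/-!
# Block KUA (helper46)

Infinite descent: if `p q³ = u c³`, `p` prime and `p` does not divide `u`, then `p` divides `c` and `q`.
-/

set_option autoImplicit false

open Polynomial

namespace Pool.CXE

theorem KUA_desc {R : Type} [CommRing R] [IsDomain R] [WfDvdMonoid R] (p u : R) (hp : Prime p)
    (hu : ¬ p ∣ u) (q : R) : q ≠ 0 → ∀ c : R, p * q ^ 3 ≠ u * c ^ 3 := by
  refine WellFounded.induction (C := fun q : R => q ≠ 0 → ∀ c : R, p * q ^ 3 ≠ u * c ^ 3)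
    (wellFounded_dvdNotUnit (α := R)) q ?_
  · intro q ih hq c h
    have h1 : p ∣ u * c ^ 3 := ⟨q ^ 3, h.symm⟩
    have h2 : p ∣ c := hp.dvd_of_dvd_pow ((hp.dvd_or_dvd h1).resolve_left hu)
    obtain ⟨c', rfl⟩ := h2
    have h3 : q ^ 3 = p * (p * (u * c' ^ 3)) := by
      apply mul_left_cancel₀ hp.ne_zero
      rw [h]
      ring
    have h4 : p ∣ q := hp.dvd_of_dvd_pow ⟨_, h3⟩
    obtain ⟨q', rfl⟩ := h4
    have hq' : q' ≠ 0 := by
      rintro rfl
      exact hq (mul_zero p)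
    refine ih q' ⟨hq', p, hp.not_isUnit, mul_comm p q'⟩ hq' c' ?_
    apply mul_left_cancel₀ (mul_ne_zero hp.ne_zero hp.ne_zero)
    have h5 : (p * q') ^ 3 = p * p * (p * q' ^ 3) := by ring
    have h6 : p * (p * (u * c' ^ 3)) = p * p * (u * c' ^ 3) := by ring
    rw [← h5, h3, h6]

theorem p_KUA (h1 : Stmt_PR1) (h2 : Stmt_PR2) : Stmt_KUA := by
  intro k _ _ e c q hq
  have hp := h1 k
  have hu := h2 k e
  refine ⟨?_, KUA_desc _ _ hp hu q hq c, ?_⟩
  · have h := KUA_desc (Pb k) 1 hp (fun h => hp.not_isUnit (isUnit_of_dvd_one h)) q hq c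
    rwa [one_mul] at h
  · exact KUA_desc _ _ hp (fun h => hu (hp.dvd_of_dvd_pow h)) q hq c

end Pool.CXE
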