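import Pool.Agent.Work.MP_bf99ce_cxe.Interface

set_option autoImplicit false

open Polynomial

namespace Pool.CXE

theorem p_KUC (hKB1 : Stmt_KB1) (hKB2 : Stmt_KB2) (hKC0 : Stmt_KC0) : Stmt_KUC := by
  intro L _ _ K a b w3 w4 ha hb hw3 hw4 hcube hbc c hcK hsum
  obtain ⟨K1, hK1⟩ := hKC0 L K a w3 ha hw3 hcube
  have hKK1 : ∀ z ∈ K, z ∈ K1 := fun z hz =>
    (hK1 z).2 ⟨z, hz, 0, K.zero_mem, 0, K.zero_mem, by ring⟩
  have hbcube : ∀ z ∈ K1, z ^ 3 ≠ b := by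
    intro z hz hzb
    obtain ⟨c0, h0, c1, h1, c2, h2, rfl⟩ := (hK1 z).1 hz
    rcases hKB2 L K a w3 ha hw3 hcube c0 h0 c1 h1 c2 h2 b hb hzb with h | h | h
    · exact (hbc c0 h0).1 h
    · exact (hbc c1 h1).2.1 h
    · exact (hbc c2 h2).2.2 h
  have hco : ∀ s : Fin 3, ∑ r : Fin 3, c r s * w3 ^ (r : ℕ) = 0 := by
    have hmem : ∀ s : Fin 3, ∑ r : Fin 3, c r s * w3 ^ (r : ℕ) ∈ K1 := by
      intro s
      rw [hK1]
      refine ⟨c 0 s, hcK 0 s, c 1 s, hcK 1 s, c 2 s, hcK 2 s, ?_⟩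
      rw [Fin.sum_univ_three]
      simp
    have h9 := hKB1 L K1 b w4 (hKK1 b hb) hw4 hbcube _ (hmem 0) _ (hmem 1) _ (hmem 2) (by
      rw [← hsum]
      simp only [Fin.sum_univ_three]
      simp only [Fin.val_zero, Fin.val_one, Fin.val_two, pow_zero, pow_one, mul_one]
      ring)
    obtain ⟨e0, e1, e2⟩ := h9
    intro s
    fin_cases s
    exacts [e0, e1, e2]
  intro r s
  have h3 := hco s
  have h4 := hKB1 L K a w3 ha hw3 hcube (c 0 s) (hcK 0 s) (c 1 s) (hcK 1 s) (c 2 s) (hcK 2 s)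
    (by
      rw [← h3, Fin.sum_univ_three]
      simp)
  obtain ⟨e0, e1, e2⟩ := h4
  fin_cases r
  exacts [e0, e1, e2]

end Pool.CXE
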