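import Pool.Agent.Work.MP_bf99ce_cxe.Interface

/-!
# Block KUM: the products `w3^r w4^s` are linearly independent over `k(z1, z2)`
-/

set_option autoImplicit false

open Polynomial

namespace Pool.CXE

theorem KUM_C {k L : Type} [Field k] [Field L] [Algebra k L] (z1 z2 : L) (q : k[X]) :
    ev2 k z1 z2 (C q) = aeval z1 q := by
  simp [ev2]

theorem KUM_X {k L : Type} [Field k] [Field L] [Algebra k L] (z1 z2 : L) :
    ev2 k z1 z2 X = z2 := by
  simp [ev2]

theorem KUM_Pa {k L : Type} [Field k] [Field L] [Algebra k L] (e : k) (z1 z2 : L) :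
    ev2 k z1 z2 (Pa e) = fa (algebraMap k L e) 1 z1 z2 := by
  unfold Pa fa
  simp only [map_add, map_mul, map_pow, map_neg, map_one, map_ofNat, KUM_C, KUM_X, aeval_C,
    aeval_X]

theorem KUM_Pb {k L : Type} [Field k] [Field L] [Algebra k L] (z1 z2 : L) :
    ev2 k z1 z2 (Pb k) = fb 1 z1 z2 := by
  unfold Pb fb
  simp only [map_add, map_mul, map_pow, map_neg, map_one, map_ofNat, KUM_C, KUM_X, aeval_C,
    aeval_X]

theorem KUM_frac {R L : Type} [CommRing R] [Nontrivial R] [Field L] (f : R →+* L) (c : L)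
    (hc : c ∈ Subfield.closure (f.range : Set L)) : ∃ p q : R, q ≠ 0 ∧ c * f q = f p := by
  rw [Subfield.mem_closure_iff] at hc
  obtain ⟨y, hy, z, hz, hyz⟩ := hc
  rw [Subring.closure_eq] at hy hz
  obtain ⟨p, rfl⟩ := hy
  obtain ⟨q, rfl⟩ := hz
  by_cases hq : f q = 0
  · refine ⟨0, 1, one_ne_zero, ?_⟩
    rw [← hyz, hq]
    simp
  · refine ⟨p, q, ?_, ?_⟩
    · intro h
      exact hq (by rw [h, map_zero])
    · rw [← hyz, div_mul_cancel₀ _ hq]

theorem p_KUM (hPR3 : Stmt_PR3) (hKUA : Stmt_KUA) (hKUC : Stmt_KUC) : Stmt_KUM := by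
  intro k L _ _ _ _ e x hx p hsum r s
  have : CharZero L := charZero_of_injective_algebraMap (algebraMap k L).injective
  obtain ⟨f, hf⟩ : ∃ f : k[X][X] →+* L, f = ev2 k (x 1) (x 2) := ⟨_, rfl⟩
  have hinj : Function.Injective f := by
    rw [injective_iff_map_eq_zero]
    intro q hq
    rw [hf] at hq
    exact hx.ind q hq
  have ha : x 3 ^ 3 = f (Pa e) := by
    rw [hf, KUM_Pa, hx.h3, hx.x0]
  have hb : x 4 ^ 3 = f (Pb k) := by
    rw [hf, KUM_Pb, hx.h4, hx.x0]
  have hmem : ∀ q : k[X][X], f q ∈ Subfield.closure (f.range : Set L) := fun q =>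
    Subfield.subset_closure ⟨q, rfl⟩
  rw [← hf] at hsum
  have key := hKUC L (Subfield.closure (f.range : Set L)) (f (Pa e)) (f (Pb k)) (x 3) (x 4)
    (hmem _) (hmem _) ha hb ?_ ?_ (fun r s => f (p r s)) (fun r s => hmem _) hsum r s
  · exact (map_eq_zero_iff f hinj).1 key
  · intro c hc hc3
    obtain ⟨P, Q, hQ, hPQ⟩ := KUM_frac f c hc
    apply hPR3 k e P Q hQ
    apply hinj
    rw [map_mul, map_pow, map_pow, ← hPQ, mul_pow, hc3]
  · intro c hc
    obtain ⟨P, Q, hQ, hPQ⟩ := KUM_frac f c hc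
    obtain ⟨h1, h2, h3⟩ := hKUA k e P Q hQ
    refine ⟨?_, ?_, ?_⟩
    · intro h
      apply h1
      apply hinj
      rw [map_mul, map_pow, map_pow, ← hPQ, mul_pow, h]
    · intro h
      apply h2
      apply hinj
      rw [map_mul, map_pow, map_mul, map_pow, ← hPQ, mul_pow, h]
      ring
    · intro h
      apply h3
      apply hinj
      rw [map_mul, map_pow, map_mul, map_pow, map_pow, ← hPQ, mul_pow, h]
      ring

end Pool.CXE
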