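import Pool.Agent.Work.MP_bf99ce_cxe.Interface

/-! Block LED (helper89). -/

set_option autoImplicit false

open Polynomial

namespace Pool.CXE

theorem LED_rest {Q : Type} [CommRing Q] (B : Q) (V v0 : ℕ) (T : ℕ → Q)
    (h0 : ∀ v < v0, T v = 0) :
    B ^ (v0 + 1) ∣ ∑ v ∈ (Finset.range V).erase v0, B ^ v * T v := by
  refine Finset.dvd_sum fun v hv' => ?_
  rcases Nat.lt_or_gt_of_ne (Finset.ne_of_mem_erase hv') with h | h
  · rw [h0 v h, mul_zero]
    exact dvd_zero _
  · exact Dvd.dvd.mul_right (pow_dvd_pow B h) _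

theorem LED_dvd {Q : Type} [CommRing Q] [IsDomain Q] (B : Q) (hB : B ≠ 0) (V v0 : ℕ)
    (hv : v0 < V) (T : ℕ → Q) (h0 : ∀ v < v0, T v = 0)
    (hs : ∑ v ∈ Finset.range V, B ^ v * T v = 0) : B ∣ T v0 := by
  have h1 := LED_rest B V v0 T h0
  rw [← Finset.add_sum_erase _ _ (Finset.mem_range.mpr hv)] at hs
  have h2 : B ^ (v0 + 1) ∣ B ^ v0 * T v0 := by
    rw [eq_neg_of_add_eq_zero_left hs]
    exact (dvd_neg).mpr h1
  rw [pow_succ] at h2
  exact (mul_dvd_mul_iff_left (pow_ne_zero _ hB)).mp h2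

theorem LED_pow {Q : Type} [CommRing Q] (B η : Q) (h : ∀ f, B ∣ η * f → B ∣ f) (n : ℕ) :
    ∀ f, B ∣ η ^ n * f → B ∣ f := by
  induction n with
  | zero =>
    intro f hf
    simpa using hf
  | succ n ih =>
    intro f hf
    rw [pow_succ', mul_assoc] at hf
    exact ih f (h _ hf)

theorem LED_powI {Q : Type} [CommRing Q] (I : Ideal Q) (ξ : Q) (h : ∀ f, ξ * f ∈ I → f ∈ I)
    (n : ℕ) : ∀ f, ξ ^ n * f ∈ I → f ∈ I := by
  induction n with
  | zero =>
    intro f hf
    simpa using hf
  | succ n ih =>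
    intro f hf
    rw [pow_succ', mul_assoc] at hf
    exact ih f (h _ hf)

theorem p_LED : Stmt_LED := by
  intro Q _ _ A B ξ η N hB hη hA hξ hN U V i j G hG hsum
  have key : ∀ v, v < V → ∀ u, u < U → G u v = 0 := by
    intro v
    induction v using Nat.strong_induction_on with
    | _ v ihv =>
    intro hv u
    induction u using Nat.strong_induction_on with
    | _ u ihu =>
    intro hu
    -- the inner sums
    set S : ℕ → Q := fun v => ∑ u ∈ Finset.range U, A ^ u * (ξ ^ i u * G u v) with hS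
    have hs2 : ∑ v ∈ Finset.range V, B ^ v * (η ^ j v * S v) = 0 := by
      rw [← hsum, Finset.sum_comm]
      refine Finset.sum_congr rfl fun v _ => ?_
      rw [hS]
      simp only [Finset.mul_sum]
      refine Finset.sum_congr rfl fun u _ => ?_
      ring
    have hz : ∀ v' < v, η ^ j v' * S v' = 0 := by
      intro v' hv'
      have : S v' = 0 := by
        refine Finset.sum_eq_zero fun u' hu' => ?_
        rw [ihv v' hv' (hv'.trans hv) u' (Finset.mem_range.mp hu'), mul_zero, mul_zero]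
      rw [this, mul_zero]
    have h1 : B ∣ S v :=
      LED_pow B η hη (j v) _ (LED_dvd B hB V v hv (fun v => η ^ j v * S v) hz hs2)
    -- the u part
    have h0 : ∀ u' < u, ξ ^ i u' * G u' v = 0 := by
      intro u' hu'
      rw [ihu u' hu' (hu'.trans hu), mul_zero]
    obtain ⟨W, hW⟩ := LED_rest A U u (fun u => ξ ^ i u * G u v) h0
    have hSv : S v = A ^ u * (ξ ^ i u * G u v + A * W) := by
      have : S v = A ^ u * (ξ ^ i u * G u v) +
          ∑ u' ∈ (Finset.range U).erase u, A ^ u' * (ξ ^ i u' * G u' v) :=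
        (Finset.add_sum_erase _ _ (Finset.mem_range.mpr hu)).symm
      rw [this, hW]
      ring
    rw [hSv] at h1
    obtain ⟨c, hc⟩ := LED_pow B A hA u _ h1
    have hmem : ξ ^ i u * G u v ∈ Ideal.span {A, B} := by
      rw [Ideal.mem_span_pair]
      exact ⟨-W, c, by rw [eq_sub_of_add_eq hc]; ring⟩
    exact hN _ (hG u v) (LED_powI _ ξ hξ (i u) _ hmem)
  intro u hu v hv
  exact key v hv u hu

end Pool.CXE
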