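import Pool.Agent.Work.MP_bf99ce_cxe.Interface

/-! # Block LIN: a linear form with a unit coefficient is not a zero divisor -/

set_option autoImplicit false

open Polynomial

noncomputable section

namespace Pool.CXE

theorem LIN_key {S : Type} [CommRing S] (u q : S) (hu : IsUnit u) (g : S[X])
    (h : (C u * X + C q) * g = 0) : g = 0 := by
  by_contra hg
  have h3 : ((C u * X + C q) * g).coeff (g.natDegree + 1) = 0 := by rw [h, coeff_zero]
  rw [add_mul, coeff_add, mul_assoc, coeff_C_mul, coeff_X_mul, coeff_C_mul,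
    coeff_eq_zero_of_natDegree_lt (Nat.lt_succ_self g.natDegree), mul_zero, add_zero] at h3
  rw [hu.mul_right_eq_zero] at h3
  exact hg (leadingCoeff_eq_zero.1 h3)

theorem p_LIN : Stmt_LIN := by
  intro R _ u0 u1 u2 hu f hf
  have hC : ∀ r : R, MvPolynomial.finSuccEquiv R 2 (MvPolynomial.C r) =
      C (MvPolynomial.C r) := fun r => (MvPolynomial.finSuccEquiv R 2).commutes r
  have h0 : MvPolynomial.finSuccEquiv R 2 (MvPolynomial.X 0) = X :=
    MvPolynomial.finSuccEquiv_X_zero
  have h1 : MvPolynomial.finSuccEquiv R 2 (MvPolynomial.X 1) = C (MvPolynomial.X 0) :=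
    MvPolynomial.finSuccEquiv_X_succ (j := 0)
  have h2 : MvPolynomial.finSuccEquiv R 2 (MvPolynomial.X 2) = C (MvPolynomial.X 1) :=
    MvPolynomial.finSuccEquiv_X_succ (j := 1)
  have h3 : MvPolynomial.finSuccEquiv R 2 ((MvPolynomial.C u0 * MvPolynomial.X 0 +
      MvPolynomial.C u1 * MvPolynomial.X 1 + MvPolynomial.C u2 * MvPolynomial.X 2) * f) = 0 := by
    rw [hf, map_zero]
  rw [map_mul, map_add, map_add, map_mul, map_mul, map_mul, hC, hC, hC, h0, h1, h2, add_assoc,
    ← C_mul, ← C_mul, ← C_add] at h3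
  have h4 := LIN_key _ _ (hu.map MvPolynomial.C) _ h3
  exact (MvPolynomial.finSuccEquiv R 2).injective (by rw [h4, map_zero])

end Pool.CXE
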