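import Pool.Agent.Work.MP_bf99ce_cxe.Interface

/-! # Block NZ1: reduction of a linear form modulo an ideal -/

set_option autoImplicit false

open Polynomial

noncomputable section

namespace Pool.CXE

theorem NZ1_ker (R : Type) [CommRing R] (J : Ideal R) (g : MvPolynomial (Fin 3) R) :
    g ∈ J.map (MvPolynomial.C : R →+* MvPolynomial (Fin 3) R) ↔
      MvPolynomial.map (Ideal.Quotient.mk J) g = 0 := by
  rw [MvPolynomial.mem_map_C_iff]
  constructor
  · intro h
    ext m
    rw [MvPolynomial.coeff_map, MvPolynomial.coeff_zero]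
    exact Ideal.Quotient.eq_zero_iff_mem.2 (h m)
  · intro h m
    apply Ideal.Quotient.eq_zero_iff_mem.1
    rw [← MvPolynomial.coeff_map, h, MvPolynomial.coeff_zero]

theorem p_NZ1 (hLIN : Stmt_LIN) : Stmt_NZ1 := by
  intro R _ J u0 u1 u2 hV f hf
  obtain ⟨V, hV⟩ := hV
  rw [NZ1_ker] at hf ⊢
  have hu : IsUnit (Ideal.Quotient.mk J u0) := by
    refine IsUnit.of_mul_eq_one (Ideal.Quotient.mk J V) ?_
    rw [← map_mul, ← map_one (Ideal.Quotient.mk J)]
    exact Ideal.Quotient.eq.2 hV
  refine hLIN (R ⧸ J) (Ideal.Quotient.mk J u0) (Ideal.Quotient.mk J u1)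
    (Ideal.Quotient.mk J u2) hu _ ?_
  simpa only [map_mul, map_add, MvPolynomial.map_C, MvPolynomial.map_X] using hf

end Pool.CXE
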