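import Pool.Agent.Work.MP_bf99ce_cxe.Interface

/-!
# Block NZD: nonzerodivisors modulo `Pa`, `Pb`
-/

set_option autoImplicit false

open Polynomial

namespace Pool.CXE

theorem NZD_dvd (R : Type) [CommRing R] (b : R) (f : MvPolynomial (Fin 3) R) :
    (MvPolynomial.C b ∣ f) ↔ f ∈ (Ideal.span {b}).map (MvPolynomial.C : R →+* MvPolynomial (Fin 3) R) := by
  rw [Ideal.map_span, Set.image_singleton, Ideal.mem_span_singleton]

theorem NZD_pair (R : Type) [CommRing R] (a b : R) :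
    (Ideal.span {MvPolynomial.C a, MvPolynomial.C b} : Ideal (MvPolynomial (Fin 3) R)) =
      (Ideal.span {a, b}).map (MvPolynomial.C : R →+* MvPolynomial (Fin 3) R) := by
  rw [Ideal.map_span, Set.image_pair]

theorem NZD_qb (k : Type) [Field k] : qb k =
    MvPolynomial.C (-9 : k[X][X]) * MvPolynomial.X 0 +
      MvPolynomial.C (3 * (C X) ^ 2 : k[X][X]) * MvPolynomial.X 1 +
      MvPolynomial.C (9 * X ^ 2 : k[X][X]) * MvPolynomial.X 2 := by
  unfold qb xb
  simp only [map_mul, map_pow, map_neg, map_ofNat]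
  ring

theorem NZD_qa (k : Type) [Field k] (e : k) : qa e =
    MvPolynomial.C (-9 + C (C e) * C X * X) * MvPolynomial.X 0 +
      MvPolynomial.C (9 * (C X) ^ 2 + C (C e) * X) * MvPolynomial.X 1 +
      MvPolynomial.C (3 * X ^ 2 + C (C e) * C X) * MvPolynomial.X 2 := by
  unfold qa xa
  simp only [map_add, map_mul, map_pow, map_neg, map_ofNat]
  ring

theorem NZD_Pb (k : Type) [Field k] [CharZero k] : Pb k ≠ 0 := by
  intro h
  have h1 : ((Pb k).eval 0).eval 0 = -3 := by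
    simp [Pb, fb]
  rw [h] at h1
  simp at h1

theorem p_NZD (hDEG : Stmt_DEG) (hUNT : Stmt_UNT) (hNZ1 : Stmt_NZ1) : Stmt_NZD := by
  intro k _ _ e he
  have hPb := NZD_Pb k
  refine ⟨?_, ?_, ?_, ?_, ?_⟩
  · intro h
    apply hPb
    apply MvPolynomial.C_injective (Fin 3) k[X][X]
    rw [h, map_zero]
  · intro f hf
    rw [NZD_dvd] at hf ⊢
    rw [NZD_qb] at hf
    refine hNZ1 k[X][X] (Ideal.span {Pb k}) (-9) (3 * (C X) ^ 2) (9 * X ^ 2)
      ⟨C (C (-9 : k)⁻¹), ?_⟩ f hf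
    have h9 : (-9 : k) ≠ 0 := by norm_num
    have h1 : (-9 : k[X][X]) = C (C (-9 : k)) := by
      simp only [map_neg, map_ofNat]
    rw [h1, ← C_mul, ← C_mul, mul_inv_cancel₀ h9, C_1, C_1, sub_self]
    exact Ideal.zero_mem _
  · intro f hf
    rw [MvPolynomial.C_dvd_iff_dvd_coeff] at hf ⊢
    intro d
    have h1 := hf d
    rw [MvPolynomial.coeff_C_mul] at h1
    exact (hDEG k e).1 _ h1
  · intro f hf
    rw [NZD_pair] at hf ⊢
    rw [NZD_qa] at hf
    exact hNZ1 k[X][X] (Ideal.span {Pa e, Pb k}) (-9 + C (C e) * C X * X)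
      (9 * (C X) ^ 2 + C (C e) * X) (3 * X ^ 2 + C (C e) * C X) (hUNT k e he) f hf
  · intro f hlow hf
    rw [NZD_pair, MvPolynomial.mem_map_C_iff] at hf
    ext1 d
    obtain ⟨c, hc⟩ := hlow d
    have h1 := hf d
    rw [hc] at h1
    have h2 := (hDEG k e).2 c h1
    rw [hc, MvPolynomial.coeff_zero]
    unfold low
    refine Finset.sum_eq_zero fun i _ => Finset.sum_eq_zero fun j _ => ?_
    rw [h2 i j]
    simp

end Pool.CXE
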