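import Pool.Agent.Work.MP_bf99ce_cxe.Interface

set_option autoImplicit false

open Polynomial

namespace Pool.CXE

theorem PR2_Pa {k : Type} [Field k] (e : k) :
    Pa e = C 1 * X ^ 3 + C 0 * X ^ 2 + C (C e * X) * X + C (3 * X ^ 3 - 3) := by
  simp only [Pa, fa, C_mul, C_sub, C_pow, C_1, C_0]
  have h3 : (C (3 : k[X]) : k[X][X]) = 3 := by
    simpa using (map_ofNat (C : k[X] →+* k[X][X]) 3)
  rw [h3]
  ring

theorem PR2_Pb {k : Type} [Field k] : Pb k = C 3 * X ^ 3 + C 0 * X ^ 2 + C 0 * X + C (X ^ 3 - 3) := by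
  simp only [Pb, fb, C_sub, C_pow, C_0]
  have h3 : (C (3 : k[X]) : k[X][X]) = 3 := by
    simpa using (map_ofNat (C : k[X] →+* k[X][X]) 3)
  rw [h3]
  ring

theorem PR2_three_ne {k : Type} [Field k] [CharZero k] : (3 : k[X]) ≠ 0 := by
  have : (3 : k[X]) = ((3 : ℕ) : k[X]) := by norm_num
  rw [this]
  exact Nat.cast_ne_zero.mpr (by norm_num)

theorem PR2_coeff {R : Type} [CommRing R] (a b c d : R) :
    (C a * X ^ 3 + C b * X ^ 2 + C c * X + C d : R[X]).coeff 3 = a ∧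
    (C a * X ^ 3 + C b * X ^ 2 + C c * X + C d : R[X]).coeff 0 = d := by
  constructor
  · simp [coeff_X, coeff_C, coeff_X_pow]
  · simp [coeff_X, coeff_C, coeff_X_pow]

theorem PR2_deg {R : Type} [CommRing R] (a b c d : R) (ha : a ≠ 0) :
    (C a * X ^ 3 + C b * X ^ 2 + C c * X + C d : R[X]).natDegree = 3 := by
  exact natDegree_cubic ha

theorem p_PR2 : Stmt_PR2 := by
  intro k _ _ e hdvd
  obtain ⟨g, hg⟩ := hdvd
  have hda : (Pa e).natDegree = 3 := by
    rw [PR2_Pa]; exact PR2_deg _ _ _ _ one_ne_zero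
  have hdb : (Pb k).natDegree = 3 := by
    rw [PR2_Pb]; exact PR2_deg _ _ _ _ PR2_three_ne
  have ha : Pa e ≠ 0 := by
    intro h
    rw [h] at hda
    simp at hda
  have hg0 : g ≠ 0 := by
    rintro rfl
    rw [mul_zero] at hg
    exact ha hg
  have hb0 : Pb k ≠ 0 := by
    intro h
    rw [h, zero_mul] at hg
    exact ha hg
  have hdeg : g.natDegree = 0 := by
    have h1 := natDegree_mul hb0 hg0
    rw [← hg, hda, hdb] at h1
    omega
  obtain ⟨g0, rfl⟩ : ∃ g0 : k[X], C g0 = g := ⟨g.coeff 0, (eq_C_of_natDegree_eq_zero hdeg).symm⟩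
  have h3 : (1 : k[X]) = 3 * g0 := by
    have h := congrArg (fun p : k[X][X] => p.coeff 3) hg
    rw [PR2_Pa, PR2_Pb] at h
    simp only [coeff_mul_C] at h
    rw [(PR2_coeff _ _ _ _).1, (PR2_coeff _ _ _ _).1] at h
    exact h
  have h0 : (3 * X ^ 3 - 3 : k[X]) = (X ^ 3 - 3) * g0 := by
    have h := congrArg (fun p : k[X][X] => p.coeff 0) hg
    rw [PR2_Pa, PR2_Pb] at h
    simp only [coeff_mul_C] at h
    rw [(PR2_coeff _ _ _ _).2, (PR2_coeff _ _ _ _).2] at h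
    exact h
  have h4 : (8 * X ^ 3 - 6 : k[X]) = 0 := by
    linear_combination (3 : k[X]) * h0 - (X ^ 3 - 3) * h3
  have h5 := congrArg (fun p : k[X] => p.eval 0) h4
  simp at h5

end Pool.CXE
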