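import Pool.Agent.Work.MP_bf99ce_cxe.Interface

set_option autoImplicit false

open Polynomial

namespace Pool.CXE

theorem PR3_Pa {k : Type} [Field k] (e : k) :
    Pa e = C 1 * X ^ 3 + C 0 * X ^ 2 + C (C e * X) * X + C (3 * X ^ 3 - 3) := by
  simp only [Pa, fa, C_mul, C_sub, C_pow, C_1, C_0]
  have h3 : (C (3 : k[X]) : k[X][X]) = 3 := by
    simpa using (map_ofNat (C : k[X] →+* k[X][X]) 3)
  rw [h3]
  ring

theorem PR3_coeff {R : Type} [CommRing R] (a b c d : R) :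
    (C a * X ^ 3 + C b * X ^ 2 + C c * X + C d : R[X]).coeff 3 = a ∧
    (C a * X ^ 3 + C b * X ^ 2 + C c * X + C d : R[X]).coeff 2 = b ∧
    (C a * X ^ 3 + C b * X ^ 2 + C c * X + C d : R[X]).coeff 0 = d := by
  refine ⟨?_, ?_, ?_⟩
  · simp [coeff_X, coeff_C, coeff_X_pow]
  · simp [coeff_X, coeff_C, coeff_X_pow]
  · simp [coeff_X, coeff_C, coeff_X_pow]

theorem PR3_cube {k : Type} [Field k] (g h : k[X]) :
    (C g * X + C h : k[X][X]) ^ 3 = C (g ^ 3) * X ^ 3 + C (3 * g ^ 2 * h) * X ^ 2 + C (3 * g * h ^ 2) * X + C (h ^ 3) := by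
  simp only [C_mul, C_pow]
  have h3 : (C (3 : k[X]) : k[X][X]) = 3 := by
    simpa using (map_ofNat (C : k[X] →+* k[X][X]) 3)
  rw [h3]
  ring

theorem p_PR3 : Stmt_PR3 := by
  intro k _ _ e c q hq heq
  have hdvd : q ∣ c := by
    have : q ^ 3 ∣ c ^ 3 := ⟨Pa e, by rw [← heq]; ring⟩
    exact (IsIntegrallyClosed.pow_dvd_pow_iff (by norm_num)).mp this
  obtain ⟨d, rfl⟩ := hdvd
  have hd : Pa e = d ^ 3 := by
    have h1 : q ^ 3 * Pa e = q ^ 3 * d ^ 3 := by
      rw [mul_comm, heq]; ring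
    exact mul_left_cancel₀ (pow_ne_zero 3 hq) h1
  have hda : (Pa e).natDegree = 3 := by
    rw [PR3_Pa]; exact natDegree_cubic one_ne_zero
  have hdeg : d.natDegree = 1 := by
    have h1 := congrArg natDegree hd
    rw [hda, natDegree_pow] at h1
    omega
  have hd1 : d = C (d.coeff 1) * X + C (d.coeff 0) :=
    eq_X_add_C_of_natDegree_le_one (by omega)
  generalize d.coeff 1 = g at hd1
  generalize d.coeff 0 = h at hd1
  subst hd1
  rw [PR3_cube, PR3_Pa] at hd
  have c3 : (1 : k[X]) = g ^ 3 := by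
    have h := congrArg (fun p : k[X][X] => p.coeff 3) hd
    rw [(PR3_coeff _ _ _ _).1, (PR3_coeff _ _ _ _).1] at h
    exact h
  have c2 : (0 : k[X]) = 3 * g ^ 2 * h := by
    have h := congrArg (fun p : k[X][X] => p.coeff 2) hd
    rw [(PR3_coeff _ _ _ _).2.1, (PR3_coeff _ _ _ _).2.1] at h
    exact h
  have c0 : (3 * X ^ 3 - 3 : k[X]) = h ^ 3 := by
    have h := congrArg (fun p : k[X][X] => p.coeff 0) hd
    rw [(PR3_coeff _ _ _ _).2.2, (PR3_coeff _ _ _ _).2.2] at h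
    exact h
  have hg : g ≠ 0 := by
    intro hg
    rw [hg] at c3
    simp at c3
  have hh : h = 0 := by
    have h3 : (3 : k[X]) ≠ 0 := by
      have : (3 : k[X]) = ((3 : ℕ) : k[X]) := by norm_num
      rw [this]
      exact Nat.cast_ne_zero.mpr (by norm_num)
    rcases mul_eq_zero.mp c2.symm with h' | h'
    · exact absurd h' (mul_ne_zero h3 (pow_ne_zero 2 hg))
    · exact h'
  rw [hh] at c0
  have h5 := congrArg (fun p : k[X] => p.eval 0) c0
  simp at h5

end Pool.CXE
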