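import Pool.Agent.Work.MP_bf99ce_cxe.Interface

set_option autoImplicit false

open Polynomial

noncomputable section

namespace Pool.CXE

theorem REL_evC {k L : Type} [Field k] [Field L] [Algebra k L] (e : k) (z1 z2 : L) :
    ev2 k z1 z2 (C (C e)) = algebraMap k L e := by
  simp [ev2]

theorem REL_evX1 {k L : Type} [Field k] [Field L] [Algebra k L] (z1 z2 : L) :
    ev2 k z1 z2 (C X) = z1 := by
  simp [ev2]

theorem REL_evX2 {k L : Type} [Field k] [Field L] [Algebra k L] (z1 z2 : L) :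
    ev2 k z1 z2 X = z2 := by
  simp [ev2]

theorem REL_x3 {k L : Type} [Field k] [CharZero k] [Field L] [Algebra k L] (e : k) (x : Fin 5 → L) (h : Dat k e x) :
    x 3 ≠ 0 := by
  intro h3
  have h1 : ev2 k (x 1) (x 2) (Pa e) = 0 := by
    have h2 := h.h3
    rw [h3, h.x0, fa] at h2
    rw [Pa, fa]
    simp only [map_add, map_mul, map_pow, map_neg, map_one, map_ofNat, REL_evC, REL_evX1, REL_evX2]
    rw [← h2]
    ring
  have h4 := congrArg (fun p : k[X][X] => (p.eval 0).eval 0) (h.ind _ h1)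
  simp [Pa, fa] at h4

theorem REL_x4 {k L : Type} [Field k] [CharZero k] [Field L] [Algebra k L] (e : k) (x : Fin 5 → L) (h : Dat k e x) :
    x 4 ≠ 0 := by
  intro h3
  have h1 : ev2 k (x 1) (x 2) (Pb k) = 0 := by
    have h2 := h.h4
    rw [h3, h.x0, fb] at h2
    rw [Pb, fb]
    simp only [map_add, map_mul, map_pow, map_neg, map_one, map_ofNat, REL_evX1, REL_evX2]
    rw [← h2]
    ring
  have h4 := congrArg (fun p : k[X][X] => (p.eval 0).eval 0) (h.ind _ h1)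
  simp [Pb, fb] at h4

theorem REL_fld {L : Type} [Field L] (w : L) (hw : w ≠ 0) (a b m : ℕ) (hb : b ≤ m) :
    w ^ (3 * m) * w ^ a * (3 * w ^ 2)⁻¹ ^ b = w ^ (a + 3 * m - 2 * b) * (3⁻¹ : L) ^ b := by
  have h1 : w ^ (3 * m) * w ^ a = w ^ (a + 3 * m - 2 * b) * (w ^ 2) ^ b := by
    rw [← pow_mul, ← pow_add, ← pow_add]
    congr 1
    omega
  rw [h1, mul_inv, mul_pow, inv_pow (w ^ 2)]
  have h2 : (w ^ 2) ^ b ≠ 0 := pow_ne_zero _ (pow_ne_zero _ hw)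
  field_simp

theorem REL_qa {k L : Type} [Field k] [Field L] [Algebra k L] (e : k) (x : Fin 5 → L) (h : Dat k e x) :
    bc k x (qa e) = xa (MvPolynomial.C (algebraMap k L e)) (MvPolynomial.C (x 0)) (MvPolynomial.C (x 1))
      (MvPolynomial.C (x 2)) (MvPolynomial.X 0) (MvPolynomial.X 1) (MvPolynomial.X 2) := by
  rw [bc, qa, xa, xa, h.x0]
  simp only [map_add, map_mul, map_pow, map_neg, map_one, map_ofNat, MvPolynomial.map_C, MvPolynomial.map_X,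
    REL_evC, REL_evX1, REL_evX2]

theorem REL_qb {k L : Type} [Field k] [Field L] [Algebra k L] (e : k) (x : Fin 5 → L) (h : Dat k e x) :
    bc k x (qb k) = xb (MvPolynomial.C (x 0)) (MvPolynomial.C (x 1))
      (MvPolynomial.C (x 2)) (MvPolynomial.X 0) (MvPolynomial.X 1) (MvPolynomial.X 2) := by
  rw [bc, qb, xb, xb, h.x0]
  simp only [map_add, map_mul, map_pow, map_neg, map_one, map_ofNat, MvPolynomial.map_C, MvPolynomial.map_X,
    REL_evX1, REL_evX2]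

theorem REL_hq {k L : Type} [Field k] [Field L] [Algebra k L] (c : k) (x : Fin 5 → L)
    (μ : (Fin 5 → ℕ) × (Fin 5 → ℕ)) :
    bc k x (hq c μ) = MvPolynomial.C (algebraMap k L c * (3⁻¹ : L) ^ (μ.2 3 + μ.2 4) * x 1 ^ μ.1 1 * x 2 ^ μ.1 2) *
      (MvPolynomial.X 0 ^ μ.2 0 * MvPolynomial.X 1 ^ μ.2 1 * MvPolynomial.X 2 ^ μ.2 2) := by
  rw [bc, hq]
  simp only [map_mul, map_pow, MvPolynomial.map_C, MvPolynomial.map_X, REL_evC, REL_evX1, REL_evX2, map_inv₀,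
    map_ofNat]

theorem p_REL : Stmt_REL := by
  intro k L _ _ _ _ e x hD p m c h0
  have h3 := REL_x3 e x hD
  have h4 := REL_x4 e x hD
  have key : ∀ μ ∈ II p m, MvPolynomial.C (x 3 ^ (μ.1 3 + 3 * m - 2 * μ.2 3) * x 4 ^ (μ.1 4 + 3 * m - 2 * μ.2 4)) *
      bc k x (hq (c μ) μ * qa e ^ μ.2 3 * qb k ^ μ.2 4) =
      MvPolynomial.C (x 3 ^ (3 * m) * x 4 ^ (3 * m)) * (c μ • evm e x μ) := by
    intro μ hμ
    have hm : ∑ i, μ.2 i = m := by
      rw [II, Finset.mem_filter, Finset.mem_product, Finset.Nat.mem_antidiagonalTuple,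
        Finset.Nat.mem_antidiagonalTuple] at hμ
      exact hμ.1.2
    have hb3 : μ.2 3 ≤ m := hm ▸ Finset.single_le_sum (f := μ.2) (fun i _ => Nat.zero_le _) (Finset.mem_univ 3)
    have hb4 : μ.2 4 ≤ m := hm ▸ Finset.single_le_sum (f := μ.2) (fun i _ => Nat.zero_le _) (Finset.mem_univ 4)
    have f3 := REL_fld (x 3) h3 (μ.1 3) (μ.2 3) m hb3
    have f4 := REL_fld (x 4) h4 (μ.1 4) (μ.2 4) m hb4
    have hs : c μ • evm e x μ = MvPolynomial.C (algebraMap k L (c μ)) * evm e x μ := by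
      rw [Algebra.smul_def]
      rfl
    rw [hs, evm, mon, Fin.prod_univ_five, Fin.prod_univ_five, map_mul (bc k x), map_mul (bc k x), map_pow (bc k x),
      map_pow (bc k x), REL_qa e x hD, REL_qb e x hD, REL_hq]
    have y0 : ys e x 0 = MvPolynomial.X 0 := rfl
    have y1 : ys e x 1 = MvPolynomial.X 1 := rfl
    have y2 : ys e x 2 = MvPolynomial.X 2 := rfl
    have y3 : ys e x 3 = MvPolynomial.C (3 * x 3 ^ 2)⁻¹ * xa (MvPolynomial.C (algebraMap k L e))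
      (MvPolynomial.C (x 0)) (MvPolynomial.C (x 1))
      (MvPolynomial.C (x 2)) (MvPolynomial.X 0) (MvPolynomial.X 1) (MvPolynomial.X 2) := rfl
    have y4 : ys e x 4 = MvPolynomial.C (3 * x 4 ^ 2)⁻¹ * xb (MvPolynomial.C (x 0)) (MvPolynomial.C (x 1))
      (MvPolynomial.C (x 2)) (MvPolynomial.X 0) (MvPolynomial.X 1) (MvPolynomial.X 2) := rfl
    rw [y0, y1, y2, y3, y4]
    generalize (xa (MvPolynomial.C (algebraMap k L e))
      (MvPolynomial.C (x 0)) (MvPolynomial.C (x 1))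
      (MvPolynomial.C (x 2)) (MvPolynomial.X 0) (MvPolynomial.X 1) (MvPolynomial.X 2) : MvPolynomial (Fin 3) L) = ξ
    generalize (xb (MvPolynomial.C (x 0)) (MvPolynomial.C (x 1))
      (MvPolynomial.C (x 2)) (MvPolynomial.X 0) (MvPolynomial.X 1) (MvPolynomial.X 2) : MvPolynomial (Fin 3) L) = η
    have hx0 : x 0 = 1 := hD.x0
    have g : x 3 ^ (μ.1 3 + 3 * m - 2 * μ.2 3) * x 4 ^ (μ.1 4 + 3 * m - 2 * μ.2 4) *
        (algebraMap k L (c μ) * (3⁻¹ : L) ^ (μ.2 3 + μ.2 4) * x 1 ^ μ.1 1 * x 2 ^ μ.1 2) =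
        x 3 ^ (3 * m) * x 4 ^ (3 * m) * algebraMap k L (c μ) *
        (x 0 ^ μ.1 0 * x 1 ^ μ.1 1 * x 2 ^ μ.1 2 * x 3 ^ μ.1 3 * x 4 ^ μ.1 4) *
        (3 * x 3 ^ 2)⁻¹ ^ μ.2 3 * (3 * x 4 ^ 2)⁻¹ ^ μ.2 4 := by
      rw [hx0, one_pow, pow_add]
      linear_combination (-(x 4 ^ (μ.1 4 + 3 * m - 2 * μ.2 4) * (3⁻¹ : L) ^ μ.2 4) *
        algebraMap k L (c μ) * x 1 ^ μ.1 1 * x 2 ^ μ.1 2) * f3 -
        (x 3 ^ (3 * m) * x 3 ^ μ.1 3 * (3 * x 3 ^ 2)⁻¹ ^ μ.2 3 *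
        algebraMap k L (c μ) * x 1 ^ μ.1 1 * x 2 ^ μ.1 2) * f4
    have g' := congrArg (MvPolynomial.C (σ := Fin 3)) g
    simp only [map_mul, map_pow] at g' ⊢
    linear_combination (MvPolynomial.X 0 ^ μ.2 0 * MvPolynomial.X 1 ^ μ.2 1 * MvPolynomial.X 2 ^ μ.2 2 *
      ξ ^ μ.2 3 * η ^ μ.2 4) * g'
  rw [Finset.sum_congr rfl key, ← Finset.mul_sum, h0, mul_zero]

end Pool.CXE
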