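import Pool.Agent.Work.MP_bf99ce_cxe.Interface

set_option autoImplicit false

open Polynomial

namespace Pool.CXE

theorem SP1_evC {k L : Type} [Field k] [Field L] [Algebra k L] (z1 z2 : L) (p : k[X]) :
    ev2 k z1 z2 (C p) = aeval z1 p := by
  simp [ev2]

theorem SP1_evX {k L : Type} [Field k] [Field L] [Algebra k L] (z1 z2 : L) :
    ev2 k z1 z2 X = z2 := by
  simp [ev2]

theorem SP1_ev2 {k L : Type} [Field k] [Field L] [Algebra k L] (e : k) (z1 z2 : L) :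
    ev2 k z1 z2 (Pa e) = fa (algebraMap k L e) 1 z1 z2 := by
  simp only [Pa, fa, map_add, map_mul, map_pow, map_neg, map_ofNat, map_one, SP1_evC, SP1_evX, aeval_C, aeval_X]

theorem SP1_ev2b {k L : Type} [Field k] [Field L] [Algebra k L] (z1 z2 : L) :
    ev2 k z1 z2 (Pb k) = fb 1 z1 z2 := by
  simp only [Pb, fb, map_add, map_mul, map_pow, map_neg, map_ofNat, map_one, SP1_evC, SP1_evX, aeval_X]

theorem SP1_x3 {k L : Type} [Field k] [CharZero k] [Field L] [Algebra k L] (e : k) (x : Fin 5 → L)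
    (D : Dat k e x) : x 3 ≠ 0 := by
  intro h
  have h3 := D.h3
  rw [h, D.x0, ← SP1_ev2] at h3
  have h4 := D.ind _ (by rw [← h3]; norm_num)
  have h5 := congrArg (fun p => (p.eval 0).eval 0) h4
  simp [Pa, fa] at h5

theorem SP1_x4 {k L : Type} [Field k] [CharZero k] [Field L] [Algebra k L] (e : k) (x : Fin 5 → L)
    (D : Dat k e x) : x 4 ≠ 0 := by
  intro h
  have h3 := D.h4
  rw [h, D.x0, ← SP1_ev2b (k := k)] at h3
  have h4 := D.ind _ (by rw [← h3]; norm_num)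
  have h5 := congrArg (fun p => (p.eval 0).eval 0) h4
  simp [Pb, fb] at h5

theorem SP1_mul {A : Type} [CommRing A] (x y : Fin 5 → A) (α γ β δ : Fin 5 → ℕ) :
    mon x y (α + γ, β + δ) = mon x y (α, β) * mon x y (γ, δ) := by
  simp only [mon, Pi.add_apply, pow_add, Finset.prod_mul_distrib]
  ring

theorem SP1_mul0 {A : Type} [CommRing A] (x y : Fin 5 → A) (α γ β : Fin 5 → ℕ) :
    mon x y (α + γ, β) = mon x y (α, β) * mon x y (γ, 0) := by
  have := SP1_mul x y α γ β 0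
  rw [add_zero] at this
  exact this

theorem SP1_x {A : Type} [CommRing A] (x y : Fin 5 → A) (i : Fin 5) (n : ℕ) :
    mon x y (Pi.single i n, 0) = x i ^ n := by
  simp only [mon, Pi.zero_apply, pow_zero, Finset.prod_const_one, mul_one]
  rw [Finset.prod_eq_single i]
  · rw [Pi.single_eq_same]
  · intro j _ hj
    rw [Pi.single_eq_of_ne hj, pow_zero]
  · intro h
    exact absurd (Finset.mem_univ i) h

theorem SP1_xy {A : Type} [CommRing A] (x y : Fin 5 → A) (γ : Fin 5 → ℕ) (j : Fin 5) :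
    mon x y (γ, Pi.single j 1) = mon x y (γ, 0) * y j := by
  have h1 := SP1_mul x y γ 0 0 (Pi.single j 1)
  rw [add_zero, zero_add] at h1
  rw [h1]
  congr 1
  simp only [mon, Pi.zero_apply, pow_zero, Finset.prod_const_one, one_mul]
  rw [Finset.prod_eq_single j]
  · rw [Pi.single_eq_same, pow_one]
  · intro i _ hi
    rw [Pi.single_eq_of_ne hi, pow_zero]
  · intro h
    exact absurd (Finset.mem_univ j) h

theorem SP1_smul {k L : Type} [Field k] [Field L] [Algebra k L] (c : k) (f : MvPolynomial (Fin 3) L) :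
    c • f = MvPolynomial.C (algebraMap k L c) * f := by
  rw [Algebra.smul_def, MvPolynomial.algebraMap_apply]

theorem p_SP1 : Stmt_SP1 := by
  intro k L _ _ _ _ e x D α β
  have hx3 := SP1_x3 e x D
  have hx4 := SP1_x4 e x D
  have h3L : x 3 ≠ 0 := hx3
  have hchar : (3 : L) ≠ 0 := by
    have h1 : (3 : k) ≠ 0 := by norm_num
    intro h
    apply h1
    apply (algebraMap k L).injective
    rw [map_zero, map_ofNat, h]
  obtain ⟨M, hM⟩ : ∃ M : MvPolynomial (Fin 3) L, M = evm e x (α, β) := ⟨_, rfl⟩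
  obtain ⟨X0, hX0⟩ : ∃ X0 : MvPolynomial (Fin 3) L, X0 = MvPolynomial.C (x 0) := ⟨_, rfl⟩
  obtain ⟨X1, hX1⟩ : ∃ X1 : MvPolynomial (Fin 3) L, X1 = MvPolynomial.C (x 1) := ⟨_, rfl⟩
  obtain ⟨X2, hX2⟩ : ∃ X2 : MvPolynomial (Fin 3) L, X2 = MvPolynomial.C (x 2) := ⟨_, rfl⟩
  obtain ⟨X3, hX3⟩ : ∃ X3 : MvPolynomial (Fin 3) L, X3 = MvPolynomial.C (x 3) := ⟨_, rfl⟩
  obtain ⟨X4, hX4⟩ : ∃ X4 : MvPolynomial (Fin 3) L, X4 = MvPolynomial.C (x 4) := ⟨_, rfl⟩
  obtain ⟨E, hE⟩ : ∃ E : MvPolynomial (Fin 3) L, E = MvPolynomial.C (algebraMap k L e) := ⟨_, rfl⟩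
  have H3 : X3 ^ 3 = -3 * X0 ^ 3 + 3 * X1 ^ 3 + X2 ^ 3 + E * X0 * X1 * X2 := by
    have := congrArg (MvPolynomial.C (σ := Fin 3)) D.h3
    simp only [fa, map_pow, map_add, map_mul, map_neg, map_ofNat] at this
    rw [hX0, hX1, hX2, hX3, hE]
    exact this
  have H4 : X4 ^ 3 = -3 * X0 ^ 3 + X1 ^ 3 + 3 * X2 ^ 3 := by
    have := congrArg (MvPolynomial.C (σ := Fin 3)) D.h4
    simp only [fb, map_pow, map_add, map_mul, map_neg, map_ofNat] at this
    rw [hX0, hX1, hX2, hX4]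
    exact this
  have Y3 : 3 * X3 ^ 2 * ys e x 3 = xa E X0 X1 X2 (ys e x 0) (ys e x 1) (ys e x 2) := by
    have h1 : ys e x 3 = MvPolynomial.C (3 * x 3 ^ 2)⁻¹ *
        xa E X0 X1 X2 (ys e x 0) (ys e x 1) (ys e x 2) := by
      rw [hX0, hX1, hX2, hE]; rfl
    have h2 : (3 * X3 ^ 2 : MvPolynomial (Fin 3) L) * MvPolynomial.C (3 * x 3 ^ 2)⁻¹ = 1 := by
      have h4 : (3 * X3 ^ 2 : MvPolynomial (Fin 3) L) = MvPolynomial.C (3 * x 3 ^ 2) := by
        rw [hX3, map_mul, map_pow, map_ofNat]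
      rw [h4, ← map_mul, mul_inv_cancel₀ (mul_ne_zero hchar (pow_ne_zero 2 hx3)), map_one]
    rw [h1, ← mul_assoc, h2, one_mul]
  have Y4 : 3 * X4 ^ 2 * ys e x 4 = xb X0 X1 X2 (ys e x 0) (ys e x 1) (ys e x 2) := by
    have h1 : ys e x 4 = MvPolynomial.C (3 * x 4 ^ 2)⁻¹ *
        xb X0 X1 X2 (ys e x 0) (ys e x 1) (ys e x 2) := by
      rw [hX0, hX1, hX2]; rfl
    have h2 : (3 * X4 ^ 2 : MvPolynomial (Fin 3) L) * MvPolynomial.C (3 * x 4 ^ 2)⁻¹ = 1 := by
      have h4 : (3 * X4 ^ 2 : MvPolynomial (Fin 3) L) = MvPolynomial.C (3 * x 4 ^ 2) := by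
        rw [hX4, map_mul, map_pow, map_ofNat]
      rw [h4, ← map_mul, mul_inv_cancel₀ (mul_ne_zero hchar (pow_ne_zero 2 hx4)), map_one]
    rw [h1, ← mul_assoc, h2, one_mul]
  have S1 : ∀ (i : Fin 5) (n : ℕ), evm e x (α + Pi.single i n, β) = M * MvPolynomial.C (x i) ^ n := by
    intro i n
    rw [hM]
    show mon _ _ _ = mon _ _ _ * _
    rw [SP1_mul0, SP1_x]
  have S2 : ∀ (i j : Fin 5) (n : ℕ), evm e x (α + Pi.single i n, β + Pi.single j 1) =
      M * (MvPolynomial.C (x i) ^ n * ys e x j) := by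
    intro i j n
    rw [hM]
    show mon _ _ _ = mon _ _ _ * _
    rw [SP1_mul, SP1_xy, SP1_x]
  have S3 : ∀ (i i' j : Fin 5), evm e x (α + (Pi.single i 1 + Pi.single i' 1), β + Pi.single j 1) =
      M * (MvPolynomial.C (x i) * MvPolynomial.C (x i') * ys e x j) := by
    intro i i' j
    rw [hM]
    show mon _ _ _ = mon _ _ _ * _
    rw [SP1_mul, SP1_xy, SP1_mul0, SP1_x, SP1_x, pow_one, pow_one]
  have S4 : evm e x (α + (Pi.single 0 1 + Pi.single 1 1 + Pi.single 2 1), β) =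
      M * (X0 * X1 * X2) := by
    rw [hM, hX0, hX1, hX2]
    show mon _ _ _ = mon _ _ _ * _
    rw [SP1_mul0, SP1_mul0, SP1_mul0, SP1_x, SP1_x, SP1_x, pow_one, pow_one, pow_one]
  have K1 : ∀ f : MvPolynomial (Fin 3) L, (8 : k) • f = 8 * f := by
    intro f; rw [SP1_smul, map_ofNat, map_ofNat]
  have K2 : ∀ f : MvPolynomial (Fin 3) L, (6 : k) • f = 6 * f := by
    intro f; rw [SP1_smul, map_ofNat, map_ofNat]
  have K3 : ∀ f : MvPolynomial (Fin 3) L, (3 : k) • f = 3 * f := by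
    intro f; rw [SP1_smul, map_ofNat, map_ofNat]
  have K4 : ∀ f : MvPolynomial (Fin 3) L, (9 : k) • f = 9 * f := by
    intro f; rw [SP1_smul, map_ofNat, map_ofNat]
  have K5 : ∀ f : MvPolynomial (Fin 3) L, (-9 : k) • f = -9 * f := by
    intro f; rw [SP1_smul, map_neg, map_ofNat, map_neg, map_ofNat]
  have K6 : ∀ f : MvPolynomial (Fin 3) L, e • f = E * f := by
    intro f; rw [SP1_smul, hE]
  have K7 : ∀ f : MvPolynomial (Fin 3) L, (3 * e) • f = 3 * E * f := by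
    intro f; rw [SP1_smul, hE, map_mul, map_ofNat, map_mul, map_ofNat]
  rw [S4, S1, S1, S1, S1, S1, S2, S2, S2, S2, S2, S3, S3, S3, K1, K1, K2, K3, K3, K7, K6, K3, K5, K6,
    K4, K6, K3, K6, K3, K3, K4, ← hX0, ← hX1, ← hX2, ← hX3, ← hX4]
  unfold xa at Y3
  unfold xb at Y4
  refine ⟨?_, ?_, ?_, ?_⟩
  · linear_combination (-3 * M) * H3 + M * H4
  · linear_combination M * H3 - 3 * M * H4
  · linear_combination M * Y3
  · linear_combination M * Y4

end Pool.CXE
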