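import Pool.Agent.Work.MP_bf99ce_cxe.Interface

set_option autoImplicit false

open Polynomial

noncomputable section

namespace Pool.CXE

theorem SPL_sum {L : Type} [Field L] (a b : ℕ) (ha : a < 3) (hb : b < 3) (A u v : L) :
    ∑ r : Fin 3, ∑ s : Fin 3, (if a = (r : ℕ) ∧ b = (s : ℕ) then A else 0) * (u ^ (r : ℕ) * v ^ (s : ℕ)) =
      A * (u ^ a * v ^ b) := by
  interval_cases a <;> interval_cases b <;> simp [Fin.sum_univ_three]

theorem SPL_evC {k L : Type} [Field k] [Field L] [Algebra k L] (e : k) (z1 z2 : L) :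
    ev2 k z1 z2 (C (C e)) = algebraMap k L e := by
  simp [ev2]

theorem SPL_evX1 {k L : Type} [Field k] [Field L] [Algebra k L] (z1 z2 : L) :
    ev2 k z1 z2 (C X) = z1 := by
  simp [ev2]

theorem SPL_evX2 {k L : Type} [Field k] [Field L] [Algebra k L] (z1 z2 : L) :
    ev2 k z1 z2 X = z2 := by
  simp [ev2]

theorem SPL_Pa {k L : Type} [Field k] [Field L] [Algebra k L] (e : k) (x : Fin 5 → L) (h : Dat k e x) :
    ev2 k (x 1) (x 2) (Pa e) = x 3 ^ 3 := by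
  rw [h.h3, Pa, fa, fa, h.x0]
  simp only [map_add, map_mul, map_pow, map_neg, map_one, map_ofNat, SPL_evC, SPL_evX1, SPL_evX2]

theorem SPL_Pb {k L : Type} [Field k] [Field L] [Algebra k L] (e : k) (x : Fin 5 → L) (h : Dat k e x) :
    ev2 k (x 1) (x 2) (Pb k) = x 4 ^ 3 := by
  rw [h.h4, Pb, fb, fb, h.x0]
  simp only [map_add, map_mul, map_pow, map_neg, map_one, map_ofNat, SPL_evX1, SPL_evX2]

theorem p_SPL (hK : Stmt_KUM) : Stmt_SPL := by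
  intro k L _ _ _ _ e x hD ι T n3 n4 h h0 r s
  by_cases hrs : r < 3 ∧ s < 3
  · ext1 d
    have hd := hK k L e x hD (fun r s => ∑ μ ∈ T with n3 μ % 3 = (r : ℕ) ∧ n4 μ % 3 = (s : ℕ),
      Pa e ^ (n3 μ / 3) * Pb k ^ (n4 μ / 3) * MvPolynomial.coeff d (h μ)) ?_ ⟨r, hrs.1⟩ ⟨s, hrs.2⟩
    · rw [MvPolynomial.coeff_sum, MvPolynomial.coeff_zero]
      simp only [MvPolynomial.coeff_C_mul]
      exact hd
    · have e1 : ∀ r s : Fin 3, ev2 k (x 1) (x 2) (∑ μ ∈ T with n3 μ % 3 = (r : ℕ) ∧ n4 μ % 3 = (s : ℕ),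
          Pa e ^ (n3 μ / 3) * Pb k ^ (n4 μ / 3) * MvPolynomial.coeff d (h μ)) * (x 3 ^ (r : ℕ) * x 4 ^ (s : ℕ)) =
          ∑ μ ∈ T, (if n3 μ % 3 = (r : ℕ) ∧ n4 μ % 3 = (s : ℕ) then
            (x 3 ^ 3) ^ (n3 μ / 3) * (x 4 ^ 3) ^ (n4 μ / 3) * ev2 k (x 1) (x 2) (MvPolynomial.coeff d (h μ)) else 0) *
            (x 3 ^ (r : ℕ) * x 4 ^ (s : ℕ)) := by
        intro r s
        rw [← Finset.sum_mul, ← Finset.sum_filter, map_sum]
        congr 1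
        refine Finset.sum_congr rfl fun μ _ => ?_
        rw [map_mul, map_mul, map_pow, map_pow, SPL_Pa e x hD, SPL_Pb e x hD]
      simp only [e1]
      have e2 : ∀ r : Fin 3, ∑ s : Fin 3, ∑ μ ∈ T, (if n3 μ % 3 = (r : ℕ) ∧ n4 μ % 3 = (s : ℕ) then
            (x 3 ^ 3) ^ (n3 μ / 3) * (x 4 ^ 3) ^ (n4 μ / 3) * ev2 k (x 1) (x 2) (MvPolynomial.coeff d (h μ)) else 0) *
            (x 3 ^ (r : ℕ) * x 4 ^ (s : ℕ)) = ∑ μ ∈ T, ∑ s : Fin 3, (if n3 μ % 3 = (r : ℕ) ∧ n4 μ % 3 = (s : ℕ) then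
            (x 3 ^ 3) ^ (n3 μ / 3) * (x 4 ^ 3) ^ (n4 μ / 3) * ev2 k (x 1) (x 2) (MvPolynomial.coeff d (h μ)) else 0) *
            (x 3 ^ (r : ℕ) * x 4 ^ (s : ℕ)) := fun r => Finset.sum_comm
      simp only [e2]
      rw [Finset.sum_comm]
      have e3 := congrArg (MvPolynomial.coeff d) h0
      rw [MvPolynomial.coeff_sum, MvPolynomial.coeff_zero] at e3
      refine Eq.trans (Finset.sum_congr rfl fun μ _ => ?_) e3
      rw [SPL_sum _ _ (Nat.mod_lt _ (by norm_num)) (Nat.mod_lt _ (by norm_num)), MvPolynomial.coeff_C_mul, bc,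
        MvPolynomial.coeff_map]
      have h3 : x 3 ^ n3 μ = (x 3 ^ 3) ^ (n3 μ / 3) * x 3 ^ (n3 μ % 3) := by
        rw [← pow_mul, ← pow_add, Nat.div_add_mod]
      have h4 : x 4 ^ n4 μ = (x 4 ^ 3) ^ (n4 μ / 3) * x 4 ^ (n4 μ % 3) := by
        rw [← pow_mul, ← pow_add, Nat.div_add_mod]
      rw [h3, h4]
      ring
  · refine Finset.sum_eq_zero fun μ hμ => ?_
    rw [Finset.mem_filter] at hμ
    exact absurd ⟨hμ.2.1 ▸ Nat.mod_lt _ (by norm_num), hμ.2.2 ▸ Nat.mod_lt _ (by norm_num)⟩ hrs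

end Pool.CXE
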