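import Pool.Agent.Work.MP_bf99ce_cxe.Interface

/-!
# Block SPN: the normal monomials generate
-/

set_option autoImplicit false

open Polynomial

namespace Pool.CXE

theorem SPN_sub (α : Fin 5 → ℕ) (j : Fin 5) (n : ℕ) (h : n ≤ α j) :
    ∃ α' : Fin 5 → ℕ, α = α' + Pi.single j n := by
  refine ⟨fun i => α i - (Pi.single j n : Fin 5 → ℕ) i, ?_⟩
  funext i
  rw [Pi.add_apply]
  by_cases hi : i = j
  · subst hi
    rw [Pi.single_eq_same]
    omega
  · rw [Pi.single_eq_of_ne hi]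
    omega

theorem SPN_smul {k V : Type} [Field k] [AddCommGroup V] [Module k V] (S : Submodule k V) (c : k)
    (hc : c ≠ 0) (v : V) (h : c • v ∈ S) : v ∈ S := (Submodule.smul_mem_iff S hc).1 h

theorem p_SPN (hSP1 : Stmt_SP1) : Stmt_SPN := by
  intro k L _ _ _ _ e x hx p m
  have key : ∀ N : ℕ, ∀ α β : Fin 5 → ℕ, 3 * (β 3 + β 4) + α 1 + α 2 < N →
      α 0 + α 1 + α 2 + α 3 + α 4 = p → β 0 + β 1 + β 2 + β 3 + β 4 = m → evm e x (α, β) ∈
        Submodule.span k (evm e x '' (II p m : Set ((Fin 5 → ℕ) × (Fin 5 → ℕ)))) := by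
    intro N
    induction N with
    | zero =>
      intro α β h
      omega
    | succ N ih =>
      intro α β hN hα hβ
      by_cases h1 : 3 ≤ α 1
      · obtain ⟨α', rfl⟩ := SPN_sub α 1 3 h1
        simp [Pi.single_apply] at hα hN
        apply SPN_smul _ (8 : k) (by norm_num)
        rw [(hSP1 k L e x hx α' β).1]
        refine Submodule.sub_mem _ (Submodule.sub_mem _ (Submodule.add_mem _
          (Submodule.smul_mem _ _ (ih _ _ ?_ ?_ hβ)) (Submodule.smul_mem _ _ (ih _ _ ?_ ?_ hβ)))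
          (ih _ _ ?_ ?_ hβ)) (Submodule.smul_mem _ _ (ih _ _ ?_ ?_ hβ)) <;>
        simp [Pi.single_apply] <;> omega
      by_cases h2 : 3 ≤ α 2
      · obtain ⟨α', rfl⟩ := SPN_sub α 2 3 h2
        simp [Pi.single_apply] at hα hN
        apply SPN_smul _ (8 : k) (by norm_num)
        rw [(hSP1 k L e x hx α' β).2.1]
        refine Submodule.add_mem _ (Submodule.add_mem _ (Submodule.sub_mem _
          (Submodule.smul_mem _ _ (ih _ _ ?_ ?_ hβ)) (ih _ _ ?_ ?_ hβ))
          (Submodule.smul_mem _ _ (ih _ _ ?_ ?_ hβ))) (Submodule.smul_mem _ _ (ih _ _ ?_ ?_ hβ)) <;>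
        simp [Pi.single_apply] <;> omega
      by_cases h3 : 2 ≤ α 3 ∧ 1 ≤ β 3
      · obtain ⟨h3a, h3b⟩ := h3
        obtain ⟨α', rfl⟩ := SPN_sub α 3 2 h3a
        obtain ⟨β', rfl⟩ := SPN_sub β 3 1 h3b
        simp [Pi.single_apply] at hα hβ hN
        apply SPN_smul _ (3 : k) (by norm_num)
        rw [(hSP1 k L e x hx α' β').2.2.1]
        refine Submodule.add_mem _ (Submodule.add_mem _ (Submodule.add_mem _ (Submodule.add_mem _
          (Submodule.add_mem _ (Submodule.smul_mem _ _ (ih _ _ ?_ ?_ ?_))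
            (Submodule.smul_mem _ _ (ih _ _ ?_ ?_ ?_)))
          (Submodule.smul_mem _ _ (ih _ _ ?_ ?_ ?_))) (Submodule.smul_mem _ _ (ih _ _ ?_ ?_ ?_)))
          (Submodule.smul_mem _ _ (ih _ _ ?_ ?_ ?_))) (Submodule.smul_mem _ _ (ih _ _ ?_ ?_ ?_)) <;>
        simp [Pi.single_apply] <;> omega
      by_cases h4 : 2 ≤ α 4 ∧ 1 ≤ β 4
      · obtain ⟨h4a, h4b⟩ := h4
        obtain ⟨α', rfl⟩ := SPN_sub α 4 2 h4a
        obtain ⟨β', rfl⟩ := SPN_sub β 4 1 h4b
        simp [Pi.single_apply] at hα hβ hN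
        apply SPN_smul _ (3 : k) (by norm_num)
        rw [(hSP1 k L e x hx α' β').2.2.2]
        refine Submodule.add_mem _ (Submodule.add_mem _
          (Submodule.smul_mem _ _ (ih _ _ ?_ ?_ ?_)) (Submodule.smul_mem _ _ (ih _ _ ?_ ?_ ?_)))
          (Submodule.smul_mem _ _ (ih _ _ ?_ ?_ ?_)) <;>
        simp [Pi.single_apply] <;> omega
      refine Submodule.subset_span ⟨(α, β), ?_, rfl⟩
      rw [Finset.mem_coe]
      unfold II
      rw [Finset.mem_filter, Finset.mem_product, Finset.Nat.mem_antidiagonalTuple,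
        Finset.Nat.mem_antidiagonalTuple, Fin.sum_univ_five, Fin.sum_univ_five]
      refine ⟨⟨hα, hβ⟩, ?_, ?_, ?_, ?_⟩ <;> dsimp only <;> omega
  rintro ⟨α, β⟩ h1 h2
  rw [Fin.sum_univ_five] at h1 h2
  exact key _ α β (Nat.lt_succ_self _) h1 h2

end Pool.CXE
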