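import Pool.Agent.Work.MP_bf99ce_cxe.Interface

set_option autoImplicit false

open Polynomial

namespace Pool.CXE

theorem TAY_key (hTY1 : Stmt_TY1) (L : Type) [Field L] [CharZero L] (x : Fin 5 → L)
    (hx : x 0 = 1) (f : MvPolynomial (Fin 3) L) (hf : dd x f = 0) (A : Type) [CommRing A]
    [Algebra L A] (v : Fin 3 → A) :
    MvPolynomial.aeval v f = MvPolynomial.aeval (![0, v 1 - algebraMap L A (x 1) * v 0,
      v 2 - algebraMap L A (x 2) * v 0] : Fin 3 → A) f := by
  have h := congrArg (MvPolynomial.aeval v) (hTY1 L x hx f hf)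
  rw [MvPolynomial.comp_aeval_apply] at h
  rw [← h]
  congr 2
  funext i
  fin_cases i
  · simp
  · simp
  · simp

theorem p_TAY (hTY1 : Stmt_TY1) : Stmt_TAY := by
  intro L _ _ x hx f hf
  constructor
  · intro A _ _ v l
    rw [TAY_key hTY1 L x hx f hf A v, TAY_key hTY1 L x hx f hf A _]
    congr 2
    funext i
    fin_cases i
    · simp
    · simp [hx]
      ring
    · simp [hx]
      ring
  · intro hne A _ _ v1 v2 hind h0
    apply hne
    have hg := hind (MvPolynomial.aeval (![0, MvPolynomial.X 0, MvPolynomial.X 1] :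
      Fin 3 → MvPolynomial (Fin 2) L) f) (by
        rw [MvPolynomial.comp_aeval_apply, ← h0]
        congr 2
        funext i
        fin_cases i
        · simp
        · simp
        · simp)
    refine (hTY1 L x hx f hf).symm.trans ?_
    have h2 := congrArg (MvPolynomial.aeval (![MvPolynomial.X 1 - MvPolynomial.C (x 1) * MvPolynomial.X 0,
      MvPolynomial.X 2 - MvPolynomial.C (x 2) * MvPolynomial.X 0] :
        Fin 2 → MvPolynomial (Fin 3) L)) hg
    rw [map_zero, MvPolynomial.comp_aeval_apply] at h2
    refine Eq.trans ?_ h2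
    congr 2
    funext i
    fin_cases i
    · simp
    · simp
    · simp

end Pool.CXE
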