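import Pool.Agent.Work.MP_bf99ce_cxe.Interface

set_option autoImplicit false

open Polynomial

noncomputable section

namespace Pool.CXE

/-- the substitution `y ↦ y + T x` -/
def TY1_phi {L : Type} [Field L] (x : Fin 5 → L) : MvPolynomial (Fin 3) L →ₐ[L] (MvPolynomial (Fin 3) L)[X] :=
  MvPolynomial.aeval (![C (MvPolynomial.X 0) + X * C (MvPolynomial.C (x 0)), C (MvPolynomial.X 1) + X * C (MvPolynomial.C (x 1)),
    C (MvPolynomial.X 2) + X * C (MvPolynomial.C (x 2))] : Fin 3 → (MvPolynomial (Fin 3) L)[X])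

theorem TY1_der {L : Type} [Field L] (x : Fin 5 → L) (f : MvPolynomial (Fin 3) L) :
    derivative (TY1_phi x f) = TY1_phi x (dd x f) := by
  induction f using MvPolynomial.induction_on with
  | C a =>
    have h1 : TY1_phi x (MvPolynomial.C a) = C (MvPolynomial.C a) := by
      rw [TY1_phi, MvPolynomial.aeval_C]; rfl
    have h2 : dd x (MvPolynomial.C a) = 0 := MvPolynomial.derivation_C _ a
    rw [h1, h2, derivative_C, map_zero]
  | add p q hp hq => rw [map_add, map_add, map_add, map_add, hp, hq]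
  | mul_X p i hp =>
    have h1 : derivative (TY1_phi x (MvPolynomial.X i)) = TY1_phi x (dd x (MvPolynomial.X i)) := by
      fin_cases i <;> simp [TY1_phi, dd, MvPolynomial.mkDerivation_X] <;> rfl
    rw [map_mul, derivative_mul, hp, h1, Derivation.leibniz, smul_eq_mul, smul_eq_mul, map_add, map_mul, map_mul]
    ring

theorem TY1_eval {L : Type} [Field L] (x : Fin 5 → L) (t : MvPolynomial (Fin 3) L) (f : MvPolynomial (Fin 3) L) :
    Polynomial.eval t (TY1_phi x f) = MvPolynomial.aeval (![MvPolynomial.X 0 + t * MvPolynomial.C (x 0),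
      MvPolynomial.X 1 + t * MvPolynomial.C (x 1), MvPolynomial.X 2 + t * MvPolynomial.C (x 2)] : Fin 3 → MvPolynomial (Fin 3) L) f := by
  induction f using MvPolynomial.induction_on with
  | C a =>
    have h1 : TY1_phi x (MvPolynomial.C a) = C (MvPolynomial.C a) := by
      rw [TY1_phi, MvPolynomial.aeval_C]; rfl
    rw [h1, eval_C, MvPolynomial.aeval_C]; rfl
  | add p q hp hq => rw [map_add, eval_add, hp, hq, map_add]
  | mul_X p i hp =>
    have h1 : eval t (TY1_phi x (MvPolynomial.X i)) = MvPolynomial.aeval (![MvPolynomial.X 0 + t * MvPolynomial.C (x 0),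
      MvPolynomial.X 1 + t * MvPolynomial.C (x 1), MvPolynomial.X 2 + t * MvPolynomial.C (x 2)] : Fin 3 → MvPolynomial (Fin 3) L)
        (MvPolynomial.X i : MvPolynomial (Fin 3) L) := by
      fin_cases i <;> simp [TY1_phi] <;> ring
    rw [map_mul, eval_mul, hp, h1, map_mul]

theorem p_TY1 : Stmt_TY1 := by
  intro L _ _ x hx f hf
  have h0 : derivative (TY1_phi x f) = 0 := by rw [TY1_der, hf, map_zero]
  have h1 : (TY1_phi x f).natDegree = 0 := Polynomial.derivative_eq_zero.1 h0
  obtain ⟨a, ha⟩ := natDegree_eq_zero.1 h1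
  have h2 : eval 0 (TY1_phi x f) = f := by
    rw [TY1_eval]
    have : (![MvPolynomial.X 0 + 0 * MvPolynomial.C (x 0),
      MvPolynomial.X 1 + 0 * MvPolynomial.C (x 1), MvPolynomial.X 2 + 0 * MvPolynomial.C (x 2)] : Fin 3 → MvPolynomial (Fin 3) L)
      = MvPolynomial.X := by
      funext i
      fin_cases i <;> simp
    rw [this, MvPolynomial.aeval_X_left, AlgHom.id_apply]
  have h3 : eval (-MvPolynomial.X 0) (TY1_phi x f) = f := by
    rw [← ha, eval_C]
    rw [← ha, eval_C] at h2
    exact h2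
  rw [TY1_eval] at h3
  have h4 : (![MvPolynomial.X 0 + (-MvPolynomial.X 0) * MvPolynomial.C (x 0),
      MvPolynomial.X 1 + (-MvPolynomial.X 0) * MvPolynomial.C (x 1),
      MvPolynomial.X 2 + (-MvPolynomial.X 0) * MvPolynomial.C (x 2)] : Fin 3 → MvPolynomial (Fin 3) L) =
      ![0, MvPolynomial.X 1 - MvPolynomial.C (x 1) * MvPolynomial.X 0,
    MvPolynomial.X 2 - MvPolynomial.C (x 2) * MvPolynomial.X 0] := by
    funext i
    fin_cases i
    · simp [hx]
    · simp only [Fin.mk_one, Matrix.cons_val_one, Matrix.cons_val_zero]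
      ring
    · simp only [Fin.reduceFinMk, Matrix.cons_val]
      ring
  rw [h4] at h3
  exact h3

end Pool.CXE
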