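import Pool.Agent.Work.MP_bf99ce_cxe.Interface

/-! # Block UNT (helper62) -/

set_option autoImplicit false

open Polynomial

noncomputable section

namespace Pool.CXE

/-- The identity behind UNT in any commutative ring: `E = e`, `z = z1`, `w = z2`, `I (315 e³ + 46656) = 1`. -/
theorem UNT_id {R : Type} [CommRing R] (E z w I : R) (hI : I * (315 * E ^ 3 + 46656) = 1) :
    (-(I * E ^ 3) * (3 * (6 + E * z * w + (3 * fb 1 z w - fa E 1 z w)) - (6 - 3 * (E * z * w)))) * fa E 1 z w +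
      (-(I * E ^ 3) * (-(6 + E * z * w + (3 * fb 1 z w - fa E 1 z w)) + 3 * (6 - 3 * (E * z * w)))) * fb 1 z w =
    (-9 + E * z * w) * (-(I * (64 * ((E * z * w) ^ 2 + 9 * (E * z * w) + 81) + E ^ 3 * (3 * (E * z * w) + 39)))) - 1 := by
  unfold fa fb
  linear_combination (-1 : R) * hI

theorem p_UNT : Stmt_UNT := by
  intro k _ _ e he
  refine ⟨-(C (C (1 / (315 * e ^ 3 + 46656))) *
    (64 * ((C (C e) * C X * X) ^ 2 + 9 * (C (C e) * C X * X) + 81) + C (C e) ^ 3 * (3 * (C (C e) * C X * X) + 39))), ?_⟩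
  rw [Ideal.mem_span_pair]
  have hI : (C (C (1 / (315 * e ^ 3 + 46656))) : k[X][X]) * (315 * C (C e) ^ 3 + 46656) = 1 := by
    have h1 : (1 / (315 * e ^ 3 + 46656)) * (315 * e ^ 3 + 46656) = 1 := by field_simp
    have h2 := congrArg ((C.comp C : k →+* k[X][X])) h1
    rw [map_mul, map_add, map_mul, map_pow, map_ofNat, map_ofNat, map_one] at h2
    exact h2
  refine ⟨_, _, UNT_id (C (C e)) (C X) X _ hI⟩

end Pool.CXE
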