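import Pool.Agent.Work.MP_bf99ce_cxe.B_PR1
import Pool.Agent.Work.MP_bf99ce_cxe.B_PR2
import Pool.Agent.Work.MP_bf99ce_cxe.B_PR3
import Pool.Agent.Work.MP_bf99ce_cxe.B_KUA
import Pool.Agent.Work.MP_bf99ce_cxe.B_KB1
import Pool.Agent.Work.MP_bf99ce_cxe.B_KB2
import Pool.Agent.Work.MP_bf99ce_cxe.B_KC0
import Pool.Agent.Work.MP_bf99ce_cxe.B_KUC
import Pool.Agent.Work.MP_bf99ce_cxe.B_KUM
import Pool.Agent.Work.MP_bf99ce_cxe.B_DG1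
import Pool.Agent.Work.MP_bf99ce_cxe.B_DEG
import Pool.Agent.Work.MP_bf99ce_cxe.B_UNT
import Pool.Agent.Work.MP_bf99ce_cxe.B_LIN
import Pool.Agent.Work.MP_bf99ce_cxe.B_NZ1
import Pool.Agent.Work.MP_bf99ce_cxe.B_LED
import Pool.Agent.Work.MP_bf99ce_cxe.B_NZD
import Pool.Agent.Work.MP_bf99ce_cxe.B_SPL
import Pool.Agent.Work.MP_bf99ce_cxe.B_REL
import Pool.Agent.Work.MP_bf99ce_cxe.B_IN1
import Pool.Agent.Work.MP_bf99ce_cxe.B_IN2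
import Pool.Agent.Work.MP_bf99ce_cxe.B_IND
import Pool.Agent.Work.MP_bf99ce_cxe.B_SP1
import Pool.Agent.Work.MP_bf99ce_cxe.B_SPN
import Pool.Agent.Work.MP_bf99ce_cxe.B_DER
import Pool.Agent.Work.MP_bf99ce_cxe.B_CN1
import Pool.Agent.Work.MP_bf99ce_cxe.B_CN2
import Pool.Agent.Work.MP_bf99ce_cxe.B_CN3
import Pool.Agent.Work.MP_bf99ce_cxe.B_CN4
import Pool.Agent.Work.MP_bf99ce_cxe.B_CNT
import Pool.Agent.Work.MP_bf99ce_cxe.B_EXI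
import Pool.Agent.Work.MP_bf99ce_cxe.B_TY1
import Pool.Agent.Work.MP_bf99ce_cxe.B_TAY
import Pool.Agent.Work.MP_bf99ce_cxe.B_FIN
import Pool.Agent.Work.MP_bf99ce_cxe.B_CNV

/-!
# THEOREM CX (MP_bf99ce_ag), PART E: assembly
-/

set_option autoImplicit false

namespace Pool.CXE

theorem q_KUA : Stmt_KUA := p_KUA p_PR1 p_PR2

theorem q_KB2 : Stmt_KB2 := p_KB2 p_KB1

theorem q_KC0 : Stmt_KC0 := p_KC0 p_KB1

theorem q_KUC : Stmt_KUC := p_KUC p_KB1 q_KB2 q_KC0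

theorem q_KUM : Stmt_KUM := p_KUM p_PR3 q_KUA q_KUC

theorem q_DEG : Stmt_DEG := p_DEG p_DG1

theorem q_NZ1 : Stmt_NZ1 := p_NZ1 p_LIN

theorem q_NZD : Stmt_NZD := p_NZD q_DEG p_UNT q_NZ1

theorem q_SPL : Stmt_SPL := p_SPL q_KUM

theorem q_IN1 : Stmt_IN1 := p_IN1 p_LED q_NZD

theorem q_IND : Stmt_IND := p_IND q_SPL p_REL q_IN1 p_IN2

theorem q_SPN : Stmt_SPN := p_SPN p_SP1

theorem q_CN4 : Stmt_CN4 := p_CN4 p_CN2

theorem q_CNT : Stmt_CNT := p_CNT p_CN1 p_CN3 q_CN4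

theorem q_EXI : Stmt_EXI := p_EXI q_IND q_SPN p_DER q_CNT

theorem q_TAY : Stmt_TAY := p_TAY p_TY1

/-- **PART E.** -/
theorem q_E : Stmt_E := p_FIN q_EXI q_TAY

end Pool.CXE
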