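import Pool.Agent.Work.MP_bf99ce_cxe.Interface

/-!
# Block DG1: degrees
-/

set_option autoImplicit false

open Polynomial

namespace Pool.CXE

theorem DG1_aux (k : Type) [Field k] [CharZero k] (h g : k[X]) (hh : h ≠ 0)
    (hd : ((C (8 / 3) * X ^ 3 - 2) * h + g).natDegree ≤ 2) :
    h.natDegree + 3 ≤ g.natDegree := by
  have hk : (C (8 / 3) * X ^ 3 - 2 : k[X]).natDegree = 3 := by
    compute_degree!
  have hk0 : (C (8 / 3) * X ^ 3 - 2 : k[X]) ≠ 0 := by
    intro h0
    rw [h0] at hk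
    simp at hk
  have hm : ((C (8 / 3) * X ^ 3 - 2) * h).natDegree = 3 + h.natDegree := by
    rw [natDegree_mul hk0 hh, hk]
  by_contra hc
  push Not at hc
  have := natDegree_add_eq_left_of_natDegree_lt (p := (C (8 / 3) * X ^ 3 - 2) * h) (q := g)
    (by omega)
  omega

theorem DG1_one (k : Type) [Field k] (e : k) (h : k[X]) :
    (C e * X * h).natDegree ≤ h.natDegree + 1 := by
  refine natDegree_mul_le.trans ?_
  have : (C e * X).natDegree ≤ 1 := by compute_degree
  omega

theorem DG1_four (k : Type) [Field k] (e : k) (h : k[X]) :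
    (C e * X * (1 - C (1 / 3) * X ^ 3) * h).natDegree ≤ h.natDegree + 4 := by
  refine natDegree_mul_le.trans ?_
  have : (C e * X * (1 - C (1 / 3) * X ^ 3)).natDegree ≤ 4 := by compute_degree
  omega

theorem p_DG1 : Stmt_DG1 := by
  intro k _ _ e h0 h1 h2 H0 H1 H2
  have A2 : h2 ≠ 0 → h1 ≠ 0 ∧ h2.natDegree + 2 ≤ h1.natDegree := by
    intro hh
    have a := DG1_aux k h2 _ hh H2
    have b := DG1_one k e h1
    refine ⟨?_, by omega⟩
    rintro rfl
    simp at a
  have A1 : h1 ≠ 0 → h0 ≠ 0 ∧ h1.natDegree + 2 ≤ h0.natDegree := by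
    intro hh
    have a := DG1_aux k h1 _ hh H1
    have b := DG1_one k e h0
    refine ⟨?_, by omega⟩
    rintro rfl
    simp at a
  have A0 : h0 ≠ 0 → h2 ≠ 0 ∧ h0.natDegree ≤ h2.natDegree + 1 := by
    intro hh
    have a := DG1_aux k h0 _ hh H0
    have b := DG1_four k e h2
    refine ⟨?_, by omega⟩
    rintro rfl
    simp at a
  have key : h0 = 0 := by
    by_contra hh
    obtain ⟨b2, c0⟩ := A0 hh
    obtain ⟨b1, c2⟩ := A2 b2
    obtain ⟨_, c1⟩ := A1 b1
    omega
  have key1 : h1 = 0 := by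
    by_contra hh
    exact (A1 hh).1 key
  have key2 : h2 = 0 := by
    by_contra hh
    exact (A2 hh).1 key1
  exact ⟨key, key1, key2⟩

end Pool.CXE
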