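import Pool.Agent.Work.MP_bf99ce_cxe.Interface

set_option autoImplicit false

open Polynomial

noncomputable section

namespace Pool.CXE

theorem EXI_gen (hIND : Stmt_IND) (hSPN : Stmt_SPN) (hDER : Stmt_DER) (k L : Type) [Field k] [CharZero k] [Field L] [Algebra k L]
    (e : k) (x : Fin 5 → L) (hD : Dat k e x) (p m : ℕ) (hCNT : (II (p + 1) m).card < (II p (m + 1)).card) :
    ∃ c : (Fin 5 → ℕ) × (Fin 5 → ℕ) → k, ∑ μ ∈ II p (m + 1), c μ • evm e x μ ≠ 0 ∧
    dd x (∑ μ ∈ II p (m + 1), c μ • evm e x μ) = 0 := by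
  classical
  have hmem : ∀ μ ∈ II p (m + 1), dd x (evm e x μ) ∈
      Submodule.span k (((II (p + 1) m).image (evm e x) : Finset (MvPolynomial (Fin 3) L)) : Set (MvPolynomial (Fin 3) L)) := by
    intro μ hμ
    unfold II at hμ
    rw [Finset.mem_filter, Finset.mem_product, Finset.Nat.mem_antidiagonalTuple, Finset.Nat.mem_antidiagonalTuple] at hμ
    have h1 := hDER k L e x hD p m μ hμ.1.1 hμ.1.2
    refine (Submodule.span_le.2 ?_) h1
    rintro _ ⟨ν, ⟨hν1, hν2⟩, rfl⟩
    have h2 := hSPN k L e x hD (p + 1) m ν hν1 hν2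
    rw [Finset.coe_image]
    exact h2
  set W := Submodule.span k (((II (p + 1) m).image (evm e x) : Finset (MvPolynomial (Fin 3) L)) : Set (MvPolynomial (Fin 3) L)) with hW
  haveI : Module.Finite k W := by
    rw [hW]
    exact Module.Finite.iff_fg.2 ⟨_, rfl⟩
  let v : (II p (m + 1) : Finset _) → W := fun μ => ⟨dd x (evm e x μ.1), hmem μ.1 μ.2⟩
  have hnl : ¬ LinearIndependent k v := by
    intro hl
    have h1 := hl.fintype_card_le_finrank
    have h2 : Module.finrank k W ≤ ((II (p + 1) m).image (evm e x)).card :=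
      finrank_span_finset_le_card (R := k) ((II (p + 1) m).image (evm e x))
    have h3 : ((II (p + 1) m).image (evm e x)).card ≤ (II (p + 1) m).card := Finset.card_image_le
    rw [Fintype.card_coe] at h1
    omega
  rw [Fintype.not_linearIndependent_iff] at hnl
  obtain ⟨g, hg, i, hi⟩ := hnl
  refine ⟨fun μ => if h : μ ∈ II p (m + 1) then g ⟨μ, h⟩ else 0, ?_, ?_⟩
  · intro h0
    have h1 := hIND k L e x hD p (m + 1) _ h0 i.1 i.2
    rw [dif_pos i.2] at h1
    exact hi h1
  · rw [map_sum, ← Finset.sum_attach]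
    have h1 := congrArg (Submodule.subtype W) hg
    rw [map_sum, map_zero] at h1
    rw [← h1]
    refine Finset.sum_congr rfl fun μ _ => ?_
    have h2 : (if h : μ.1 ∈ II p (m + 1) then g ⟨μ.1, h⟩ else 0) = g μ := dif_pos μ.2
    show dd x ((if h : μ.1 ∈ II p (m + 1) then g ⟨μ.1, h⟩ else 0) • evm e x μ.1) = _
    rw [h2, Derivation.map_smul_of_tower, map_smul]
    rfl

theorem p_EXI (hIND : Stmt_IND) (hSPN : Stmt_SPN) (hDER : Stmt_DER) (hCNT : Stmt_CNT) : Stmt_EXI := by
  intro k L _ _ _ _ e x hD m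
  exact EXI_gen hIND hSPN hDER k L e x hD 7 m (hCNT m)

end Pool.CXE
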