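import Pool.Agent.Work.MP_bf99ce_cxe.Interface

/-! Block IN2 (helper89). -/

set_option autoImplicit false

open Polynomial

noncomputable section

namespace Pool.CXE

/-- The exponent of the monomial in `y0, y1, y2`. -/
def IN2_ex (μ : (Fin 5 → ℕ) × (Fin 5 → ℕ)) : Fin 3 →₀ ℕ :=
  Finsupp.single 0 (μ.2 0) + Finsupp.single 1 (μ.2 1) + Finsupp.single 2 (μ.2 2)

theorem IN2_ex_inj {μ ν : (Fin 5 → ℕ) × (Fin 5 → ℕ)} (h : IN2_ex μ = IN2_ex ν) :
    μ.2 0 = ν.2 0 ∧ μ.2 1 = ν.2 1 ∧ μ.2 2 = ν.2 2 := by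
  refine ⟨?_, ?_, ?_⟩
  · have := DFunLike.congr_fun h 0
    simpa [IN2_ex, Finsupp.single_apply] using this
  · have := DFunLike.congr_fun h 1
    simpa [IN2_ex, Finsupp.single_apply] using this
  · have := DFunLike.congr_fun h 2
    simpa [IN2_ex, Finsupp.single_apply] using this

theorem IN2_coeff {k : Type} [Field k] (c : k) (μ : (Fin 5 → ℕ) × (Fin 5 → ℕ))
    (d : Fin 3 →₀ ℕ) (a b : ℕ) :
    ((MvPolynomial.coeff d (hq c μ)).coeff b).coeff a =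
      if IN2_ex μ = d ∧ b = μ.1 2 ∧ a = μ.1 1 then c * (3⁻¹ : k) ^ (μ.2 3 + μ.2 4) else 0 := by
  have hm : (MvPolynomial.X 0 ^ μ.2 0 * MvPolynomial.X 1 ^ μ.2 1 * MvPolynomial.X 2 ^ μ.2 2 : QQ k)
      = MvPolynomial.monomial (IN2_ex μ) 1 := by
    rw [MvPolynomial.X_pow_eq_monomial, MvPolynomial.X_pow_eq_monomial,
      MvPolynomial.X_pow_eq_monomial, MvPolynomial.monomial_mul, MvPolynomial.monomial_mul]
    simp [IN2_ex]
  unfold hq
  rw [hm, MvPolynomial.coeff_C_mul, MvPolynomial.coeff_monomial]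
  by_cases h : IN2_ex μ = d
  · rw [if_pos h, mul_one, coeff_C_mul_X_pow]
    by_cases h2 : b = μ.1 2
    · rw [if_pos h2, coeff_C_mul_X_pow]
      by_cases h3 : a = μ.1 1
      · rw [if_pos h3, if_pos ⟨h, h2, h3⟩]
      · rw [if_neg h3, if_neg (fun hh => h3 hh.2.2)]
    · rw [if_neg h2, coeff_zero, if_neg (fun hh => h2 hh.2.1)]
  · rw [if_neg h, mul_zero, coeff_zero, coeff_zero, if_neg (fun hh => h hh.1)]

theorem IN2_mem {p m : ℕ} {μ : (Fin 5 → ℕ) × (Fin 5 → ℕ)} (h : μ ∈ II p m) :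
    (μ.1 0 + μ.1 1 + μ.1 2 + μ.1 3 + μ.1 4 = p) ∧ (μ.2 0 + μ.2 1 + μ.2 2 + μ.2 3 + μ.2 4 = m) ∧
    (μ.1 3 ≤ 1 ∨ μ.2 3 = 0) ∧ (μ.1 4 ≤ 1 ∨ μ.2 4 = 0) := by
  unfold II at h
  rw [Finset.mem_filter, Finset.mem_product, Finset.Nat.mem_antidiagonalTuple,
    Finset.Nat.mem_antidiagonalTuple, Fin.sum_univ_five, Fin.sum_univ_five] at h
  exact ⟨h.1.1, h.1.2, h.2.2.2.1, h.2.2.2.2⟩

theorem p_IN2 : Stmt_IN2 := by
  intro k _ _ p m n n' c hsum μ hμ hn hn'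
  have hΦ := congrArg (fun F : QQ k => ((MvPolynomial.coeff (IN2_ex μ) F).coeff (μ.1 2)).coeff
    (μ.1 1)) hsum
  simp only [MvPolynomial.coeff_sum, Polynomial.finsetSum_coeff, MvPolynomial.coeff_zero,
    Polynomial.coeff_zero, IN2_coeff] at hΦ
  rw [Finset.sum_eq_single μ] at hΦ
  · rw [if_pos ⟨rfl, rfl, rfl⟩] at hΦ
    have h3 : (3⁻¹ : k) ^ (μ.2 3 + μ.2 4) ≠ 0 := by
      refine pow_ne_zero _ (inv_ne_zero ?_)
      exact_mod_cast (by norm_num : (3 : ℕ) ≠ 0)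
    exact (mul_eq_zero.mp hΦ).resolve_right h3
  · intro ν hν hne
    rw [if_neg]
    rintro ⟨hex, h2, h1⟩
    refine hne ?_
    obtain ⟨hνI, hν3, hν4⟩ := Finset.mem_filter.mp hν
    obtain ⟨e0, e1, e2⟩ := IN2_ex_inj hex
    obtain ⟨s1, s2, s3, s4⟩ := IN2_mem hμ
    obtain ⟨t1, t2, t3, t4⟩ := IN2_mem hνI
    have q3 : ν.2 3 = μ.2 3 := by omega
    have q4 : ν.2 4 = μ.2 4 := by omega
    have r3 : ν.1 3 = μ.1 3 := by omega
    have r4 : ν.1 4 = μ.1 4 := by omega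
    have r0 : ν.1 0 = μ.1 0 := by omega
    refine Prod.ext (funext fun i => ?_) (funext fun i => ?_)
    · fin_cases i
      · exact r0
      · exact h1.symm
      · exact h2.symm
      · exact r3
      · exact r4
    · fin_cases i
      · exact e0
      · exact e1
      · exact e2
      · exact q3
      · exact q4
  · intro h
    exact absurd (Finset.mem_filter.mpr ⟨hμ, hn, hn'⟩) h

end Pool.CXE
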