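import Pool.Agent.Work.MP_bf99ce_cxe.Interface

set_option autoImplicit false

open Polynomial

namespace Pool.CXE

theorem PR1_form (k : Type) [Field k] :
    Pb k = C (C (3 : k)) * X ^ 3 + C (X ^ 3 - C (3 : k)) := by
  have h : (C (C (3 : k)) : k[X][X]) = 3 := by
    rw [show (C (3 : k) : k[X]) = 3 from map_ofNat C 3, map_ofNat]
  unfold Pb fb
  rw [map_sub, map_pow, h]
  ring

theorem PR1_coeff (k : Type) [Field k] (n : ℕ) :
    (Pb k).coeff n = (if n = 3 then C (3 : k) else 0) + if n = 0 then X ^ 3 - C (3 : k) else 0 := by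
  rw [PR1_form, coeff_add, coeff_C_mul, coeff_X_pow, coeff_C]
  split_ifs <;> simp

theorem p_PR1 : Stmt_PR1 := by
  intro k _ _
  have h3 : (3 : k) ≠ 0 := by norm_num
  have h3u : IsUnit (C (3 : k) : k[X]) := isUnit_C.2 (isUnit_iff_ne_zero.2 h3)
  have hdeg : (Pb k).natDegree = 3 := by
    apply le_antisymm
    · rw [natDegree_le_iff_coeff_eq_zero]
      intro n hn
      rw [PR1_coeff, if_neg (by omega), if_neg (by omega), add_zero]
    · apply le_natDegree_of_ne_zero
      rw [PR1_coeff]
      simpa using h3
  have hne : Pb k ≠ 0 := by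
    intro h
    rw [h] at hdeg
    simp at hdeg
  have hg0 : (X ^ 3 - C (3 : k) : k[X]) ≠ 0 := X_pow_sub_C_ne_zero (by norm_num) 3
  have hgu : ¬ IsUnit (X ^ 3 - C (3 : k) : k[X]) := by
    intro h
    have := natDegree_eq_zero_of_isUnit h
    rw [natDegree_X_pow_sub_C] at this
    omega
  have hsq : Squarefree (X ^ 3 - C (3 : k) : k[X]) := by
    apply Separable.squarefree
    apply separable_X_pow_sub_C
    · norm_num
    · exact h3
  obtain ⟨q, hq, hqd⟩ := WfDvdMonoid.exists_irreducible_factor hgu hg0
  have hP : (Ideal.span {q} : Ideal k[X]).IsPrime := (Ideal.span_singleton_prime hq.ne_zero).2 hq.prime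
  have hirr : Irreducible (Pb k) := by
    apply irreducible_of_eisenstein_criterion hP
    · rw [leadingCoeff, hdeg, PR1_coeff, Ideal.mem_span_singleton]
      intro h
      apply hq.not_isUnit
      apply isUnit_of_dvd_unit h
      simpa using h3u
    · intro n hn
      rw [degree_eq_natDegree hne, hdeg] at hn
      have hn' : n < 3 := by exact_mod_cast hn
      rw [PR1_coeff, if_neg (by omega), zero_add, Ideal.mem_span_singleton]
      split_ifs
      · exact hqd
      · exact dvd_zero _
    · rw [degree_eq_natDegree hne, hdeg]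
      norm_num
    · rw [PR1_coeff, Ideal.span_singleton_pow, Ideal.mem_span_singleton]
      simp only [if_pos, if_neg (show ¬ (0 = 3) by norm_num), zero_add]
      intro h
      rw [pow_two] at h
      exact hq.not_isUnit (hsq q h)
    · intro r hr
      rw [C_dvd_iff_dvd_coeff] at hr
      have := hr 3
      rw [PR1_coeff] at this
      apply isUnit_of_dvd_unit this
      simpa using h3u
  exact UniqueFactorizationMonoid.irreducible_iff_prime.1 hirr

end Pool.CXE
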