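import Mathlib

/-!
# THEOREM CX (MP_bf99ce_ag), PART E: existence of the form `f`

The surface `X : x3³ = a, x4³ = b` in `ℙ⁴`, `a = -3 x0³ + 3 x1³ + x2³ + e x0 x1 x2`, `b = -3 x0³ + x1³ + 3 x2³`. PART E is the
construction, for every `m ≥ 1`, of a form `f` of degree `7` in `x0, ..., x4` and of degree `m` in `y0, ..., y4` (`y_i` stands for
`dx_i`), invariant under `y ↦ y + l x` on the tangent vectors, and not zero: a section of `S^m Ω_X (m + 7)`.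

METHOD. `B` = the ring generated by `x_i`, `y_i` in `L[y0, y1, y2]`, `3 x3² y3 = ξ_a`, `3 x4² y4 = ξ_b`, `ξ_a = ∑ y_i ∂_i a`. The normal
monomials `x^α y^β` (`α1, α2 ≤ 2`; `α3 ≤ 1` or `β3 = 0`; `α4 ≤ 1` or `β4 = 0`) are a basis of `B`, and there are more of them in
bidegree `(7, m)` than in bidegree `(8, m - 1)`, so the derivation `y_i ↦ x_i` has a kernel.

RULES. Every block is one file `B_X.lean` in this folder, `import Pool.Agent.Work.MP_bf99ce_cxe.Interface`, `set_option autoImplicit false`,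
`open Polynomial`, `namespace Pool.CXE`, `theorem p_X (hA : Stmt_A) .. : Stmt_X` with exactly the blocks named after `uses` as
hypotheses, in that order (`theorem p_X : Stmt_X` if there are none); auxiliary lemmas with the prefix `X_`. No straight double quotes.
-/

set_option autoImplicit false

open Polynomial

noncomputable section

namespace Pool.CXE

/-! ## Definitions -/

/-- `a = -3 x0³ + 3 x1³ + x2³ + e x0 x1 x2` -/
def fa {R : Type} [CommRing R] (e x0 x1 x2 : R) : R := -3 * x0 ^ 3 + 3 * x1 ^ 3 + x2 ^ 3 + e * x0 * x1 * x2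

/-- `b = -3 x0³ + x1³ + 3 x2³` -/
def fb {R : Type} [CommRing R] (x0 x1 x2 : R) : R := -3 * x0 ^ 3 + x1 ^ 3 + 3 * x2 ^ 3

/-- `ξ_a = ∑ y_i ∂_i a` -/
def xa {R : Type} [CommRing R] (e x0 x1 x2 y0 y1 y2 : R) : R :=
  (-9 * x0 ^ 2 + e * x1 * x2) * y0 + (9 * x1 ^ 2 + e * x0 * x2) * y1 + (3 * x2 ^ 2 + e * x0 * x1) * y2

/-- `ξ_b = ∑ y_i ∂_i b` -/
def xb {R : Type} [CommRing R] (x0 x1 x2 y0 y1 y2 : R) : R := -9 * x0 ^ 2 * y0 + 3 * x1 ^ 2 * y1 + 9 * x2 ^ 2 * y2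

/-- The value of a polynomial in `z1` (inner variable) and `z2` (outer variable). -/
def ev2 (k : Type) {L : Type} [Field k] [Field L] [Algebra k L] (z1 z2 : L) : k[X][X] →+* L :=
  eval₂RingHom (aeval z1 : k[X] →ₐ[k] L).toRingHom z2

/-- The coordinates `x = (1, z1, z2, w3, w4)` of the generic point of `X`. -/
structure Dat (k : Type) {L : Type} [Field k] [Field L] [Algebra k L] (e : k) (x : Fin 5 → L) : Prop where
  x0 : x 0 = 1
  ind : ∀ p : k[X][X], ev2 k (x 1) (x 2) p = 0 → p = 0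
  h3 : x 3 ^ 3 = fa (algebraMap k L e) (x 0) (x 1) (x 2)
  h4 : x 4 ^ 3 = fb (x 0) (x 1) (x 2)
  he : 315 * e ^ 3 + 46656 ≠ 0

/-- The monomial `x^α y^β`, `μ = (α, β)`. -/
def mon {A : Type} [CommRing A] (x y : Fin 5 → A) (μ : (Fin 5 → ℕ) × (Fin 5 → ℕ)) : A :=
  (∏ i, x i ^ μ.1 i) * ∏ i, y i ^ μ.2 i

/-- `y` is a tangent vector at `x` of the cone over `X`. -/
structure Tan {A : Type} [CommRing A] (e : A) (x y : Fin 5 → A) : Prop where
  t3 : 3 * x 3 ^ 2 * y 3 = xa e (x 0) (x 1) (x 2) (y 0) (y 1) (y 2)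
  t4 : 3 * x 4 ^ 2 * y 4 = xb (x 0) (x 1) (x 2) (y 0) (y 1) (y 2)

/-- The value of the form with the coefficients `c` at `(x, y)`, `y` in an `L`-algebra `A`. -/
def val {k L : Type} [Field k] [Field L] [Algebra k L] (A : Type) [CommRing A] [Algebra L A]
    (I : Finset ((Fin 5 → ℕ) × (Fin 5 → ℕ))) (c : (Fin 5 → ℕ) × (Fin 5 → ℕ) → k) (x : Fin 5 → L) (y : Fin 5 → A) : A :=
  ∑ μ ∈ I, algebraMap L A (algebraMap k L (c μ)) * mon (fun i => algebraMap L A (x i)) y μ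

/-- **PART E**, the final statement for PART T. For every `m ≥ 1` there is a form of bidegree `(7, m)` with coefficients in `k`, invariant
under `y ↦ y + l x` on tangent vectors `y` with coordinates in any commutative `L`-algebra, and not zero at a tangent vector with
`y0 = 0` and `y1`, `y2` algebraically independent over `L`. -/
def Stmt_E : Prop := ∀ (k L : Type) [Field k] [CharZero k] [Field L] [Algebra k L] (e : k) (x : Fin 5 → L), Dat k e x →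
  ∀ m : ℕ, 1 ≤ m → ∃ (I : Finset ((Fin 5 → ℕ) × (Fin 5 → ℕ))) (c : (Fin 5 → ℕ) × (Fin 5 → ℕ) → k),
    (∀ μ ∈ I, ∑ i, μ.1 i = 7 ∧ ∑ i, μ.2 i = m) ∧
    (∀ (A : Type) [CommRing A] [Algebra L A] (y : Fin 5 → A) (l : A),
      Tan (algebraMap L A (algebraMap k L e)) (fun i => algebraMap L A (x i)) y →
      val A I c x (fun i => y i + l * algebraMap L A (x i)) = val A I c x y) ∧
    ∀ (A : Type) [CommRing A] [Algebra L A] (y : Fin 5 → A),
      Tan (algebraMap L A (algebraMap k L e)) (fun i => algebraMap L A (x i)) y → y 0 = 0 →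
      (∀ g : MvPolynomial (Fin 2) L, MvPolynomial.aeval ![y 1, y 2] g = 0 → g = 0) → val A I c x y ≠ 0

/-- `a(1, z1, z2)` and `b(1, z1, z2)` in `k[z1][z2]` -/
def Pa {k : Type} [Field k] (e : k) : k[X][X] := fa (C (C e)) 1 (C X) X

def Pb (k : Type) [Field k] : k[X][X] := fb 1 (C X) X

/-- The polynomials `∑_(i, j ≤ 2) c_ij z1^i z2^j`. -/
def low {k : Type} [Field k] (c : Fin 3 → Fin 3 → k) : k[X][X] := ∑ i : Fin 3, ∑ j : Fin 3, C (C (c i j) * X ^ (i : ℕ)) * X ^ (j : ℕ)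

/-- the ring `k[z1][z2][y0, y1, y2]` -/
abbrev QQ (k : Type) [Field k] : Type := MvPolynomial (Fin 3) k[X][X]

/-- `ξ_a` at `x0 = 1` in this ring -/
def qa {k : Type} [Field k] (e : k) : QQ k :=
  xa (MvPolynomial.C (C (C e))) 1 (MvPolynomial.C (C X)) (MvPolynomial.C X) (MvPolynomial.X 0) (MvPolynomial.X 1) (MvPolynomial.X 2)

/-- `ξ_b` at `x0 = 1` in this ring -/
def qb (k : Type) [Field k] : QQ k :=
  xb 1 (MvPolynomial.C (C X)) (MvPolynomial.C X) (MvPolynomial.X 0) (MvPolynomial.X 1) (MvPolynomial.X 2)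

/-- The base change `k[z1][z2][y] → L[y]`. -/
def bc (k : Type) {L : Type} [Field k] [Field L] [Algebra k L] (x : Fin 5 → L) : QQ k →+* MvPolynomial (Fin 3) L :=
  MvPolynomial.map (ev2 k (x 1) (x 2))

/-- The coordinates `y` of the generic tangent vector, in `L[y0, y1, y2]`. -/
def ys {k L : Type} [Field k] [Field L] [Algebra k L] (e : k) (x : Fin 5 → L) : Fin 5 → MvPolynomial (Fin 3) L :=
  ![MvPolynomial.X 0, MvPolynomial.X 1, MvPolynomial.X 2,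
    MvPolynomial.C (3 * x 3 ^ 2)⁻¹ * xa (MvPolynomial.C (algebraMap k L e)) (MvPolynomial.C (x 0)) (MvPolynomial.C (x 1))
      (MvPolynomial.C (x 2)) (MvPolynomial.X 0) (MvPolynomial.X 1) (MvPolynomial.X 2),
    MvPolynomial.C (3 * x 4 ^ 2)⁻¹ * xb (MvPolynomial.C (x 0)) (MvPolynomial.C (x 1))
      (MvPolynomial.C (x 2)) (MvPolynomial.X 0) (MvPolynomial.X 1) (MvPolynomial.X 2)]

/-- The value of the monomial `x^α y^β` in `L[y0, y1, y2]`. -/
def evm {k L : Type} [Field k] [Field L] [Algebra k L] (e : k) (x : Fin 5 → L) (μ : (Fin 5 → ℕ) × (Fin 5 → ℕ)) :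
    MvPolynomial (Fin 3) L :=
  mon (fun i => MvPolynomial.C (x i)) (ys e x) μ

/-- The exponents of the normal monomials of bidegree `(p, m)`. -/
def II (p m : ℕ) : Finset ((Fin 5 → ℕ) × (Fin 5 → ℕ)) :=
  (Finset.Nat.antidiagonalTuple 5 p ×ˢ Finset.Nat.antidiagonalTuple 5 m).filter
    fun μ => μ.1 1 ≤ 2 ∧ μ.1 2 ≤ 2 ∧ (μ.1 3 ≤ 1 ∨ μ.2 3 = 0) ∧ (μ.1 4 ≤ 1 ∨ μ.2 4 = 0)

/-- The derivation `y_i ↦ x_i` of `L[y0, y1, y2]`. -/
def dd {L : Type} [Field L] (x : Fin 5 → L) : Derivation L (MvPolynomial (Fin 3) L) (MvPolynomial (Fin 3) L) :=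
  MvPolynomial.mkDerivation L ![MvPolynomial.C (x 0), MvPolynomial.C (x 1), MvPolynomial.C (x 2)]

/-! ## Part 1: the polynomials `a`, `b` in two variables -/

/-- **PR1** (100, uses nothing). `Pb = 3 z2³ + (z1³ - 3)` is irreducible by Eisenstein (`Polynomial.irreducible_of_eisenstein_criterion`) at the ideal of an irreducible factor `q` of `z1³ - 3` in `k[z1]` (`q²` does not divide `z1³ - 3`: it is separable, its derivative is `3 z1²`; primitive because the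
leading coefficient is the unit `3`), and `k[X][X]` is a unique factorisation domain. -/
def Stmt_PR1 : Prop := ∀ (k : Type) [Field k] [CharZero k], Prime (Pb k)

/-- **PR2** (60, uses nothing). Both have degree `3` in `z2`, the leading coefficients are `3` and `1`, so `Pb ∣ Pa` gives `Pa = Pb * C g` (degrees), `3 g = 1`, so `3 Pa = Pb`, but the coefficients at `z2^0 z1^3` of `3 Pa` and `Pb` are `9` and `1`. -/
def Stmt_PR2 : Prop := ∀ (k : Type) [Field k] [CharZero k] (e : k), ¬ Pb k ∣ Pa e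

/-- **PR3** (100, uses nothing). `q³ ∣ c³` gives `q ∣ c` (`pow_dvd_pow_iff` in a unique factorisation domain), so `Pa = c'³`, `c'` of degree `1` in `z2`, `c' = g z2 + h` with `g³ = 1`; the coefficient of `z2²` is `3 g² h = 0`, so `h = 0`, but the coefficient `3 z1³ - 3` of `z2^0` is not zero. -/
def Stmt_PR3 : Prop := ∀ (k : Type) [Field k] [CharZero k] (e : k) (c q : k[X][X]), q ≠ 0 → Pa e * q ^ 3 ≠ c ^ 3

/-- **KUA** (80, uses PR1 PR2). The exponent of the prime `Pb` (`emultiplicity`, `multiplicity`, `padicValNat` style) is `1` modulo `3` on the left sides and `0` modulo `3` on the right sides (`Pb` does not divide `Pa`). -/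
def Stmt_KUA : Prop := ∀ (k : Type) [Field k] [CharZero k] (e : k) (c q : k[X][X]), q ≠ 0 →
  Pb k * q ^ 3 ≠ c ^ 3 ∧ Pb k * q ^ 3 ≠ Pa e * c ^ 3 ∧ Pb k * q ^ 3 ≠ Pa e ^ 2 * c ^ 3

/-- **KB1** (80, uses nothing). `X³ - a` is irreducible over `K` (`X_pow_sub_C_irreducible_of_prime`), so it is the minimal polynomial of `w`, and `c0 + c1 X + c2 X²` kills `w`. -/
def Stmt_KB1 : Prop := ∀ (L : Type) [Field L] [CharZero L] (K : Subfield L) (a w : L), a ∈ K → w ^ 3 = a → (∀ c ∈ K, c ^ 3 ≠ a) →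
  ∀ c0 ∈ K, ∀ c1 ∈ K, ∀ c2 ∈ K, c0 + c1 * w + c2 * w ^ 2 = 0 → c0 = 0 ∧ c1 = 0 ∧ c2 = 0

/-- **KB2** (100, uses KB1). Compare coefficients of `1, w, w²` (KB1) in `(c0 + c1 w + c2 w²)³ = b`, `w³ = a`:
(I) `c0² c1 + a c1² c2 + a c0 c2² = 0`, (II) `c0² c2 + c0 c1² + a c1 c2² = 0`. `c1 (I) - c0 (II)` is `c2 (a c1³ - c0³) = 0`. If `c2 ≠ 0` then `a c1³ = c0³`, so `c1 = 0` (otherwise `a = (c0/c1)³`) and `c0 = 0`; if `c2 = 0` then `c0² c1 = 0`. -/
def Stmt_KB2 : Prop := ∀ (L : Type) [Field L] [CharZero L] (K : Subfield L) (a w : L), a ∈ K → w ^ 3 = a → (∀ c ∈ K, c ^ 3 ≠ a) →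
  ∀ c0 ∈ K, ∀ c1 ∈ K, ∀ c2 ∈ K, ∀ b ∈ K, (c0 + c1 * w + c2 * w ^ 2) ^ 3 = b → b = c0 ^ 3 ∨ b = a * c1 ^ 3 ∨ b = a ^ 2 * c2 ^ 3

/-- **KC0** (120, uses KB1). The elements `c0 + c1 w + c2 w²` form a subfield. Inverses: `(c0 + c1 w + c2 w²) ((c0² - a c1 c2) + (a c2² - c0 c1) w + (c1² - c0 c2) w²) = c0³ + a c1³ + a² c2³ - 3 a c0 c1 c2 =: n`. If `n = 0` and the element is not zero then the second factor is zero, by KB1
`c0² = a c1 c2`, `a c2² = c0 c1`, `c1² = c0 c2`, so `c1³ = a c2³`, `c2 = 0` (otherwise `a = (c1/c2)³`), `c1 = 0`, `c0 = 0`. (Or: `w` is algebraic over `K`, `IntermediateField.adjoin K {w}` and division by `X³ - a`.) -/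
def Stmt_KC0 : Prop := ∀ (L : Type) [Field L] [CharZero L] (K : Subfield L) (a w : L), a ∈ K → w ^ 3 = a → (∀ c ∈ K, c ^ 3 ≠ a) →
  ∃ K1 : Subfield L, ∀ z : L, z ∈ K1 ↔ ∃ c0 ∈ K, ∃ c1 ∈ K, ∃ c2 ∈ K, z = c0 + c1 * w + c2 * w ^ 2

/-- **KUC** (100, uses KB1 KB2 KC0). `K1` from KC0 for `w3`. By KB2 `b` is not a cube in `K1`. KB1 for `K1`, `b`, `w4` (the coefficients `∑_r c r s w3^r`), then for `K`, `a`, `w3`. -/
def Stmt_KUC : Prop := ∀ (L : Type) [Field L] [CharZero L] (K : Subfield L) (a b w3 w4 : L), a ∈ K → b ∈ K → w3 ^ 3 = a → w4 ^ 3 = b →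
  (∀ c ∈ K, c ^ 3 ≠ a) → (∀ c ∈ K, b ≠ c ^ 3 ∧ b ≠ a * c ^ 3 ∧ b ≠ a ^ 2 * c ^ 3) →
  ∀ c : Fin 3 → Fin 3 → L, (∀ r s, c r s ∈ K) → ∑ r : Fin 3, ∑ s : Fin 3, c r s * (w3 ^ (r : ℕ) * w4 ^ (s : ℕ)) = 0 → ∀ r s, c r s = 0

/-- **KUM** (120, uses PR3 KUA KUC). `w3^r w4^s`, `r, s ≤ 2`, are linearly independent over `k(z1, z2)`. `K` = the subfield of the quotients `ev2 p / ev2 q` (define it directly, or `Subfield.closure` of the range of `ev2` and `Subfield.mem_closure_iff`; `ev2` is injective). A cube `(ev2 p / ev2 q)³ = ev2 Pa` gives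
`Pa q³ = p³`: PR3; in the same way KUA for `b`. KUC. -/
def Stmt_KUM : Prop := ∀ (k L : Type) [Field k] [CharZero k] [Field L] [Algebra k L] (e : k) (x : Fin 5 → L), Dat k e x →
  ∀ p : Fin 3 → Fin 3 → k[X][X], ∑ r : Fin 3, ∑ s : Fin 3, ev2 k (x 1) (x 2) (p r s) * (x 3 ^ (r : ℕ) * x 4 ^ (s : ℕ)) = 0 →
  ∀ r s, p r s = 0

/-- **DG1** (100, uses nothing). Let `κ = (8/3) X³ - 2`. Suppose not all `h_j` are zero; let `D` be the largest of `deg h0`, `deg h1 + 1`, `deg h2 + 2` (over the nonzero `h_j`); at an index `j` where it is attained the polynomial (`0, 1, 2`) has degree `deg h_j + 3 ≥ 3`, because the second summand has smaller degree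
(`j = 0`: `≤ 4 + (D - 2) < D + 3`; `j = 1`: `≤ 1 + D < D + 2`; `j = 2`: `≤ 1 + (D - 1) < D + 1`). -/
def Stmt_DG1 : Prop := ∀ (k : Type) [Field k] [CharZero k] (e : k) (h0 h1 h2 : k[X]),
  ((C (8 / 3) * X ^ 3 - 2) * h0 + C e * X * (1 - C (1 / 3) * X ^ 3) * h2).natDegree ≤ 2 →
  ((C (8 / 3) * X ^ 3 - 2) * h1 + C e * X * h0).natDegree ≤ 2 →
  ((C (8 / 3) * X ^ 3 - 2) * h2 + C e * X * h1).natDegree ≤ 2 → h0 = 0 ∧ h1 = 0 ∧ h2 = 0

/-- **DEG** (120, uses DG1). Let `β = z2³ + z1³/3 - 1`, monic in `z2`, `Pb = 3 β`, `Pa = β + e z1 z2 + κ`, `κ = (8/3) z1³ - 2`. For `h = h0 + h1 z2 + h2 z2²`, `h_j ∈ k[z1]`: `Pa h = (multiple of β) + c0 + c1 z2 + c2 z2²` with `c0 = κ h0 + e z1 (1 - z1³/3) h2`, `c1 = κ h1 + e z1 h0`, `c2 = κ h2 + e z1 h1`.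
(1) `f = β q + h` (`modByMonic`), then `β ∣ Pa h`, so `c_j = 0`, `h = 0`. (2) `low c = U Pa + V Pb`, `U = β q + h`: `low c - (c0 + c1 z2 + c2 z2²)` is divisible by `β` and of degree `≤ 2`, so zero; the `c_j` have degree `≤ 2`, so `h = 0` and `low c = 0`, so all its coefficients are zero. -/
def Stmt_DEG : Prop := ∀ (k : Type) [Field k] [CharZero k] (e : k),
  (∀ f : k[X][X], Pb k ∣ Pa e * f → Pb k ∣ f) ∧
  ∀ c : Fin 3 → Fin 3 → k, low c ∈ Ideal.span {Pa e, Pb k} → ∀ i j, c i j = 0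

/-- **UNT** (60, uses nothing). `D0 = -9 + e z1 z2` is a unit modulo `(Pa, Pb)`. With `q = z1 z2`, `u = e q`: `8 z1³ ≡ 6 - 3 u`, `8 z2³ ≡ 6 + u` (`8 z1³ - 6 + 3 u = 3 Pa - Pb`, `8 z2³ - 6 - u = 3 Pb - Pa`), so `64 q³ ≡ (6 - 3u)(6 + u)`, `G(u) = 64 u³ - e³ (6 - 3u)(6 + u) ≡ 0`, and
`G(u) - G(9) = (u - 9)(64 (u² + 9 u + 81) + e³ (3 u + 39))`, `G(9) = 46656 + 315 e³ ≠ 0`. So `G(9) ≡ - D0 (64 (u² + 9 u + 81) + e³ (3 u + 39))`. -/
def Stmt_UNT : Prop := ∀ (k : Type) [Field k] [CharZero k] (e : k), 315 * e ^ 3 + 46656 ≠ 0 →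
  ∃ V : k[X][X], (-9 + C (C e) * C X * X) * V - 1 ∈ Ideal.span {Pa e, Pb k}

/-! ## Part 2: independence of the normal monomials -/

/-- **LIN** (80, uses nothing). `MvPolynomial.finSuccEquiv R 2` maps `C u0 * X 0 + C u1 * X 1 + C u2 * X 2` to `C (C u0) * X + C (..)`, a polynomial of degree `1` whose leading coefficient is a unit. If it times `g` is zero then the leading coefficient of `g` times a unit is zero. -/
def Stmt_LIN : Prop := ∀ (R : Type) [CommRing R] (u0 u1 u2 : R), IsUnit u0 → ∀ f : MvPolynomial (Fin 3) R,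
  (MvPolynomial.C u0 * MvPolynomial.X 0 + MvPolynomial.C u1 * MvPolynomial.X 1 + MvPolynomial.C u2 * MvPolynomial.X 2) * f = 0 → f = 0

/-- **NZ1** (80, uses LIN). Reduce modulo `J` (`MvPolynomial.map (Ideal.Quotient.mk J)`, its kernel is `J.map C`: `MvPolynomial.mem_map_C_iff`): `u0` becomes a unit. -/
def Stmt_NZ1 : Prop := ∀ (R : Type) [CommRing R] (J : Ideal R) (u0 u1 u2 : R), (∃ V, u0 * V - 1 ∈ J) → ∀ f : MvPolynomial (Fin 3) R,
  (MvPolynomial.C u0 * MvPolynomial.X 0 + MvPolynomial.C u1 * MvPolynomial.X 1 + MvPolynomial.C u2 * MvPolynomial.X 2) * f ∈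
    J.map (MvPolynomial.C : R →+* MvPolynomial (Fin 3) R) → f ∈ J.map (MvPolynomial.C : R →+* MvPolynomial (Fin 3) R)

/-- **LED** (120, uses nothing). Leading terms. Strong induction on `v` for all `u`; inside, strong induction on `u`. Let `G u' v' = 0` for all `v' < v`. Divide the relation by `B^v`: `∑_u A^u ξ^(i u) η^(j v) G u v + B (..) = 0`, so `B ∣ η^(j v) ∑_u A^u ξ^(i u) G u v`, so `B ∣ ∑_u A^u ξ^(i u) G u v` (induction on `j v`). Let `G u' v = 0` for `u' < u`: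
`B ∣ A^u (ξ^(i u) G u v + A (..))`, so `B ∣ ξ^(i u) G u v + A (..)`, so `ξ^(i u) G u v ∈ (A, B)`, `G u v ∈ (A, B)`, `G u v = 0`. -/
def Stmt_LED : Prop := ∀ (Q : Type) [CommRing Q] [IsDomain Q] (A B ξ η : Q) (N : AddSubgroup Q), B ≠ 0 →
  (∀ f, B ∣ η * f → B ∣ f) → (∀ f, B ∣ A * f → B ∣ f) → (∀ f, ξ * f ∈ Ideal.span {A, B} → f ∈ Ideal.span {A, B}) →
  (∀ f ∈ N, f ∈ Ideal.span {A, B} → f = 0) → ∀ (U V : ℕ) (i j : ℕ → ℕ) (G : ℕ → ℕ → Q), (∀ u v, G u v ∈ N) →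
  ∑ u ∈ Finset.range U, ∑ v ∈ Finset.range V, A ^ u * B ^ v * ξ ^ i u * η ^ j v * G u v = 0 → ∀ u < U, ∀ v < V, G u v = 0

/-- **NZD** (120, uses DEG UNT NZ1). The hypotheses of LED for `A = C Pa`, `B = C Pb`, `ξ = qa`, `η = qb`. Divisibility by `C Pb`: `MvPolynomial.C_dvd_iff_dvd_coeff`, `Ideal.mem_span_singleton`; the ideal `(C Pa, C Pb)` is the image of `(Pa, Pb)`: `Ideal.map_span`, `MvPolynomial.mem_map_C_iff`. (1) `Pb ≠ 0`. (2) NZ1 for
`J = (Pb)`, `u0 = -9`. (3) DEG (1) for each coefficient. (4) NZ1 for `J = (Pa, Pb)`, `u0 = -9 + e z1 z2` (UNT). (5) DEG (2) for each coefficient. -/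
def Stmt_NZD : Prop := ∀ (k : Type) [Field k] [CharZero k] (e : k), 315 * e ^ 3 + 46656 ≠ 0 →
  (MvPolynomial.C (Pb k) : QQ k) ≠ 0 ∧
  (∀ f : QQ k, MvPolynomial.C (Pb k) ∣ qb k * f → MvPolynomial.C (Pb k) ∣ f) ∧
  (∀ f : QQ k, MvPolynomial.C (Pb k) ∣ MvPolynomial.C (Pa e) * f → MvPolynomial.C (Pb k) ∣ f) ∧
  (∀ f : QQ k, qa e * f ∈ Ideal.span {MvPolynomial.C (Pa e), MvPolynomial.C (Pb k)} →
    f ∈ Ideal.span {MvPolynomial.C (Pa e), MvPolynomial.C (Pb k)}) ∧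
  ∀ f : QQ k, (∀ d, ∃ c, MvPolynomial.coeff d f = low c) →
    f ∈ Ideal.span {MvPolynomial.C (Pa e), MvPolynomial.C (Pb k)} → f = 0

/-- **SPL** (120, uses KUM). Write `w3^n = (w3³)^(n / 3) w3^(n % 3)`, `w3³ = ev2 Pa`, `w4³ = ev2 Pb` (`x 0 = 1`), and take the coefficient of each monomial in `y`: KUM (for `r ≥ 3` or `s ≥ 3` the sum is empty). -/
def Stmt_SPL : Prop := ∀ (k L : Type) [Field k] [CharZero k] [Field L] [Algebra k L] (e : k) (x : Fin 5 → L), Dat k e x →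
  ∀ (ι : Type) (T : Finset ι) (n3 n4 : ι → ℕ) (h : ι → QQ k),
  ∑ μ ∈ T, MvPolynomial.C (x 3 ^ n3 μ * x 4 ^ n4 μ) * bc k x (h μ) = 0 → ∀ r s : ℕ,
  ∑ μ ∈ T with n3 μ % 3 = r ∧ n4 μ % 3 = s, MvPolynomial.C (Pa e ^ (n3 μ / 3) * Pb k ^ (n4 μ / 3)) * h μ = 0

/-- The element of `k[z1][z2][y]` which belongs to the coefficient `c` and the normal monomial `μ`. -/
def hq {k : Type} [Field k] (c : k) (μ : (Fin 5 → ℕ) × (Fin 5 → ℕ)) : QQ k :=
  MvPolynomial.C (C (C (c * (3⁻¹ : k) ^ (μ.2 3 + μ.2 4)) * X ^ μ.1 1) * X ^ μ.1 2) *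
    (MvPolynomial.X 0 ^ μ.2 0 * MvPolynomial.X 1 ^ μ.2 1 * MvPolynomial.X 2 ^ μ.2 2)

/-- **REL** (120, uses nothing). `C (x3^(3m) x4^(3m)) * c • evm μ = C (x3^n3 x4^n4) * bc (hq c μ * qa^β3 * qb^β4)`, `n3 = α3 + 3 m - 2 β3` (`β3, β4 ≤ m`; `x3, x4 ≠ 0` because their cubes are `ev2` of nonzero polynomials; `bc qa`, `bc qb` are the forms in `ys`). Sum over `μ`. -/
def Stmt_REL : Prop := ∀ (k L : Type) [Field k] [CharZero k] [Field L] [Algebra k L] (e : k) (x : Fin 5 → L), Dat k e x →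
  ∀ (p m : ℕ) (c : (Fin 5 → ℕ) × (Fin 5 → ℕ) → k), ∑ μ ∈ II p m, c μ • evm e x μ = 0 →
  ∑ μ ∈ II p m, MvPolynomial.C (x 3 ^ (μ.1 3 + 3 * m - 2 * μ.2 3) * x 4 ^ (μ.1 4 + 3 * m - 2 * μ.2 4)) *
    bc k x (hq (c μ) μ * qa e ^ μ.2 3 * qb k ^ μ.2 4) = 0

/-- **IN1** (120, uses LED NZD). `G u v` = the sum of `h μ` over the `μ ∈ T` with `n3 μ = u`, `n4 μ = v`; `U`, `V` larger than all `n3 μ`, `n4 μ` and `u`, `v` (`Finset.sum_fiberwise_of_maps_to` or `Finset.sum_comm'`). LED with NZD, `N` = the elements all of whose coefficients are of the form `low c` (an additive subgroup). -/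
def Stmt_IN1 : Prop := ∀ (k : Type) [Field k] [CharZero k] (e : k), 315 * e ^ 3 + 46656 ≠ 0 →
  ∀ (ι : Type) (T : Finset ι) (n3 n4 b3 b4 : ι → ℕ) (i j : ℕ → ℕ) (h : ι → QQ k),
  (∀ μ ∈ T, b3 μ = i (n3 μ) ∧ b4 μ = j (n4 μ)) → (∀ μ ∈ T, ∀ d, ∃ c, MvPolynomial.coeff d (h μ) = low c) →
  ∑ μ ∈ T, MvPolynomial.C (Pa e ^ n3 μ * Pb k ^ n4 μ) * (h μ * qa e ^ b3 μ * qb k ^ b4 μ) = 0 →
  ∀ u v : ℕ, ∑ μ ∈ T with n3 μ = u ∧ n4 μ = v, h μ = 0

/-- **IN2** (120, uses nothing). The exponent of `(z1, z2, y0, y1, y2)` in `hq (c μ) μ` is `(α1, α2, β0, β1, β2)`. For `μ` normal, `n = α3 + 3 m - 2 β3` determines `β3 = (3 m - n + 1) / 2` (truncated subtraction; `omega` in the cases `β3 = 0` and `α3 ≤ 1`, `β3 ≤ m`) and `α3`, the same for `n'`, and `α0 = p - ..`, so it is different for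
different `μ` of the sum: the coefficient there is `c μ (1/3)^(β3+β4)`. -/
def Stmt_IN2 : Prop := ∀ (k : Type) [Field k] [CharZero k] (p m n n' : ℕ) (c : (Fin 5 → ℕ) × (Fin 5 → ℕ) → k),
  ∑ μ ∈ II p m with μ.1 3 + 3 * m - 2 * μ.2 3 = n ∧ μ.1 4 + 3 * m - 2 * μ.2 4 = n', hq (c μ) μ = 0 →
  ∀ μ ∈ II p m, μ.1 3 + 3 * m - 2 * μ.2 3 = n → μ.1 4 + 3 * m - 2 * μ.2 4 = n' → c μ = 0

/-- **IND** (120, uses SPL REL IN1 IN2). For `μ₀ ∈ II p m` let `r = n3 μ₀ % 3`, `s = n4 μ₀ % 3`. REL, SPL: the sum over the `μ` in the class `(r, s)` is zero. IN1 for `T` = this class, the quotients `n3 μ / 3`, `n4 μ / 3`, `b3 μ = β3 = (3 m - n3 μ + 1) / 2`, so `i u = (3 m - (3 u + r) + 1) / 2` (`omega`, normal `μ`, `β3 ≤ m`), `j v` the same with `s`; the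
coefficients of `hq (c μ) μ` are of the form `low c` (`α1, α2 ≤ 2`). The sum of IN1 for `u = n3 μ₀ / 3`, `v = n4 μ₀ / 3` is the sum of IN2 for `n = n3 μ₀`, `n' = n4 μ₀`. -/
def Stmt_IND : Prop := ∀ (k L : Type) [Field k] [CharZero k] [Field L] [Algebra k L] (e : k) (x : Fin 5 → L), Dat k e x →
  ∀ (p m : ℕ) (c : (Fin 5 → ℕ) × (Fin 5 → ℕ) → k), ∑ μ ∈ II p m, c μ • evm e x μ = 0 → ∀ μ ∈ II p m, c μ = 0

/-! ## Part 3: the normal monomials generate; the derivation; the count -/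

/-- **SP1** (120, uses nothing). `mon x y (μ + ν) = mon x y μ * mon x y ν`, and `mon x y (Pi.single i n, Pi.single j l) = x i ^ n * y j ^ l`. In `L[y0, y1, y2]`, with `x0, .., x4`, `y = ys e x`: `8 x1³ = 6 x0³ + 3 x3³ - x4³ - 3 e x0 x1 x2`, `8 x2³ = 6 x0³ - x3³ + 3 x4³ + e x0 x1 x2`, `3 x3² y3 = ξ_a`
(`x3 ≠ 0`: `x3³ = ev2 Pa ≠ 0`), `3 x4² y4 = ξ_b`. -/
def Stmt_SP1 : Prop := ∀ (k L : Type) [Field k] [CharZero k] [Field L] [Algebra k L] (e : k) (x : Fin 5 → L), Dat k e x →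
  ∀ α β : Fin 5 → ℕ,
  (8 : k) • evm e x (α + Pi.single 1 3, β) = (6 : k) • evm e x (α + Pi.single 0 3, β) + (3 : k) • evm e x (α + Pi.single 3 3, β) -
    evm e x (α + Pi.single 4 3, β) - (3 * e) • evm e x (α + (Pi.single 0 1 + Pi.single 1 1 + Pi.single 2 1), β) ∧
  (8 : k) • evm e x (α + Pi.single 2 3, β) = (6 : k) • evm e x (α + Pi.single 0 3, β) - evm e x (α + Pi.single 3 3, β) +
    (3 : k) • evm e x (α + Pi.single 4 3, β) + e • evm e x (α + (Pi.single 0 1 + Pi.single 1 1 + Pi.single 2 1), β) ∧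
  (3 : k) • evm e x (α + Pi.single 3 2, β + Pi.single 3 1) =
    (-9 : k) • evm e x (α + Pi.single 0 2, β + Pi.single 0 1) + e • evm e x (α + (Pi.single 1 1 + Pi.single 2 1), β + Pi.single 0 1) +
    (9 : k) • evm e x (α + Pi.single 1 2, β + Pi.single 1 1) + e • evm e x (α + (Pi.single 0 1 + Pi.single 2 1), β + Pi.single 1 1) +
    (3 : k) • evm e x (α + Pi.single 2 2, β + Pi.single 2 1) + e • evm e x (α + (Pi.single 0 1 + Pi.single 1 1), β + Pi.single 2 1) ∧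
  (3 : k) • evm e x (α + Pi.single 4 2, β + Pi.single 4 1) =
    (-9 : k) • evm e x (α + Pi.single 0 2, β + Pi.single 0 1) + (3 : k) • evm e x (α + Pi.single 1 2, β + Pi.single 1 1) +
    (9 : k) • evm e x (α + Pi.single 2 2, β + Pi.single 2 1)

/-- **SPN** (150, uses SP1). Strong induction on `3 (β3 + β4) + α1 + α2`. If `μ` is not normal then `α1 ≥ 3`, or `α2 ≥ 3`, or `α3 ≥ 2` and `β3 ≥ 1`, or `α4 ≥ 2` and `β4 ≥ 1`: write `α = α' + Pi.single 1 3` and so on and apply the corresponding formula of SP1 (4, 4, 6, 3 terms); all new exponents have the same bidegree and a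
smaller measure (`ξ_a`: `α1 + α2` grows by at most `2`, `β3` decreases by `1`); divide by `8` or `3` in `k`. -/
def Stmt_SPN : Prop := ∀ (k L : Type) [Field k] [CharZero k] [Field L] [Algebra k L] (e : k) (x : Fin 5 → L), Dat k e x →
  ∀ (p m : ℕ) (μ : (Fin 5 → ℕ) × (Fin 5 → ℕ)), ∑ i, μ.1 i = p → ∑ i, μ.2 i = m →
  evm e x μ ∈ Submodule.span k (evm e x '' (II p m : Set ((Fin 5 → ℕ) × (Fin 5 → ℕ))))

/-- **DER** (120, uses nothing). `dd x (ys e x i) = C (x i)` for all `i` (`i = 3`: `(3 x3²)⁻¹ ξ_a(x) = (3 x3²)⁻¹ 3 a = x3`, Euler, `x3³ = a`, `x3 ≠ 0`: `x3³ = ev2 Pa ≠ 0`). Leibniz for the product of powers (`Fin.prod_univ_five`, `Derivation.leibniz`, `Derivation.leibniz_pow`): `dd x (evm μ) = ∑_i β_i evm (α + e_i, β - e_i)`, where the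
terms with `β_i = 0` are zero. -/
def Stmt_DER : Prop := ∀ (k L : Type) [Field k] [CharZero k] [Field L] [Algebra k L] (e : k) (x : Fin 5 → L), Dat k e x →
  ∀ (p m : ℕ) (μ : (Fin 5 → ℕ) × (Fin 5 → ℕ)), ∑ i, μ.1 i = p → ∑ i, μ.2 i = m + 1 →
  dd x (evm e x μ) ∈ Submodule.span k (evm e x '' {ν | ∑ i, ν.1 i = p + 1 ∧ ∑ i, ν.2 i = m})

/-- **CN1** (80, uses nothing). First coordinate zero or not (`Finset.Nat.mem_antidiagonalTuple`, `Fin.sum_univ_succ`, `Fin.cons`); or by the definition of `antidiagonalTuple` and `Finset.Nat.antidiagonal_succ`. -/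
def Stmt_CN1 : Prop := ∀ d m : ℕ, (Finset.Nat.antidiagonalTuple (d + 1) (m + 1)).card =
  (Finset.Nat.antidiagonalTuple (d + 1) m).card + (Finset.Nat.antidiagonalTuple d (m + 1)).card

/-- **CN2** (100, uses nothing). Delete the zero coordinates: `Finset.card_bij` or `card_nbij'` with `β ↦ ![β 0, β 1, β 2, β 4]` and `γ ↦ ![γ 0, γ 1, γ 2, 0, γ 3]`, and so on. -/
def Stmt_CN2 : Prop := ∀ m : ℕ,
  ((Finset.Nat.antidiagonalTuple 5 m).filter fun β => β 3 = 0).card = (Finset.Nat.antidiagonalTuple 4 m).card ∧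
  ((Finset.Nat.antidiagonalTuple 5 m).filter fun β => β 4 = 0).card = (Finset.Nat.antidiagonalTuple 4 m).card ∧
  ((Finset.Nat.antidiagonalTuple 5 m).filter fun β => β 3 = 0 ∧ β 4 = 0).card = (Finset.Nat.antidiagonalTuple 3 m).card

/-- The number of the `α` with `|α| = p`, `α1, α2 ≤ 2` and given truth values of `α3 ≤ 1` and `α4 ≤ 1`. -/
def NA (p : ℕ) (u v : Bool) : ℕ :=
  ((Finset.Nat.antidiagonalTuple 5 p).filter fun α => α 1 ≤ 2 ∧ α 2 ≤ 2 ∧ decide (α 3 ≤ 1) = u ∧ decide (α 4 ≤ 1) = v).card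

/-- **CN3** (60, uses nothing). Finite computation (`decide +kernel`, `rfl`; or a bijection with a set of quadruples). -/
def Stmt_CN3 : Prop := NA 7 true true = 36 ∧ NA 7 true false = 63 ∧ NA 7 false true = 63 ∧ NA 7 false false = 33 ∧
  NA 8 true true = 36 ∧ NA 8 true false = 81 ∧ NA 8 false true = 81 ∧ NA 8 false false = 60

/-- **CN4** (100, uses CN2). Sum over `α` (`Finset.card_sigma`, or `Finset.card_eq_sum_card_fiberwise` and the four classes of `α`): the number of `β` is `n_5(m)` if `α3, α4 ≤ 1`, `n_4(m)` if exactly one of them is `≥ 2`, `n_3(m)` if both are. -/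
def Stmt_CN4 : Prop := ∀ p m : ℕ, (II p m).card = NA p true true * (Finset.Nat.antidiagonalTuple 5 m).card +
  (NA p true false + NA p false true) * (Finset.Nat.antidiagonalTuple 4 m).card + NA p false false * (Finset.Nat.antidiagonalTuple 3 m).card

/-- **CNT** (40, uses CN1 CN3 CN4). With `n_d(m)` the number of elements of `antidiagonalTuple d m`: `|II 7 (m+1)| = 36 n_5(m+1) + 126 n_4(m+1) + 33 n_3(m+1) = 36 n_5(m) + 162 n_4(m) + 195 n_3(m+1)`, `|II 8 m| = 36 n_5(m) + 162 n_4(m) + 60 n_3(m)`, `n_3(m+1) = n_3(m) + n_2(m+1)`, `n_2(m+1) = n_2(m) + n_1(m+1)`,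
`n_1(m+1) = 1` (`n_1(m+1) = n_1(m) + n_0(m+1)`, `n_1(0) = 1`). -/
def Stmt_CNT : Prop := ∀ m : ℕ, (II 8 m).card < (II 7 (m + 1)).card

/-- **EXI** (100, uses IND SPN DER CNT). The linear map `(II 7 (m + 1) → k) → L[y]`, `c ↦ dd (∑ c μ • evm μ)` has its image in the span of `evm '' II 8 m` (DER, SPN), of dimension at most `|II 8 m|` (`finrank_span_finset_le_card`), so it has a nonzero kernel (`LinearMap.ker_ne_bot_of_finrank_lt`). -/
def Stmt_EXI : Prop := ∀ (k L : Type) [Field k] [CharZero k] [Field L] [Algebra k L] (e : k) (x : Fin 5 → L), Dat k e x →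
  ∀ m : ℕ, ∃ c : (Fin 5 → ℕ) × (Fin 5 → ℕ) → k, ∑ μ ∈ II 7 (m + 1), c μ • evm e x μ ≠ 0 ∧
    dd x (∑ μ ∈ II 7 (m + 1), c μ • evm e x μ) = 0

/-! ## Part 4: conclusion -/

/-- **TY1** (120, uses nothing). `x0 = 1`. Let `Ψ` be the `L`-algebra endomorphism `y0 ↦ y0`, `y1 ↦ y1 + x1 y0`, `y2 ↦ y2 + x2 y0` of `L[y0, y1, y2]`. `pderiv 0 (Ψ f) = Ψ (dd x f) = 0` (two derivations along `Ψ` which agree on the variables; or `MvPolynomial.induction_on`), so `Ψ f` does not contain `y0` (characteristic `0`; for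
example `finSuccEquiv` and `Polynomial.natDegree_eq_zero_of_derivative_eq_zero`): `f (y0, y1 + x1 y0, y2 + x2 y0) = f (0, y1, y2)`; substitute `y1 - x1 y0`, `y2 - x2 y0` for `y1`, `y2`. -/
def Stmt_TY1 : Prop := ∀ (L : Type) [Field L] [CharZero L] (x : Fin 5 → L), x 0 = 1 → ∀ f : MvPolynomial (Fin 3) L, dd x f = 0 →
  MvPolynomial.aeval (![0, MvPolynomial.X 1 - MvPolynomial.C (x 1) * MvPolynomial.X 0,
    MvPolynomial.X 2 - MvPolynomial.C (x 2) * MvPolynomial.X 0] : Fin 3 → MvPolynomial (Fin 3) L) f = f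

/-- **TAY** (80, uses TY1). `f (v0, v1, v2) = f (0, v1 - x1 v0, v2 - x2 v0)` in every `L`-algebra (apply `aeval v` to TY1); `x0 = 1`. (1) follows at once. (2) `f (0, v1, v2) = 0` gives (independence) `f (0, Y1, Y2) = 0` in `L[Y1, Y2]`, so `f = 0` by TY1. -/
def Stmt_TAY : Prop := ∀ (L : Type) [Field L] [CharZero L] (x : Fin 5 → L), x 0 = 1 → ∀ f : MvPolynomial (Fin 3) L, dd x f = 0 →
  (∀ (A : Type) [CommRing A] [Algebra L A] (v : Fin 3 → A) (l : A),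
    MvPolynomial.aeval (![v 0 + l * algebraMap L A (x 0), v 1 + l * algebraMap L A (x 1), v 2 + l * algebraMap L A (x 2)] : Fin 3 → A) f =
      MvPolynomial.aeval v f) ∧
  (f ≠ 0 → ∀ (A : Type) [CommRing A] [Algebra L A] (v1 v2 : A),
    (∀ g : MvPolynomial (Fin 2) L, MvPolynomial.aeval ![v1, v2] g = 0 → g = 0) →
    MvPolynomial.aeval (![0, v1, v2] : Fin 3 → A) f ≠ 0)

/-- **FIN** (120, uses EXI TAY). `I = II 7 m`, `c` from EXI, `f = ∑ c μ • evm μ`. For a tangent vector `y` (in `A`): `aeval ![y 0, y 1, y 2] (evm e x μ) = mon x y μ`, because `aeval .. (ys e x 3) = (3 x3²)⁻¹ ξ_a(y) = y 3` (`3 x3² ≠ 0` in `L`: `x3³ = ev2 Pa ≠ 0`), the same for `4`; so `val A I c x y = aeval ![y 0, y 1, y 2] f`. If `y` is tangent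
then `y + l x` is tangent (Euler: `xa` is linear in `y` and `xa (x) = 3 a = 3 x3³`). TAY. -/
def Stmt_FIN : Prop := Stmt_E

/-- **CNV** (60, uses nothing). `ev2 k z1 z2 p` is the value of a polynomial in `MvPolynomial (Fin 2) k` at `![z1, z2]` which is zero only if `p` is zero (`MvPolynomial.finSuccEquiv`, `pUnitAlgEquiv`; or: `MvPolynomial.aeval ![C X, X] : MvPolynomial (Fin 2) k → k[X][X]` is bijective). -/
def Stmt_CNV : Prop := ∀ (k L : Type) [Field k] [Field L] [Algebra k L] (z1 z2 : L), AlgebraicIndependent k ![z1, z2] →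
  ∀ p : k[X][X], ev2 k z1 z2 p = 0 → p = 0

end Pool.CXE
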